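import Mathlib.Data.ZMod.Defs
import Mathlib.Tactic.Monotonicity.Lemmas
import Pool.Agent.MP_6eaae3_al.Words
import Mathlib.Algebra.BigOperators.Intervals

-- ======== part 0: formerly Pool.Agent.MP_6eaae3_al.Rec
section MrgPart0

/-! Cyclic lists of crossings and the automorphisms of a free group induced by the twists. -/

namespace Pool.Agent.MP_6eaae3_al

open FreeGroup (of)
open Set

set_option linter.unusedSimpArgs false

section fre

variable {L H : Type} [Group H]

/-- The free factor on a set of letters. -/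
def Fre (S : Set L) : Subgroup (FreeGroup L) := Subgroup.closure (of '' S)

theorem of_mem_Fre {S : Set L} {x : L} (h : x ∈ S) : of x ∈ Fre S :=
  Subgroup.subset_closure ⟨x, h, rfl⟩

theorem Fre.map_mem {S : Set L} {F : Type} [FunLike F (FreeGroup L) H]
    [MonoidHomClass F (FreeGroup L) H] (φ : F) {K : Subgroup H} (h : ∀ x ∈ S, φ (of x) ∈ K)
    {w : FreeGroup L} (hw : w ∈ Fre S) : φ w ∈ K := by
  induction hw using Subgroup.closure_induction with
  | mem x hx => obtain ⟨x, hx, rfl⟩ := hx; exact h x hx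
  | one => simp
  | mul x y _ _ a b => rw [map_mul]; exact mul_mem a b
  | inv x _ a => rw [map_inv]; exact inv_mem a

theorem Fre.eq {S : Set L} {F F' : Type} [FunLike F (FreeGroup L) H]
    [MonoidHomClass F (FreeGroup L) H] [FunLike F' (FreeGroup L) H]
    [MonoidHomClass F' (FreeGroup L) H] (φ : F) (φ' : F') (h : ∀ x ∈ S, φ (of x) = φ' (of x))
    {w : FreeGroup L} (hw : w ∈ Fre S) : φ w = φ' w := by
  induction hw using Subgroup.closure_induction with
  | mem x hx => obtain ⟨x, hx, rfl⟩ := hx; exact h x hx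
  | one => simp
  | mul x y _ _ a b => rw [map_mul, map_mul, a, b]
  | inv x _ a => rw [map_inv, map_inv, a]

theorem Fre.fix {S : Set L} {F : Type} [FunLike F (FreeGroup L) (FreeGroup L)]
    [MonoidHomClass F (FreeGroup L) (FreeGroup L)] (φ : F) (h : ∀ x ∈ S, φ (of x) = of x)
    {w : FreeGroup L} (hw : w ∈ Fre S) : φ w = w := Fre.eq φ (MonoidHom.id _) h hw

theorem Fre.mono {S S' : Set L} (h : S ⊆ S') : Fre S ≤ Fre S' := Subgroup.closure_mono (image_mono h)

theorem mem_Fre_univ (w : FreeGroup L) : w ∈ Fre (univ : Set L) := by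
  rw [Fre, image_univ, FreeGroup.closure_range_of]; trivial

open Classical in
noncomputable def proj (S : Set L) : FreeGroup L →* FreeGroup L :=
  FreeGroup.lift fun x => if x ∈ S then of x else 1

theorem proj_mem {S : Set L} {x : L} (h : x ∈ S) : proj S (of x) = of x := by simp [proj, h]
theorem proj_not {S : Set L} {x : L} (h : x ∉ S) : proj S (of x) = 1 := by simp [proj, h]

theorem proj_Fre {S S' : Set L} {w : FreeGroup L} (h : w ∈ Fre S') : proj S w ∈ Fre (S ∩ S') :=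
  Fre.map_mem _ (fun x hx => by
    by_cases e : x ∈ S
    · rw [proj_mem e]; exact of_mem_Fre ⟨e, hx⟩
    · rw [proj_not e]; exact one_mem _) h

theorem mem_Fre {S : Set L} {w : FreeGroup L} : w ∈ Fre S ↔ proj S w = w :=
  ⟨Fre.fix _ fun _ => proj_mem, fun h => h ▸ Fre.mono inter_subset_left (proj_Fre (mem_Fre_univ w))⟩

theorem Fre.inter {S S' : Set L} {w : FreeGroup L} (h : w ∈ Fre S) (h' : w ∈ Fre S') :
    w ∈ Fre (S ∩ S') := mem_Fre.1 h ▸ proj_Fre h'

theorem Fre.biInter {α : Type} (s : Finset α) {S : α → Set L} {w : FreeGroup L}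
    (h : ∀ i ∈ s, w ∈ Fre (S i)) : w ∈ Fre {x | ∀ i ∈ s, x ∈ S i} := by
  classical
  induction s using Finset.induction_on with
  | empty => simpa using mem_Fre_univ w
  | insert a s _ ih =>
    refine Fre.mono (fun x hx => ?_) (Fre.inter (h a (Finset.mem_insert_self _ _))
      (ih fun i hi => h i (Finset.mem_insert_of_mem hi)))
    simpa using hx

theorem autExt {φ φ' : MulAut (FreeGroup L)} (h : ∀ j, φ (of j) = φ' (of j)) : φ = φ' :=
  MulEquiv.ext fun w => Fre.eq φ φ' (fun x _ => h x) (mem_Fre_univ w)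

/-- Multiply each letter on the left and on the right by words in fixed letters. -/
def shr (l r : L → FreeGroup L) (h : ∀ x, l x ∈ Fre {y | l y = 1 ∧ r y = 1} ∧
    r x ∈ Fre {y | l y = 1 ∧ r y = 1}) : MulAut (FreeGroup L) :=
  MonoidHom.toMulEquiv (FreeGroup.lift fun x => l x * of x * r x)
    (FreeGroup.lift fun x => (l x)⁻¹ * of x * (r x)⁻¹)
    (by
      ext x
      have := fun w hw => Fre.fix (S := {y | l y = 1 ∧ r y = 1})
        (FreeGroup.lift fun x => (l x)⁻¹ * of x * (r x)⁻¹) (fun y hy => by simp [hy.1, hy.2]) (w := w) hw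
      simp only [MonoidHom.comp_apply, FreeGroup.lift_apply_of, map_mul, map_inv, this _ (h x).1,
        this _ (h x).2, MonoidHom.id_apply]
      group)
    (by
      ext x
      have := fun w hw => Fre.fix (S := {y | l y = 1 ∧ r y = 1})
        (FreeGroup.lift fun x => l x * of x * r x) (fun y hy => by simp [hy.1, hy.2]) (w := w) hw
      simp only [MonoidHom.comp_apply, FreeGroup.lift_apply_of, map_mul, map_inv, this _ (h x).1,
        this _ (h x).2, MonoidHom.id_apply]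
      group)

theorem shr_of (l r : L → FreeGroup L) (h) (x : L) : shr l r h (of x) = l x * of x * r x := by
  simp [shr]

theorem shr_inv (l r : L → FreeGroup L) (h) (x : L) :
    (shr l r h)⁻¹ (of x) = (l x)⁻¹ * of x * (r x)⁻¹ := FreeGroup.lift_apply_of

/-- Automorphisms that preserve a subgroup. -/
def Stab (K : Subgroup H) : Subgroup (MulAut H) where
  carrier := {φ | ∀ y, φ y ∈ K ↔ y ∈ K}
  one_mem' := fun _ => Iff.rfl
  mul_mem' := fun h h' y => (h _).trans (h' y)
  inv_mem' := fun {φ} h y => by rw [← h]; simp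

theorem mem_Stab {S : Set L} {φ : MulAut (FreeGroup L)} (h : ∀ x ∈ S, φ (of x) ∈ Fre S)
    (h' : ∀ x ∈ S, φ⁻¹ (of x) ∈ Fre S) : φ ∈ Stab (Fre S) :=
  fun y => ⟨fun e => by simpa using Fre.map_mem φ⁻¹ h' e, Fre.map_mem φ h⟩

/-- Automorphisms that multiply `y` on the left by an element of `K` and preserve `K`. -/
def Lft (K : Subgroup H) (y : H) : Subgroup (MulAut H) where
  carrier := {φ | φ ∈ Stab K ∧ φ y * y⁻¹ ∈ K}
  one_mem' := ⟨one_mem _, by simp⟩
  mul_mem' := fun {φ φ'} h h' => ⟨mul_mem h.1 h'.1, by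
    have := mul_mem ((h.1 _).2 h'.2) h.2
    simpa [mul_assoc] using this⟩
  inv_mem' := fun {φ} h => ⟨inv_mem h.1, by
    rw [← h.1]
    simpa using inv_mem h.2⟩

end fre

variable {M : Type}

abbrev FL (M : Type) := FreeGroup (M × Fin 4)

def ld (μ : M) : FL M := of (μ, 0)
def lb (μ : M) : FL M := of (μ, 1)
def lt (μ : M) : FL M := of (μ, 2)
def lz (μ : M) : FL M := of (μ, 3)

def inl (p : M × Bool) : FL M := if p.2 then (lb p.1)⁻¹ else 1
def out (s : Bool) (p : M × Bool) : FL M :=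
  if p.2 then lt p.1 else if s then ld p.1 else ld p.1 * lz p.1
def pas (s : Bool) (p : M × Bool) : FL M := inl p * out s p
def pth (s : Bool) (l : List (M × Bool)) : FL M := (l.map (pas s)).prod

@[simp] theorem pth_nil (s : Bool) : pth s ([] : List (M × Bool)) = 1 := rfl
@[simp] theorem pth_cons (s : Bool) (p) (l : List (M × Bool)) :
    pth s (p :: l) = inl p * out s p * pth s l := by simp [pth, pas]
@[simp] theorem pth_append (s : Bool) (l l' : List (M × Bool)) :
    pth s (l ++ l') = pth s l * pth s l' := by simp [pth]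

theorem pth_mem {K : Subgroup (FL M)} {s : Bool} {l : List (M × Bool)}
    (h : ∀ p ∈ l, inl p ∈ K ∧ out s p ∈ K) : pth s l ∈ K := by
  induction l with
  | nil => exact one_mem _
  | cons p l ih =>
    rw [pth_cons]
    exact mul_mem (mul_mem (h p List.mem_cons_self).1 (h p List.mem_cons_self).2)
      (ih fun q hq => h q (List.mem_cons_of_mem _ hq))

/-- An annulus, given by the cyclic list of its crossings. -/
structure Rec (M : Type) where
  cells : List (M × Bool)
  nd : (cells.map Prod.fst).Nodup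

namespace Rec

variable (A : Rec M)

theorem nodup : A.cells.Nodup := A.nd.of_map _

theorem eq_of {p q : M × Bool} (hp : p ∈ A.cells) (hq : q ∈ A.cells) (h : p.1 = q.1) : p = q :=
  List.inj_on_of_nodup_map A.nd hp hq h

theorem not_both {μ : M} (h : (μ, false) ∈ A.cells) : (μ, true) ∉ A.cells :=
  fun h' => by simpa using A.eq_of h h' rfl

def slots : Set M := {μ | ∃ b, (μ, b) ∈ A.cells}

open Classical in
noncomputable def pre (s : Bool) (p : M × Bool) : FL M :=
  pth s (A.cells.take (A.cells.idxOf p)) * inl p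

noncomputable def ell (s : Bool) (p : M × Bool) : FL M :=
  (A.pre s p)⁻¹ * pth s A.cells * A.pre s p

/-- The letters read along the annulus. -/
def PL (s : Bool) : Set (M × Fin 4) :=
  {x | ((x.1, false) ∈ A.cells ∧ (x.2 = 0 ∨ (s = false ∧ x.2 = 3))) ∨
    ((x.1, true) ∈ A.cells ∧ (x.2 = 1 ∨ x.2 = 2))}

variable {A}

theorem io_mem {s : Bool} {p : M × Bool} (h : p ∈ A.cells) :
    inl p ∈ Fre (A.PL s) ∧ out s p ∈ Fre (A.PL s) := by
  obtain ⟨μ, _ | _⟩ := p
  · refine ⟨one_mem _, ?_⟩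
    have : ld μ ∈ Fre (A.PL s) := of_mem_Fre (Or.inl ⟨h, Or.inl rfl⟩)
    cases s
    · exact mul_mem this (of_mem_Fre (Or.inl ⟨h, Or.inr ⟨rfl, rfl⟩⟩))
    · exact this
  · exact ⟨inv_mem (of_mem_Fre (Or.inr ⟨h, Or.inl rfl⟩)), of_mem_Fre (Or.inr ⟨h, Or.inr rfl⟩)⟩

theorem pre_mem {s : Bool} {p : M × Bool} (h : p ∈ A.cells) : A.pre s p ∈ Fre (A.PL s) :=
  mul_mem (pth_mem fun _ hq => io_mem (List.mem_of_mem_take hq)) (io_mem h).1

theorem ell_mem {s : Bool} {p : M × Bool} (h : p ∈ A.cells) : A.ell s p ∈ Fre (A.PL s) :=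
  mul_mem (mul_mem (inv_mem (pre_mem h)) (pth_mem fun _ => io_mem)) (pre_mem h)

theorem pre_eq (s : Bool) {p : M × Bool} {l l' : List (M × Bool)} (h : A.cells = l ++ p :: l') :
    A.pre s p = pth s l * inl p := by
  classical
  have := A.nodup
  rw [h] at this
  have : p ∉ l := fun e => List.disjoint_of_nodup_append this e List.mem_cons_self
  rw [pre, h, List.idxOf_append_of_notMem this]; simp

theorem ell_eq (s : Bool) {p : M × Bool} {l l' : List (M × Bool)} (h : A.cells = l ++ p :: l') :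
    A.ell s p = out s p * pth s l' * pth s l * inl p := by
  rw [ell, pre_eq s h, h, pth_append, pth_cons]; group

variable (A)

open Classical in
noncomputable def lf (s : Bool) (x : M × Fin 4) : FL M :=
  if x.2 = 1 ∧ (x.1, false) ∈ A.cells then A.ell s (x.1, false)
  else if x.2 = 0 ∧ (x.1, true) ∈ A.cells then A.ell s (x.1, true)
  else if x.2 = 3 ∧ s = true ∧ (x.1, false) ∈ A.cells then
    (ld x.1)⁻¹ * A.ell s (x.1, false) * ld x.1 else 1

noncomputable def rg (s : Bool) (x : M × Fin 4) : FL M := if x.2 = 3 then (A.lf s x)⁻¹ else 1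

theorem lf_mem (s : Bool) (x : M × Fin 4) : A.lf s x ∈ Fre (A.PL s) := by
  unfold lf
  split_ifs with h1 h2 h3
  · exact ell_mem h1.2
  · exact ell_mem h2.2
  · have : ld x.1 ∈ Fre (A.PL s) := of_mem_Fre (Or.inl ⟨h3.2.2, Or.inl rfl⟩)
    exact mul_mem (mul_mem (inv_mem this) (ell_mem h3.2.2)) this
  · exact one_mem _

theorem rg_mem (s : Bool) (x : M × Fin 4) : A.rg s x ∈ Fre (A.PL s) := by
  unfold rg
  split_ifs
  exacts [inv_mem (A.lf_mem s x), one_mem _]

theorem lf_PL {s : Bool} {x : M × Fin 4} (h : x ∈ A.PL s) : A.lf s x = 1 := by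
  obtain ⟨μ, k⟩ := x
  rcases h with ⟨h, rfl | ⟨rfl, rfl⟩⟩ | ⟨h, rfl | rfl⟩
  · simp [lf, A.not_both h]
  · simp [lf]
  · have : (μ, false) ∉ A.cells := fun e => A.not_both e h
    simp [lf, this]
  · simp [lf]

/-- The automorphism induced by the twist along the upper or the lower strip. -/
noncomputable def tau (s : Bool) : MulAut (FL M) :=
  shr (A.lf s) (A.rg s) fun x => by
    have : A.PL s ⊆ {y | A.lf s y = 1 ∧ A.rg s y = 1} := fun y hy => by simp [rg, A.lf_PL hy]
    exact ⟨Fre.mono this (A.lf_mem s x), Fre.mono this (A.rg_mem s x)⟩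

theorem tau_of (s : Bool) (x : M × Fin 4) : A.tau s (of x) = A.lf s x * of x * A.rg s x :=
  shr_of _ _ _ _

variable {A}

theorem tau_one {s : Bool} {x : M × Fin 4} (h : A.lf s x = 1) : A.tau s (of x) = of x := by
  simp [tau_of, rg, h]

theorem tau_PL {s : Bool} {w : FL M} (h : w ∈ Fre (A.PL s)) : A.tau s w = w :=
  Fre.fix _ (fun _ hx => tau_one (A.lf_PL hx)) h

theorem lf_not {s : Bool} {x : M × Fin 4} (h : x.1 ∉ A.slots) : A.lf s x = 1 := by
  have h1 : ∀ b, (x.1, b) ∉ A.cells := fun b e => h ⟨b, e⟩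
  simp [lf, h1]

theorem tau_not {s : Bool} {x : M × Fin 4} (h : x.1 ∉ A.slots) : A.tau s (of x) = of x :=
  tau_one (lf_not h)

theorem tau_lt (s : Bool) (μ : M) : A.tau s (lt μ) = lt μ := tau_one (by simp [lf])

theorem tau_lb (s : Bool) {μ : M} (h : (μ, false) ∈ A.cells) :
    A.tau s (lb μ) = A.ell s (μ, false) * lb μ := by simp [lb, tau_of, lf, rg, h]

theorem tau_lb' (s : Bool) {μ : M} (h : (μ, false) ∉ A.cells) : A.tau s (lb μ) = lb μ :=
  tau_one (by simp [lf, h])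

theorem tau_ld (s : Bool) {μ : M} (h : (μ, true) ∈ A.cells) :
    A.tau s (ld μ) = A.ell s (μ, true) * ld μ := by simp [ld, tau_of, lf, rg, h]

theorem tau_ld' (s : Bool) {μ : M} (h : (μ, true) ∉ A.cells) : A.tau s (ld μ) = ld μ :=
  tau_one (by simp [lf, h])

theorem tau_lz {μ : M} (h : (μ, false) ∈ A.cells) : A.tau true (lz μ) =
    (ld μ)⁻¹ * A.ell true (μ, false) * ld μ * lz μ * ((ld μ)⁻¹ * A.ell true (μ, false) * ld μ)⁻¹ := by
  simp [lz, tau_of, lf, rg, h]

theorem tau_lz' {s : Bool} {μ : M} (h : ¬ (s = true ∧ (μ, false) ∈ A.cells)) :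
    A.tau s (lz μ) = lz μ := tau_one (by simp only [lf, h]; simp)

theorem PL_slot {s : Bool} {x : M × Fin 4} (h : x ∈ A.PL s) : x.1 ∈ A.slots :=
  h.elim (fun h => ⟨_, h.1⟩) fun h => ⟨_, h.1⟩

theorem tau_stab {s : Bool} {S : Set (M × Fin 4)} (h : ∀ x ∈ S, A.lf s x = 1 ∨ A.PL s ⊆ S) :
    A.tau s ∈ Stab (Fre S) := by
  have key : ∀ x ∈ S, A.lf s x ∈ Fre S ∧ A.rg s x ∈ Fre S := fun x hx => by
    rcases h x hx with e | e
    · simp [rg, e]
    · exact ⟨Fre.mono e (A.lf_mem s x), Fre.mono e (A.rg_mem s x)⟩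
  refine mem_Stab (fun x hx => ?_) fun x hx => ?_
  · rw [tau_of]
    exact mul_mem (mul_mem (key x hx).1 (of_mem_Fre hx)) (key x hx).2
  · rw [tau, shr_inv]
    exact mul_mem (mul_mem (inv_mem (key x hx).1) (of_mem_Fre hx)) (inv_mem (key x hx).2)

theorem cases_tau (A : Rec M) (x : M × Fin 4) : A.tau true (of x) = of x ∨
    (∃ p ∈ A.cells, x = (p.1, if p.2 then 0 else 1) ∧ A.tau true (of x) = A.ell true p * of x) ∨
    ((x.1, false) ∈ A.cells ∧ x.2 = 3) := by
  by_cases h1 : x.2 = 1 ∧ (x.1, false) ∈ A.cells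
  · exact Or.inr (Or.inl ⟨_, h1.2, Prod.ext rfl h1.1, by simp [tau_of, lf, rg, h1]⟩)
  by_cases h2 : x.2 = 0 ∧ (x.1, true) ∈ A.cells
  · exact Or.inr (Or.inl ⟨_, h2.2, Prod.ext rfl h2.1, by simp [tau_of, lf, rg, h2]⟩)
  by_cases h3 : (x.1, false) ∈ A.cells ∧ x.2 = 3
  · exact Or.inr (Or.inr h3)
  · exact Or.inl (tau_one (by rw [lf, if_neg h1, if_neg h2, if_neg (by tauto)]))

theorem ins {φ : MulAut (FL M)} {p₀ : M × Bool} (h₀ : p₀ ∈ A.cells) {k k' : FL M}
    (h : ∀ q ∈ A.cells, q ≠ p₀ → φ (inl q) = inl q ∧ φ (out true q) = out true q)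
    (h1 : φ (inl p₀) = inl p₀ * k') (h2 : φ (out true p₀) = k * out true p₀) :
    φ (A.ell true p₀) = k * A.ell true p₀ * k' ∧ ∀ p ∈ A.cells, p ≠ p₀ →
      ∃ α ∈ Fre (A.PL true), A.ell true p = α⁻¹ * A.ell true p₀ * α ∧ φ α = k * α := by
  obtain ⟨l, l', e⟩ := List.append_of_mem h₀
  have nd := A.nodup
  rw [e] at nd
  have n1 : ∀ q ∈ l, q ≠ p₀ := fun q hq e' =>
    List.disjoint_of_nodup_append nd hq (e' ▸ List.mem_cons_self)
  have n2 : ∀ q ∈ l', q ≠ p₀ := fun q hq e' =>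
    (List.nodup_cons.1 (List.Nodup.of_append_right nd)).1 (e' ▸ hq)
  have fx : ∀ r : List (M × Bool), (∀ q ∈ r, q ∈ l ∨ q ∈ l') → φ (pth true r) = pth true r :=
    fun r hr => pth_mem (K := φ.toMonoidHom.eqLocus (MonoidHom.id _)) fun q hq =>
      h q (by rw [e]; rcases hr q hq with a | a <;> simp [a]) ((hr q hq).elim (n1 q) (n2 q))
  have mm : ∀ r : List (M × Bool), (∀ q ∈ r, q ∈ l ∨ q ∈ l') → pth true r ∈ Fre (A.PL true) :=
    fun r hr => pth_mem fun q hq => io_mem (by rw [e]; rcases hr q hq with a | a <;> simp [a])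
  refine ⟨by
    simp only [ell_eq true e, map_mul, h1, h2, fx l (by tauto), fx l' (by tauto), mul_assoc],
    fun p hp hp' => ?_⟩
  have : p ∈ l ∨ p ∈ l' := by rw [e] at hp; simpa [hp'] using hp
  rcases this with a | a
  · obtain ⟨r, r', rfl⟩ := List.append_of_mem a
    have hr : ∀ q ∈ r, q ∈ r ++ p :: r' ∨ q ∈ l' := fun q hq => by simp [hq]
    refine ⟨out true p₀ * pth true l' * pth true r * inl p, mul_mem (mul_mem (mul_mem
      (io_mem h₀).2 (mm _ (by tauto))) (mm _ hr)) (io_mem hp).1, ?_, ?_⟩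
    · rw [ell_eq true e, ell_eq true (l := r) (l' := r' ++ p₀ :: l') (by simp [e])]
      simp only [pth_append, pth_cons]; group
    · simp only [map_mul, h2, fx l' (by tauto), fx r hr, (h p hp hp').1, mul_assoc]
  · obtain ⟨r, r', rfl⟩ := List.append_of_mem a
    have hr : ∀ q ∈ r, q ∈ l ∨ q ∈ r ++ p :: r' := fun q hq => by simp [hq]
    refine ⟨out true p₀ * pth true r * inl p, mul_mem (mul_mem
      (io_mem h₀).2 (mm _ hr)) (io_mem hp).1, ?_, ?_⟩
    · rw [ell_eq true e, ell_eq true (l := l ++ p₀ :: r) (l' := r') (by simp [e])]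
      simp only [pth_append, pth_cons]; group
    · simp only [map_mul, h2, fx r hr, (h p hp hp').1, mul_assoc]

/-- No common crossing. -/
def Dis (A B : Rec M) : Prop := ∀ μ ∈ A.slots, μ ∉ B.slots

/-- Exactly one common crossing. -/
def One (A B : Rec M) (μ : M) : Prop :=
  (μ, false) ∈ A.cells ∧ (μ, true) ∈ B.cells ∧ ∀ ν ∈ A.slots, ν ∈ B.slots → ν = μ

theorem Dis.symm {A B : Rec M} (h : Dis A B) : Dis B A := fun μ a b => h μ b a

theorem Dis.fix {A B : Rec M} (h : Dis A B) (s s' : Bool) {w : FL M} (hw : w ∈ Fre (A.PL s)) :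
    B.tau s' w = w := Fre.fix _ (fun _ hx => tau_not (h _ (PL_slot hx))) hw

theorem Dis.commute {A B : Rec M} (h : Dis A B) (s s' : Bool) : Commute (A.tau s) (B.tau s') := by
  have key : ∀ {A B : Rec M} {s s' : Bool}, Dis A B → ∀ x : M × Fin 4, x.1 ∉ B.slots →
      A.tau s (B.tau s' (of x)) = B.tau s' (A.tau s (of x)) := fun {A B s s'} h x hx => by
    rw [tau_not hx, tau_of, map_mul, map_mul, tau_not hx, h.fix s s' (A.lf_mem s x),
      h.fix s s' (A.rg_mem s x)]
  refine autExt fun x => ?_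
  by_cases hx : x.1 ∈ B.slots
  · exact (key h.symm x (h.symm _ hx)).symm
  · exact key h x hx

theorem io_fix {B : Rec M} {q : M × Bool} (h : q.1 ∉ B.slots) :
    B.tau true (inl q) = inl q ∧ B.tau true (out true q) = out true q := by
  have : ∀ k, B.tau true (of (q.1, k)) = of (q.1, k) := fun k => tau_not h
  obtain ⟨μ, _ | _⟩ := q <;> simp [inl, out, ld, lb, lt, this]

theorem One.braid {A B : Rec M} {μ : M} (h : One A B μ) :
    A.tau true * B.tau true * A.tau true = B.tau true * A.tau true * B.tau true := by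
  obtain ⟨hA, hB, h⟩ := h
  have hB' : (μ, false) ∉ B.cells := fun e => B.not_both e hB
  have nA : ∀ q ∈ A.cells, q ≠ (μ, false) → q.1 ∉ B.slots := fun q hq e e' =>
    e (A.eq_of hq hA (h _ ⟨_, hq⟩ e'))
  have nB : ∀ q ∈ B.cells, q ≠ (μ, true) → q.1 ∉ A.slots := fun q hq e e' =>
    e (B.eq_of hq hB (h _ e' ⟨_, hq⟩))
  obtain ⟨b1, b2⟩ := ins (φ := B.tau true) (k' := 1) hA (fun q hq e => io_fix (nA q hq e))
    (by simp [inl]) (tau_ld true hB)
  obtain ⟨a1, a2⟩ := ins (φ := A.tau true) (k := 1) (k' := (A.ell true (μ, false))⁻¹) hB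
    (fun q hq e => io_fix (nB q hq e)) (by simp [inl, tau_lb true hA]) (by simpa [out] using tau_lt _ _)
  have a0 := tau_PL (ell_mem (s := true) hA)
  have b0 := tau_PL (ell_mem (s := true) hB)
  have ad := tau_ld' (A := A) true (A.not_both hA)
  have bd := tau_ld (A := B) true hB
  set a := A.tau true
  set b := B.tau true
  set l := A.ell true (μ, false)
  set m := B.ell true (μ, true)
  have kA : ∀ α, a α = α → b α = m * α → a (b (α⁻¹ * l * α)) * (α⁻¹ * l * α) = b (α⁻¹ * l * α) :=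
    fun α u v => by simp only [map_mul, map_inv, map_one, u, v, a0, a1, b1]; group
  have kB : ∀ α, a α = α → b α = α → b (a (α⁻¹ * m * α)) * (α⁻¹ * m * α) = a (α⁻¹ * m * α) :=
    fun α u v => by simp only [map_mul, map_inv, map_one, u, v, b0, a1, b1]; group
  have cA : ∀ p ∈ A.cells, ∃ α, A.ell true p = α⁻¹ * l * α ∧ a α = α ∧ b α = m * α := fun p hp => by
    by_cases e : p = (μ, false)
    · exact ⟨l, by rw [e, inv_mul_cancel, one_mul], a0, by simpa using b1⟩
    · obtain ⟨α, u, v, w⟩ := b2 p hp e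
      exact ⟨α, v, tau_PL u, w⟩
  have cB : ∀ p ∈ B.cells, ∃ α, B.ell true p = α⁻¹ * m * α ∧ a α = α ∧ b α = α := fun p hp => by
    by_cases e : p = (μ, true)
    · exact ⟨1, by rw [e, inv_one, one_mul, mul_one], map_one _, map_one _⟩
    · obtain ⟨α, u, v, w⟩ := a2 p hp e
      exact ⟨α, v, by simpa using w, tau_PL u⟩
  refine autExt fun x => ?_
  simp only [MulAut.mul_apply]
  rcases A.cases_tau x with e | ⟨p, hp, rfl, e⟩ | ⟨e, e'⟩
  · rcases B.cases_tau x with f | ⟨p, hp, -, f⟩ | ⟨f, f'⟩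
    · simp only [a, b, e, f]
    · obtain ⟨α, u, v, w⟩ := cB p hp
      rw [e, f, map_mul, e, map_mul, f, u, ← mul_assoc, kB α v w]
    · obtain ⟨ν, k⟩ := x
      obtain rfl : k = 3 := f'
      obtain ⟨α, u, v, w⟩ := cB _ f
      have := kB (α * ld ν) (by rw [map_mul, v]; exact congrArg _ (tau_not (nB _ f (by simp))))
        (by rw [map_mul, w, tau_ld' true (B.not_both f)])
      have g : b (of (ν, 3)) = _ := tau_lz f
      rw [u, show (ld ν)⁻¹ * (α⁻¹ * m * α) * ld ν = (α * ld ν)⁻¹ * m * (α * ld ν) by group] at g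
      generalize (α * ld ν)⁻¹ * m * (α * ld ν) = N at g this
      have e' : a (of (ν, 3)) = of (ν, 3) := e
      rw [lz] at g
      simp only [e', g, map_mul, map_inv]
      rw [eq_mul_inv_of_mul_eq this]; group
  · obtain ⟨α, u, v, w⟩ := cA p hp
    have f : b (of (p.1, if p.2 then 0 else 1)) = of (p.1, if p.2 then 0 else 1) := by
      by_cases e : p = (μ, false)
      · subst e; exact tau_lb' true hB'
      · exact tau_not (nA p hp e)
    rw [f, e, map_mul, f, map_mul, e, u, ← mul_assoc, kA α v w]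
  · obtain ⟨ν, k⟩ := x
    obtain rfl : k = 3 := e'
    obtain ⟨α, u, v, w⟩ : ∃ α, (ld ν)⁻¹ * A.ell true (ν, false) * ld ν = α⁻¹ * l * α ∧ a α = α ∧
        b α = m * α := by
      by_cases e' : ν = μ
      · subst e'; exact ⟨ld ν, rfl, ad, bd⟩
      · obtain ⟨α, u, v, w⟩ := cA _ e
        refine ⟨α * ld ν, by rw [u]; group, by rw [map_mul, v, tau_ld' true (A.not_both e)], ?_⟩
        rw [map_mul, w, mul_assoc]
        exact congrArg (fun y => m * (α * y)) (tau_not (nA _ e (by simpa using e')))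
    have f : b (of (ν, 3)) = of (ν, 3) := tau_lz' fun f => hB' (h ν ⟨_, e⟩ ⟨_, f.2⟩ ▸ f.2)
    have := kA α v w
    have g : a (of (ν, 3)) = _ := tau_lz e
    rw [u] at g
    generalize α⁻¹ * l * α = N at g this
    rw [lz] at g
    simp only [f, g, map_mul, map_inv]
    rw [eq_mul_inv_of_mul_eq this]; group

end Rec

/-- The relations among twists. -/
def Sat {G : Type} [Group G] (C : Set (Rec M)) (T : Rec M × Bool → G) : Prop :=
  ∀ A ∈ C, ∀ B ∈ C, (A.Dis B → ∀ s s', Commute (T (A, s)) (T (B, s'))) ∧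
    ∀ μ, A.One B μ → T (A, true) * T (B, true) * T (A, true) = T (B, true) * T (A, true) * T (B, true)

noncomputable def tauF : FreeGroup (Rec M × Bool) →* MulAut (FL M) :=
  FreeGroup.lift fun x => x.1.tau x.2

theorem sat_tau (C : Set (Rec M)) : Sat C fun x => x.1.tau x.2 :=
  fun _ _ _ _ => ⟨fun h => h.commute, fun _ h => h.braid⟩

end Pool.Agent.MP_6eaae3_al

end MrgPart0

-- ======== part 1: formerly Pool.Agent.MP_6eaae3_al.Cl.Hur
section MrgPart1

-- ======== part 0: formerly Pool.Agent.MP_6eaae3_al.Cl.Gam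
section MrgPart0

/-! The free product of copies of the group of order two, reduced words and half twists. -/

namespace Pool.Agent.MP_6eaae3_al.Cl

open Subgroup Set

/-- The free product of countably many groups of order two. -/
def Gm : Type := PresentedGroup (range fun i : ℕ => FreeGroup.of i * FreeGroup.of i)

instance : Group Gm := inferInstanceAs (Group (PresentedGroup _))

def xx (i : ℕ) : Gm := PresentedGroup.of i

@[simp] theorem xx_mul_self (i : ℕ) : xx i * xx i = 1 :=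
  PresentedGroup.one_of_mem (rels := range fun i : ℕ => FreeGroup.of i * FreeGroup.of i) ⟨i, rfl⟩
@[simp] theorem xx_inv (i : ℕ) : (xx i)⁻¹ = xx i := inv_eq_of_mul_eq_one_right (xx_mul_self i)
@[simp] theorem xx_xx (i : ℕ) (g : Gm) : xx i * (xx i * g) = g := by
  rw [← mul_assoc, xx_mul_self, one_mul]

variable {H : Type*} [Group H]

def lft (f : ℕ → H) (h : ∀ i, f i * f i = 1) : Gm →* H :=
  PresentedGroup.toGroup (f := f) (by rintro _ ⟨i, rfl⟩; simpa using h i)

@[simp] theorem lft_xx (f : ℕ → H) (h) (i : ℕ) : lft f h (xx i) = f i := PresentedGroup.toGroup.of _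

theorem hom_ext {φ φ' : Gm →* H} (h : ∀ i, φ (xx i) = φ' (xx i)) : φ = φ' := PresentedGroup.ext h

theorem gen (K : Subgroup Gm) (h : ∀ i, xx i ∈ K) (g : Gm) : g ∈ K :=
  PresentedGroup.generated_by _ K h g

attribute [irreducible] Gm xx lft

theorem autx {φ φ' : MulAut Gm} (h : ∀ i, φ (xx i) = φ' (xx i)) : φ = φ' := by
  have : φ.toMonoidHom = φ'.toMonoidHom := hom_ext h
  ext w; exact DFunLike.congr_fun this w

def ev (l : List ℕ) : Gm := (l.map xx).prod

@[simp] theorem ev_nil : ev [] = 1 := rfl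
@[simp] theorem ev_cons (i : ℕ) (l : List ℕ) : ev (i :: l) = xx i * ev l := by simp [ev]
@[simp] theorem ev_append (l l' : List ℕ) : ev (l ++ l') = ev l * ev l' := by simp [ev]
@[simp] theorem ev_reverse (l : List ℕ) : ev l.reverse = (ev l)⁻¹ := by
  induction l with
  | nil => simp
  | cons i l ih => simp [ih]

theorem exists_ev (g : Gm) : ∃ l, ev l = g := by
  have : g ∈ closure (range xx) := gen _ (fun j => Subgroup.subset_closure (mem_range_self j)) g
  induction this using closure_induction with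
  | mem x hx => obtain ⟨i, rfl⟩ := hx; exact ⟨[i], by simp⟩
  | one => exact ⟨[], rfl⟩
  | mul x y _ _ a b => obtain ⟨l, rfl⟩ := a; obtain ⟨l', rfl⟩ := b; exact ⟨l ++ l', by simp⟩
  | inv x _ a => obtain ⟨l, rfl⟩ := a; exact ⟨l.reverse, by simp⟩

/-- Reduced words. -/
abbrev Rd (l : List ℕ) : Prop := l.IsChain (· ≠ ·)

theorem rd_cons {i : ℕ} {l : List ℕ} : Rd (i :: l) ↔ l.head? ≠ some i ∧ Rd l := by
  rw [Rd, List.isChain_cons]
  cases l <;> simp [eq_comm]

theorem Rd.rev {l : List ℕ} (h : Rd l) : Rd l.reverse :=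
  List.isChain_reverse.2 (h.imp fun _ _ e => e.symm)

def cs (i : ℕ) (l : List ℕ) : List ℕ := if l.head? = some i then l.tail else i :: l

theorem cs_rd {i : ℕ} {l : List ℕ} (h : Rd l) : Rd (cs i l) := by
  unfold cs; split_ifs with e
  exacts [h.tail, rd_cons.2 ⟨e, h⟩]

theorem cs_cs {i : ℕ} {l : List ℕ} (h : Rd l) : cs i (cs i l) = l := by
  by_cases e : l.head? = some i
  · obtain ⟨l', rfl⟩ : ∃ l', l = i :: l' := by cases l <;> simp_all
    simp [cs, (rd_cons.1 h).1]
  · simp [cs, e]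

theorem ev_cs (i : ℕ) (l : List ℕ) : ev (cs i l) = xx i * ev l := by
  unfold cs; split_ifs with e
  · obtain ⟨l', rfl⟩ : ∃ l', l = i :: l' := by cases l <;> simp_all
    simp
  · simp

def act : Gm →* Equiv.Perm {l // Rd l} :=
  lft (fun i => Function.Involutive.toPerm (fun l => ⟨cs i l.1, cs_rd l.2⟩) fun l =>
    Subtype.ext (cs_cs l.2)) fun _ => Equiv.ext fun l => Subtype.ext (cs_cs l.2)

/-- The reduced word of an element. -/
def wd (g : Gm) : List ℕ := (act g ⟨[], List.IsChain.nil⟩).1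

theorem rd_wd (g : Gm) : Rd (wd g) := (act g _).2

@[simp] theorem wd_one : wd 1 = [] := by simp [wd]

theorem wd_xx_mul (i : ℕ) (g : Gm) : wd (xx i * g) = cs i (wd g) := by
  simp [wd, act]

theorem wd_ev {l : List ℕ} (h : Rd l) : wd (ev l) = l := by
  induction l with
  | nil => simp
  | cons i l ih => rw [ev_cons, wd_xx_mul, ih h.tail, cs, if_neg (rd_cons.1 h).1]

@[simp] theorem ev_wd (g : Gm) : ev (wd g) = g := by
  obtain ⟨l, rfl⟩ := exists_ev g
  induction l with
  | nil => simp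
  | cons i l ih => rw [ev_cons, wd_xx_mul, ev_cs, ih]

theorem wd_sub (l : List ℕ) : (wd (ev l)).Sublist l := by
  induction l with
  | nil => simp
  | cons i l ih =>
    rw [ev_cons, wd_xx_mul, cs]
    split_ifs
    exacts [((List.tail_sublist _).trans ih).cons _, ih.cons_cons _]

theorem wd_eq_nil {g : Gm} : wd g = [] ↔ g = 1 :=
  ⟨fun h => by rw [← ev_wd g, h, ev_nil], fun h => h ▸ wd_one⟩

theorem wd_cons {i : ℕ} {g : Gm} (h : (wd g).head? ≠ some i) : wd (xx i * g) = i :: wd g := by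
  rw [wd_xx_mul, cs, if_neg h]

/-- The free factor on a set of letters. -/
def GS (S : Set ℕ) : Subgroup Gm := closure (xx '' S)

theorem xx_mem {S : Set ℕ} {i : ℕ} (h : i ∈ S) : xx i ∈ GS S := subset_closure ⟨i, h, rfl⟩

theorem ev_mem {S : Set ℕ} {l : List ℕ} (h : ∀ i ∈ l, i ∈ S) : ev l ∈ GS S :=
  list_prod_mem (by simpa using fun i a => xx_mem (h i a))

theorem mem_GS {S : Set ℕ} {g : Gm} : g ∈ GS S ↔ ∀ i ∈ wd g, i ∈ S := by
  refine ⟨fun h => ?_, fun h => ev_wd g ▸ ev_mem h⟩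
  have : ∃ l, (∀ i ∈ l, i ∈ S) ∧ ev l = g := by
    induction h using closure_induction with
    | mem x hx => obtain ⟨i, a, rfl⟩ := hx; exact ⟨[i], by simpa, by simp⟩
    | one => exact ⟨[], by simp, rfl⟩
    | mul x y _ _ a b =>
      obtain ⟨l, a, rfl⟩ := a; obtain ⟨l', b, rfl⟩ := b
      exact ⟨l ++ l', fun i h => (List.mem_append.1 h).elim (a i) (b i), by simp⟩
    | inv x _ a => obtain ⟨l, a, rfl⟩ := a; exact ⟨l.reverse, by simpa, by simp⟩
  obtain ⟨l, a, rfl⟩ := this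
  exact fun i b => a i ((wd_sub l).subset b)

theorem GS.map {S : Set ℕ} {F : Type*} [FunLike F Gm H] [MonoidHomClass F Gm H] (φ : F)
    {K : Subgroup H} (h : ∀ i ∈ S, φ (xx i) ∈ K) {g : Gm} (hg : g ∈ GS S) : φ g ∈ K := by
  induction hg using closure_induction with
  | mem x hx => obtain ⟨x, hx, rfl⟩ := hx; exact h x hx
  | one => simp
  | mul x y _ _ a b => rw [map_mul]; exact mul_mem a b
  | inv x _ a => rw [map_inv]; exact inv_mem a

theorem GS.eq {S : Set ℕ} {F F' : Type*} [FunLike F Gm H] [MonoidHomClass F Gm H]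
    [FunLike F' Gm H] [MonoidHomClass F' Gm H] (φ : F) (φ' : F')
    (h : ∀ i ∈ S, φ (xx i) = φ' (xx i)) {g : Gm} (hg : g ∈ GS S) : φ g = φ' g := by
  induction hg using closure_induction with
  | mem x hx => obtain ⟨x, hx, rfl⟩ := hx; exact h x hx
  | one => simp
  | mul x y _ _ a b => rw [map_mul, map_mul, a, b]
  | inv x _ a => rw [map_inv, map_inv, a]

theorem GS.mono {S S' : Set ℕ} (h : S ⊆ S') : GS S ≤ GS S' := closure_mono (image_mono h)

open Classical in
/-- Projection to a free factor. -/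
noncomputable def pj (S : Set ℕ) : Gm →* Gm :=
  lft (fun i => if i ∈ S then xx i else 1) fun i => by split_ifs <;> simp

theorem pj_in {S : Set ℕ} {i : ℕ} (h : i ∈ S) : pj S (xx i) = xx i := by simp [pj, h]
theorem pj_out {S : Set ℕ} {i : ℕ} (h : i ∉ S) : pj S (xx i) = 1 := by simp [pj, h]
theorem pj_fix {S : Set ℕ} {g : Gm} (h : g ∈ GS S) : pj S g = g :=
  GS.eq (pj S) (MonoidHom.id _) (fun _ => pj_in) h

/-- Reflections of type `j`. -/
def Rf (y : Gm) (j : ℕ) : Prop := ∃ A, y = A * xx j * A⁻¹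

theorem rf_xx (j : ℕ) : Rf (xx j) j := ⟨1, by simp⟩

theorem Rf.conj {y : Gm} {j : ℕ} (h : Rf y j) (c : Gm) : Rf (c * y * c⁻¹) j := by
  obtain ⟨A, rfl⟩ := h
  exact ⟨c * A, by group⟩

theorem Rf.map {F : Type*} [FunLike F Gm Gm] [MonoidHomClass F Gm Gm] (φ : F) {y : Gm} {j k : ℕ}
    (h : Rf y j) (h' : Rf (φ (xx j)) k) : Rf (φ y) k := by
  obtain ⟨A, rfl⟩ := h
  rw [map_mul, map_mul, map_inv]
  exact h'.conj _

theorem Rf.sq {y : Gm} {j : ℕ} (h : Rf y j) : y * y = 1 := by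
  obtain ⟨A, rfl⟩ := h
  simp [mul_assoc]

theorem Rf.inv {y : Gm} {j : ℕ} (h : Rf y j) : y⁻¹ = y := inv_eq_of_mul_eq_one_right h.sq

theorem Rf.mem {y : Gm} {j : ℕ} {S : Set ℕ} (h : Rf y j) (hy : y ∈ GS S) : j ∈ S := by
  by_contra n
  let ε : Gm →* ℤˣ := lft (fun i => if i = j then -1 else 1) fun i => by split_ifs <;> simp
  have := GS.map ε (K := ⊥) (fun i hi => by
    have : i ≠ j := fun e => n (e ▸ hi)
    simp [ε, this]) hy
  obtain ⟨A, rfl⟩ := h
  simp [ε, mul_comm] at this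

theorem Rf.eq {y : Gm} {j k : ℕ} (h : Rf y j) (h' : Rf y k) : j = k := by
  obtain ⟨A, rfl⟩ := h'
  have := h.conj A⁻¹
  rw [show A⁻¹ * (A * xx k * A⁻¹) * A⁻¹⁻¹ = xx k by group] at this
  exact this.mem (S := {k}) (xx_mem rfl)

/-- Normal form of a reflection. -/
def Nf (y : Gm) (A : List ℕ) (j : ℕ) : Prop := Rd (A ++ [j]) ∧ y = ev A * xx j * (ev A)⁻¹

theorem Rf.nf {y : Gm} {j : ℕ} (h : Rf y j) : ∃ A, Nf y A j := by
  obtain ⟨A, rfl⟩ := h
  have r := rd_wd A⁻¹
  by_cases e : (wd A⁻¹).head? = some j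
  · obtain ⟨l, hl⟩ : ∃ l, wd A⁻¹ = j :: l := by revert e; cases wd A⁻¹ <;> simp_all
    refine ⟨l.reverse, by simpa [hl] using Rd.rev r, ?_⟩
    have : A = (ev l)⁻¹ * xx j := by rw [← inv_inj, ← ev_wd A⁻¹, hl]; simp
    simp [this, mul_assoc]
  · exact ⟨(wd A⁻¹).reverse, by simpa using Rd.rev (rd_cons.2 ⟨e, r⟩), by simp⟩

theorem Nf.rf {y : Gm} {A : List ℕ} {j : ℕ} (h : Nf y A j) : Rf y j := ⟨_, h.2⟩

theorem common (A u : List ℕ) : ∃ B A' v, A = B ++ A' ∧ u = B ++ v ∧ ∀ i ∈ A'.head?, v.head? ≠ some i := by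
  induction A generalizing u with
  | nil => exact ⟨[], [], u, rfl, rfl, by simp⟩
  | cons a A ih =>
    by_cases e : u.head? = some a
    · obtain ⟨u', rfl⟩ : ∃ l', u = a :: l' := by cases u <;> simp_all
      obtain ⟨B, A', v, h1, h2, h3⟩ := ih u'
      exact ⟨a :: B, A', v, by simp [h1], by simp [h2], h3⟩
    · exact ⟨[], a :: A, u, rfl, rfl, by simpa using e⟩

theorem Nf.step {y u : Gm} {A : List ℕ} {j : ℕ} (h : Nf y A j) (n : ¬ A ++ [j] <+: wd u) :
    ∃ B A' v, A = B ++ A' ∧ wd u = B ++ v ∧ wd (y * u) = A ++ j :: (A'.reverse ++ v) := by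
  obtain ⟨B, A', v, h1, h2, h3⟩ := common A (wd u)
  refine ⟨B, A', v, h1, h2, ?_⟩
  have rv : Rd v := (h2 ▸ rd_wd u).right_of_append
  have rA : Rd (A' ++ [j]) := by
    have := h.1
    rw [h1, List.append_assoc] at this
    exact this.right_of_append
  have r : Rd (j :: A'.reverse ++ v) := by
    refine List.IsChain.append (by simpa using Rd.rev rA) rv fun a ha b hb e => ?_
    cases A' with
    | nil =>
      obtain ⟨v', rfl⟩ : ∃ l', v = j :: l' := by cases v <;> simp_all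
      exact n ⟨v', by simp [h1, h2]⟩
    | cons c A' =>
      have : a = c := by simpa [List.getLast?_cons, eq_comm] using ha
      exact h3 c rfl (by rw [← this, e]; exact hb)
  have := List.IsChain.append_overlap (l₁ := A) (l₂ := [j]) (l₃ := A'.reverse ++ v) h.1 r (by simp)
  rw [← wd_ev (l := A ++ j :: (A'.reverse ++ v)) (by simpa using this), h.2, ← ev_wd u, h2, h1]
  simp [mul_assoc]

theorem Nf.wd {y : Gm} {A : List ℕ} {j : ℕ} (h : Nf y A j) : wd y = A ++ j :: A.reverse := by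
  obtain ⟨B, A', v, h1, h2, h3⟩ := h.step (u := 1) (by simp)
  obtain ⟨rfl, rfl⟩ : B = [] ∧ v = [] := by simpa using h2.symm
  simpa [h1] using h3

theorem Nf.short {y y' : Gm} {A A' : List ℕ} {j j' : ℕ} (h : Nf y A j) (h' : Nf y' A' j')
    (p : A ++ [j] <+: A') : (Cl.wd (y * y' * y)).length < (Cl.wd y').length := by
  obtain ⟨r, rfl⟩ := p
  have : y * y' * y = ev (A ++ r ++ j' :: (A ++ r).reverse) := by
    rw [h.2, h'.2]; simp [mul_assoc]
  rw [this, h'.wd]
  refine (wd_sub _).length_le.trans_lt ?_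
  simp

theorem cent {c : Gm} {j : ℕ} (h : c * xx j * c⁻¹ = xx j) : c = 1 ∨ c = xx j := by
  by_cases e : (wd c⁻¹).head? = some j
  · obtain ⟨l, hl⟩ : ∃ l, wd c⁻¹ = j :: l := by revert e; cases wd c⁻¹ <;> simp_all
    have r := rd_wd c⁻¹
    have hc : c = (ev l)⁻¹ * xx j := by rw [← inv_inj, ← ev_wd c⁻¹, hl]; simp
    have n : Nf (xx j) l.reverse j := ⟨by simpa [hl] using Rd.rev r, by
      rw [hc] at h; simpa [mul_assoc] using h.symm⟩
    have := congrArg List.length (n.wd.symm.trans (Nf.wd (A := []) (j := j) ⟨by simp, by simp⟩))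
    obtain rfl : l = [] := List.length_eq_zero_iff.1 (by simp at this; omega)
    exact Or.inr (by simpa using hc)
  · have n : Nf (xx j) (wd c⁻¹).reverse j := ⟨by simpa using Rd.rev (rd_cons.2 ⟨e, rd_wd _⟩), by
      simpa using h.symm⟩
    have := congrArg List.length (n.wd.symm.trans (Nf.wd (A := []) (j := j) ⟨by simp, by simp⟩))
    exact Or.inl (inv_eq_one.1 (wd_eq_nil.1 (List.length_eq_zero_iff.1 (by simp at this; omega))))

/-- The half twist. -/
def sg (i : ℕ) : MulAut Gm :=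
  MonoidHom.toMulEquiv
    (lft (fun j => if j = i then xx (i + 1) else if j = i + 1 then xx (i + 1) * xx i * xx (i + 1)
      else xx j) fun j => by split_ifs <;> simp [mul_assoc])
    (lft (fun j => if j = i then xx i * xx (i + 1) * xx i else if j = i + 1 then xx i else xx j)
      fun j => by split_ifs <;> simp [mul_assoc])
    (hom_ext fun j => by
      by_cases h1 : j = i
      · simp [h1]
      by_cases h2 : j = i + 1 <;> simp [h1, h2, mul_assoc])
    (hom_ext fun j => by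
      by_cases h1 : j = i
      · simp [h1, mul_assoc]
      by_cases h2 : j = i + 1 <;> simp [h1, h2])

theorem sg_xx (i j : ℕ) : sg i (xx j) =
    if j = i then xx (i + 1) else if j = i + 1 then xx (i + 1) * xx i * xx (i + 1) else xx j := by
  simp only [sg, MonoidHom.toMulEquiv_apply, lft_xx]

theorem sg_inv_xx (i j : ℕ) : (sg i)⁻¹ (xx j) =
    if j = i then xx i * xx (i + 1) * xx i else if j = i + 1 then xx i else xx j := by
  simp only [sg, MulAut.inv_def, MonoidHom.toMulEquiv_symm_apply, lft_xx]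

theorem braidRel_sg (a b : ℕ) : BraidRel sg a b := by
  constructor
  · intro i _ _
    refine autx fun j => ?_
    simp only [MulAut.mul_apply]
    have e1 : i + 1 + 1 ≠ i := by omega
    by_cases h1 : j = i
    · subst h1; simp [sg_xx, e1, e1.symm]
    by_cases h2 : j = i + 1
    · subst h2; simp [sg_xx, mul_assoc, e1, e1.symm]
    by_cases h3 : j = i + 1 + 1
    · subst h3; simp [sg_xx, mul_assoc, e1, e1.symm]
    · simp [sg_xx, h1, h2, h3]
  · intro i j _ h _
    refine autx fun k => ?_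
    simp only [MulAut.mul_apply]
    have e1 : i ≠ j := by omega
    have e2 : i ≠ j + 1 := by omega
    have e3 : i + 1 ≠ j := by omega
    by_cases h1 : k = i
    · subst h1; simp [sg_xx, e1, e2, e3]
    by_cases h2 : k = i + 1
    · subst h2; simp [sg_xx, e1, e2, e3]
    by_cases h3 : k = j
    · subst h3; simp [sg_xx, e1.symm, e2.symm, e3.symm]
    by_cases h4 : k = j + 1
    · subst h4; simp [sg_xx, e1.symm, e2.symm, e3.symm]
    · simp [sg_xx, h1, h2, h3, h4]

/-- The product of the letters from `b - 1` down to `a`. -/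
def Cw (a : ℕ) : ℕ → Gm
  | 0 => 1
  | b + 1 => if a ≤ b then xx b * Cw a b else 1

theorem Cw_le {a b : ℕ} (h : b ≤ a) : Cw a b = 1 := by
  cases b with
  | zero => rfl
  | succ b => exact if_neg (by omega)

theorem Cw_succ {a b : ℕ} (h : a ≤ b) : Cw a (b + 1) = xx b * Cw a b := if_pos h

theorem Cw_mem (a b : ℕ) : Cw a b ∈ GS (Ico a b) := by
  induction b with
  | zero => exact one_mem _
  | succ b ih =>
    unfold Cw; split_ifs with h
    exacts [mul_mem (xx_mem ⟨h, by omega⟩) (GS.mono (Ico_subset_Ico_right (by omega)) ih), one_mem _]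

theorem Cw_mul {a b c : ℕ} (h : a ≤ b) (h' : b ≤ c) : Cw b c * Cw a b = Cw a c := by
  induction c, h' using Nat.le_induction with
  | base => simp [Cw_le]
  | succ c h' ih => rw [Cw_succ h', Cw_succ (h.trans h'), mul_assoc, ih]

theorem sg_fix {i : ℕ} {S : Set ℕ} (h : i ∉ S) (h' : i + 1 ∉ S) {g : Gm} (hg : g ∈ GS S) :
    sg i g = g :=
  GS.eq (sg i) (MonoidHom.id _) (fun j hj => by
    have : j ≠ i := fun e => h (e ▸ hj)
    have : j ≠ i + 1 := fun e => h' (e ▸ hj)
    simp [sg_xx, *]) hg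

theorem sg_Cw {a b i : ℕ} (h : i + 1 ≠ a) (h' : i + 1 ≠ b) : sg i (Cw a b) = Cw a b := by
  by_cases e : a ≤ i ∧ i + 1 < b
  · rw [← Cw_mul (b := i + 2) (by omega) e.2, Cw_succ (by omega), Cw_succ e.1, map_mul, map_mul,
      map_mul, sg_fix (by simp) (by simp) (Cw_mem _ _), sg_fix (by simp) (by simp) (Cw_mem _ _)]
    simp [sg_xx, mul_assoc]
  · exact sg_fix (by simp; omega) (by simp; omega) (Cw_mem _ _)

theorem sg_Cw' {a i : ℕ} (h : a ≤ i) :
    sg i (Cw a (i + 1)) = Cw a (i + 2) * (Cw a i)⁻¹ * Cw a (i + 1) := by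
  rw [Cw_succ (by omega : a ≤ i + 1), Cw_succ h, map_mul, sg_fix (by simp) (by simp) (Cw_mem _ _)]
  simp [sg_xx, mul_assoc]

end Pool.Agent.MP_6eaae3_al.Cl

end MrgPart0

-- ======== part 1: formerly Pool.Agent.MP_6eaae3_al.Cl.Hur
section MrgPart1

/-! Hurwitz moves on tuples of reflections. -/

namespace Pool.Agent.MP_6eaae3_al.Cl

open Subgroup Set

variable {H : Type*} [Group H]

/-- The braids on the points from `a` to `b - 1`. -/
def Bk (a b : ℕ) : Subgroup (MulAut Gm) := closure (sg '' {i | a ≤ i ∧ i + 1 < b})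

theorem sg_mem {a b i : ℕ} (h : a ≤ i) (h' : i + 1 < b) : sg i ∈ Bk a b :=
  subset_closure ⟨i, ⟨h, h'⟩, rfl⟩

theorem Bk.ind {a b : ℕ} {K : Subgroup (MulAut Gm)} (h : ∀ i, a ≤ i → i + 1 < b → sg i ∈ K) :
    Bk a b ≤ K := (closure_le _).2 (by rintro _ ⟨i, hi, rfl⟩; exact h i hi.1 hi.2)

theorem Bk.mono {a b a' b' : ℕ} (h : a' ≤ a) (h' : b ≤ b') : Bk a b ≤ Bk a' b' :=
  Bk.ind fun _ u v => sg_mem (h.trans u) (v.trans_le h')

theorem Bk.fix {a b : ℕ} {q} (hq : q ∈ Bk a b) {y : Gm} (h : ∀ i, a ≤ i → i + 1 < b → sg i y = y) :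
    q y = y := Bk.ind (K := MulAction.stabilizer _ y) h hq

theorem Bk.fix_xx {a b j : ℕ} {q} (hq : q ∈ Bk a b) (h : j < a ∨ b ≤ j) : q (xx j) = xx j :=
  Bk.fix hq fun i u v => by rw [sg_xx, if_neg (by omega), if_neg (by omega)]

theorem Bk.fix_Cw {a b c d : ℕ} {q} (hq : q ∈ Bk a b) (h : c ≤ a ∨ b ≤ c) (h' : d ≤ a ∨ b ≤ d) :
    q (Cw c d) = Cw c d := Bk.fix hq fun _ _ _ => sg_Cw (by omega) (by omega)

theorem Bk.perm {a b : ℕ} {q} (hq : q ∈ Bk a b) :
    ∃ π : Equiv.Perm ℕ, (∀ j, Rf (q (xx j)) (π j)) ∧ ∀ j, π j ∈ Ico a b ↔ j ∈ Ico a b := by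
  induction hq using closure_induction with
  | mem x hx =>
    obtain ⟨i, hi, rfl⟩ := hx
    refine ⟨Equiv.swap i (i + 1), fun j => ?_, fun j => ?_⟩
    · rw [sg_xx, Equiv.swap_apply_def]
      split_ifs
      exacts [rf_xx _, ⟨xx (i + 1), by simp⟩, rf_xx _]
    · have := hi.1; have := hi.2
      rw [Equiv.swap_apply_def]; split_ifs <;> simp only [mem_Ico] <;> omega
  | one => exact ⟨1, rf_xx, fun _ => Iff.rfl⟩
  | mul x y _ _ u v =>
    obtain ⟨π, u, u'⟩ := u; obtain ⟨π', v, v'⟩ := v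
    exact ⟨π * π', fun j => (v j).map x (u _), fun j => (u' _).trans (v' j)⟩
  | inv x _ u =>
    obtain ⟨π, u, u'⟩ := u
    refine ⟨π⁻¹, fun j => ?_, fun j => by rw [← u']; simp⟩
    obtain ⟨A, e⟩ := u (π⁻¹ j)
    refine ⟨(x⁻¹ A)⁻¹, ?_⟩
    rw [show π (π⁻¹ j) = j by simp] at e
    have : xx (π⁻¹ j) = x⁻¹ A * x⁻¹ (xx j) * (x⁻¹ A)⁻¹ := by
      rw [← map_inv, ← map_mul, ← map_mul, ← e, MulAut.inv_apply_self]
    rw [this]; group

theorem Bk.map_GS {a b : ℕ} {q} (hq : q ∈ Bk a b) {S : Set ℕ} (h : Ico a b ⊆ S) {y} (hy : y ∈ GS S) :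
    q y ∈ GS S := by
  induction hq using closure_induction_left generalizing y with
  | one => exact hy
  | mul_left x hx z _ ih =>
    obtain ⟨i, hi, rfl⟩ := hx
    have u := xx_mem (h (a := i) ⟨hi.1, by have := hi.2; omega⟩)
    have v := xx_mem (h (a := i + 1) ⟨by have := hi.1; omega, hi.2⟩)
    refine GS.map (sg i) (fun j hj => ?_) (ih hy)
    rw [sg_xx]; split_ifs
    exacts [v, mul_mem (mul_mem v u) v, xx_mem hj]
  | inv_mul_cancel x hx z _ ih =>
    obtain ⟨i, hi, rfl⟩ := hx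
    have u := xx_mem (h (a := i) ⟨hi.1, by have := hi.2; omega⟩)
    have v := xx_mem (h (a := i + 1) ⟨by have := hi.1; omega, hi.2⟩)
    refine GS.map (sg i)⁻¹ (fun j hj => ?_) (ih hy)
    rw [sg_inv_xx]; split_ifs
    exacts [mul_mem (mul_mem u v) u, u, xx_mem hj]

theorem sum_two {s : Finset ℕ} {f f' : ℕ → ℕ} {i : ℕ} (h : i ∈ s) (h' : i + 1 ∈ s)
    (e : ∀ k, k ≠ i → k ≠ i + 1 → f' k = f k) (le : ∑ k ∈ s, f k ≤ ∑ k ∈ s, f' k) :
    f i + f (i + 1) ≤ f' i + f' (i + 1) := by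
  have m : i + 1 ∈ s.erase i := by simp [h']
  have : ∑ k ∈ (s.erase i).erase (i + 1), f' k = ∑ k ∈ (s.erase i).erase (i + 1), f k :=
    Finset.sum_congr rfl fun k hk => by
      simp only [Finset.mem_erase] at hk; exact e k hk.2.1 hk.1
  rw [← Finset.add_sum_erase _ f h, ← Finset.add_sum_erase _ f m, ← Finset.add_sum_erase _ f' h,
    ← Finset.add_sum_erase _ f' m, this] at le
  omega

theorem exists_loc (h : Gm →* H) (a b : ℕ) (F : ℕ → H → ℕ) : ∃ q ∈ Bk a b, ∀ i, a ≤ i → i + 1 < b →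
    ∀ y y', y = h (q (xx i)) → y' = h (q (xx (i + 1))) →
      F i y + F (i + 1) y' ≤ F i y' + F (i + 1) (y' * y * y') ∧
      F i y + F (i + 1) y' ≤ F i (y * y' * y) + F (i + 1) y := by
  let μ : MulAut Gm → ℕ := fun q => ∑ k ∈ Finset.Ico a b, F k (h (q (xx k)))
  obtain ⟨q, hq, mn⟩ := (measure μ).wf.has_min (Bk a b) ⟨1, one_mem _⟩
  refine ⟨q, hq, fun i u v y y' e e' => ⟨?_, ?_⟩⟩
  · have := sum_two (i := i) (by simp; omega) (by simp; omega) (fun k s t => by simp [sg_xx, s, t])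
      (not_lt.1 (mn _ (mul_mem hq (sg_mem u v))))
    simpa [sg_xx, e, e'] using this
  · have := sum_two (i := i) (by simp; omega) (by simp; omega)
      (fun k s t => by rw [MulAut.mul_apply, sg_inv_xx, if_neg s, if_neg t])
      (not_lt.1 (mn _ (mul_mem hq (inv_mem (sg_mem u v)))))
    simp only [MulAut.mul_apply, sg_inv_xx] at this
    simpa [e, e'] using this

theorem sort (h : Gm →* H) {a b : ℕ} (ab : a ≤ b) (P : H → Prop)
    (hP : ∀ y c, P (c * y * c⁻¹) → P y) :
    ∃ q ∈ Bk a b, ∃ c, a ≤ c ∧ c ≤ b ∧ ∀ i, a ≤ i → i < b → (P (h (q (xx i))) ↔ i < c) := by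
  classical
  obtain ⟨q, hq, loc⟩ := exists_loc h a b fun k y => if P y then k else 0
  have st : ∀ i, a ≤ i → i + 1 < b → P (h (q (xx (i + 1)))) → P (h (q (xx i))) := fun i u v p => by
    by_contra n
    have := (loc i u v _ _ rfl rfl).1
    rw [if_neg n, if_pos p, if_pos p, if_neg fun e => n (hP _ (h (q (xx (i + 1)))) (by
      rwa [← map_inv h, ← map_inv q, xx_inv]))] at this
    omega
  have ex : ∃ c, a ≤ c ∧ (b ≤ c ∨ ¬ P (h (q (xx c)))) := ⟨b, ab, Or.inl le_rfl⟩
  refine ⟨q, hq, Nat.find ex, (Nat.find_spec ex).1, Nat.find_min' ex ⟨ab, Or.inl le_rfl⟩,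
    fun i u v => ⟨fun p => ?_, fun p => by simpa [u, v] using Nat.find_min ex p⟩⟩
  by_contra! n
  obtain ⟨c1, c2⟩ := Nat.find_spec ex
  generalize Nat.find ex = c at n c1 c2
  induction i, n using Nat.le_induction with
  | base => exact c2.elim (by omega) fun e => e p
  | succ i n ih => exact ih (by omega) (by omega) (st i (by omega) v p)

/-- The images of the letters of a block are reflections of distinct types. -/
def Ty (h : Gm →* Gm) (a b : ℕ) : Prop :=
  ∃ τ : ℕ → ℕ, InjOn τ (Ico a b) ∧ ∀ i ∈ Ico a b, Rf (h (xx i)) (τ i)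

theorem Ty.comp {h : Gm →* Gm} {a b c d : ℕ} (t : Ty h a b) {q} (hq : q ∈ Bk c d) (ac : a ≤ c)
    (db : d ≤ b) : Ty (h.comp q.toMonoidHom) a b := by
  obtain ⟨τ, u, v⟩ := t
  obtain ⟨π, p, p'⟩ := Bk.perm (Bk.mono ac db hq)
  exact ⟨τ ∘ π, u.comp π.injective.injOn fun j => (p' j).2, fun i hi =>
    (p i).map h (v _ ((p' i).2 hi))⟩

theorem Ty.mono {h : Gm →* Gm} {a b c d : ℕ} (t : Ty h a b) (ac : a ≤ c) (db : d ≤ b) : Ty h c d := by
  obtain ⟨τ, u, v⟩ := t
  exact ⟨τ, u.mono (Ico_subset_Ico ac db), fun i hi => v i (Ico_subset_Ico ac db hi)⟩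

theorem ty_Bk {a b : ℕ} {q} (hq : q ∈ Bk a b) (c d : ℕ) : Ty q.toMonoidHom c d := by
  obtain ⟨π, p, -⟩ := Bk.perm hq
  exact ⟨π, π.injective.injOn, fun i _ => p i⟩

/-- No Hurwitz move shortens the tuple. -/
def Mn (h : Gm →* Gm) (a b : ℕ) : Prop := ∃ (A : ℕ → List ℕ) (τ : ℕ → ℕ),
  (∀ i, a ≤ i → i < b → Nf (h (xx i)) (A i) (τ i)) ∧ ∀ i, a ≤ i → i + 1 < b →
    ¬ A i ++ [τ i] <+: A (i + 1) ++ [τ (i + 1)] ∧ ¬ A (i + 1) ++ [τ (i + 1)] <+: A i ++ [τ i]

theorem Ty.min {h : Gm →* Gm} {a b : ℕ} (t : Ty h a b) :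
    ∃ q ∈ Bk a b, Mn (h.comp q.toMonoidHom) a b := by
  obtain ⟨q, hq, loc⟩ := exists_loc h a b fun _ y => (wd y).length
  obtain ⟨τ, u, v⟩ := t.comp hq le_rfl le_rfl
  have : ∀ i, ∃ A, a ≤ i → i < b → Nf (h (q (xx i))) A (τ i) := fun i => by
    by_cases e : a ≤ i ∧ i < b
    exacts [(v i e).nf.imp fun _ n _ _ => n, ⟨[], fun s t => (e ⟨s, t⟩).elim⟩]
  choose A hA using this
  refine ⟨q, hq, A, τ, hA, fun i s t => ?_⟩
  have ne : τ i ≠ τ (i + 1) := fun e => by
    have := u ⟨s, by omega⟩ ⟨by omega, t⟩ e; omega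
  have n := hA i s (by omega)
  have n' := hA (i + 1) (by omega) t
  obtain ⟨l1, l2⟩ := loc i s t _ _ rfl rfl
  constructor <;> intro p <;> rcases List.prefix_concat_iff.1 p with e | e
  · exact ne (List.append_singleton_inj.1 e).2
  · have := n.short n' e; omega
  · exact ne (List.append_singleton_inj.1 e).2.symm
  · have := n'.short n e; omega

theorem mn_step {h : Gm →* Gm} {a b : ℕ} {A : ℕ → List ℕ} {τ : ℕ → ℕ}
    (n : ∀ i, a ≤ i → i < b → Nf (h (xx i)) (A i) (τ i)) (m : ∀ i, a ≤ i → i + 1 < b →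
    ¬ A i ++ [τ i] <+: A (i + 1) ++ [τ (i + 1)] ∧ ¬ A (i + 1) ++ [τ (i + 1)] <+: A i ++ [τ i])
    {i : ℕ} (u : a ≤ i) (v : i < b) : ∃ B A' w, A i = B ++ A' ∧ wd (h (Cw a i)) = B ++ w ∧
      wd (h (Cw a (i + 1))) = A i ++ τ i :: (A'.reverse ++ w) := by
  induction i, u using Nat.le_induction with
  | base => rw [Cw_succ le_rfl, map_mul]; exact (n a le_rfl v).step (by simp [Cw_le])
  | succ i u ih =>
    obtain ⟨B, A', w, -, -, e⟩ := ih (by omega)
    rw [Cw_succ (b := i + 1) (by omega), map_mul]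
    refine (n _ (by omega) v).step fun p => ?_
    have p' : A i ++ [τ i] <+: wd (h (Cw a (i + 1))) := ⟨_, by rw [e, List.append_assoc]; rfl⟩
    exact (List.prefix_or_prefix_of_prefix p p').elim (m i u v).2 (m i u v).1

theorem Mn.mem {h : Gm →* Gm} {a b : ℕ} (m : Mn h a b) {S : Set ℕ} (hS : h (Cw a b) ∈ GS S) :
    ∀ i, a ≤ i → i < b → h (xx i) ∈ GS S := by
  obtain ⟨A, τ, n, m⟩ := m
  have key : ∀ i, a ≤ i → i < b → h (Cw a (i + 1)) ∈ GS S → h (xx i) ∈ GS S := fun i u v p => by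
    obtain ⟨B, A', w, -, -, e⟩ := mn_step n m u v
    rw [mem_GS, e] at p
    have := ev_mem (l := A i) fun j hj => p j (by simp [hj])
    rw [(n i u v).2]
    exact mul_mem (mul_mem this (xx_mem (p _ (by simp)))) (inv_mem this)
  have : ∀ k, a ≤ k → k ≤ b → h (Cw a k) ∈ GS S := fun k u v => by
    induction v using Nat.decreasingInduction with
    | self => exact hS
    | of_succ k v ih =>
      have := ih (by omega)
      have e := key k u v this
      rwa [Cw_succ u, map_mul, (GS S).mul_mem_cancel_left e] at this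
  exact fun i u v => key i u v (this _ (by omega) v)

theorem wd_Cw (a b : ℕ) : (wd (Cw a b)).Nodup ∧ (a ≤ b → wd (Cw a (b + 1)) = b :: wd (Cw a b)) := by
  have key : ∀ b, a ≤ b → wd (Cw a (b + 1)) = b :: wd (Cw a b) := fun b u => by
    rw [Cw_succ u, wd_cons fun e => ?_]
    exact lt_irrefl _ (mem_GS.1 (Cw_mem a b) b (List.mem_of_mem_head? e)).2
  refine ⟨?_, key b⟩
  induction b with
  | zero => simp [Cw]
  | succ b ih =>
    by_cases u : a ≤ b
    · rw [key b u]
      exact List.nodup_cons.2 ⟨fun e => lt_irrefl _ (mem_GS.1 (Cw_mem a b) b e).2, ih⟩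
    · simp [Cw, u]

theorem Mn.art {h : Gm →* Gm} {a b b' : ℕ} (m : Mn h a b) (ab : a ≤ b) (ab' : a ≤ b')
    (e : h (Cw a b) = Cw a b') : b = b' ∧ ∀ i, a ≤ i → i < b → h (xx i) = xx i := by
  obtain ⟨A, τ, n, m⟩ := m
  have p1 : ∀ k, a ≤ k → k ≤ b → (wd (h (Cw a k))).Nodup → ∀ i, a ≤ i → i < k → A i = [] := by
    intro k u
    induction k, u using Nat.le_induction with
    | base => intros; omega
    | succ k u ih =>
      intro v nd
      obtain ⟨B, A', w, e1, e2, e3⟩ := mn_step n m u v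
      rw [e3, e1] at nd
      obtain rfl : A' = [] := by
        cases A' with
        | nil => rfl
        | cons c _ => simp [List.nodup_append] at nd
      have ih := ih (by omega) (by
        rw [e2]; exact nd.sublist (by simp))
      intro i s t
      by_cases q : i < k
      · exact ih i s q
      obtain rfl : i = k := by omega
      rcases u.eq_or_lt with rfl | u
      · simpa [Cw_le, e1] using (show B = [] by simpa [Cw_le] using (List.append_eq_nil_iff.1 (by
          rw [← e2]; simp [Cw_le])).1)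
      obtain ⟨k, rfl⟩ := Nat.exists_eq_add_one.2 (show 0 < i by omega)
      obtain ⟨_, _, _, -, -, e4⟩ := mn_step n m (i := k) (by omega) (by omega)
      have := (m k (by omega) v).1
      rw [ih k (by omega) (by omega)] at this e4
      rw [e1, List.append_nil] at this ⊢
      cases B with
      | nil => rfl
      | cons c B =>
        rw [e2] at e4
        exact (this (by simp [(List.cons.inj e4).1])).elim
  have p1 := p1 b ab le_rfl (e ▸ (wd_Cw a b').1)
  have p2 : ∀ k, a ≤ k → k ≤ b → ∀ k', a ≤ k' → h (Cw a k) = Cw a k' →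
      k = k' ∧ ∀ i, a ≤ i → i < k → h (xx i) = xx i := by
    intro k u
    induction k, u using Nat.le_induction with
    | base =>
      intro _ k' u e
      refine ⟨?_, by intros; omega⟩
      rcases u.eq_or_lt with rfl | u
      · rfl
      obtain ⟨k', rfl⟩ := Nat.exists_eq_add_one.2 (show 0 < k' by omega)
      have := (wd_Cw a k').2 (by omega)
      simp [← e, Cw_le] at this
    | succ k u ih =>
      intro v k' u' e
      obtain ⟨B, A', w, e1, e2, e3⟩ := mn_step n m u v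
      rw [p1 k u v] at e1 e3
      obtain ⟨rfl, rfl⟩ := List.append_eq_nil_iff.1 e1.symm
      rcases u'.eq_or_lt with rfl | u'
      · simp [e, Cw_le] at e3
      obtain ⟨k', rfl⟩ := Nat.exists_eq_add_one.2 (show 0 < k' by omega)
      rw [e, (wd_Cw a k').2 (by omega)] at e3
      obtain ⟨e4, e5⟩ : k' = τ k ∧ wd (Cw a k') = w := by simpa using e3
      obtain ⟨rfl, i2⟩ := ih (by omega) k' (by omega) (by
        rw [← ev_wd (h _), e2, ← ev_wd (Cw a k'), e5]; rfl)
      refine ⟨rfl, fun i s t => ?_⟩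
      by_cases q : i < k
      · exact i2 i s q
      obtain rfl : i = k := by omega
      simpa [p1 i u v, ← e4] using (n i u v).2
  exact p2 b ab le_rfl b' ab' e

theorem Ty.mem {h : Gm →* Gm} {a b : ℕ} (t : Ty h a b) {S : Set ℕ} (hS : h (Cw a b) ∈ GS S) :
    ∃ q ∈ Bk a b, ∀ i, a ≤ i → i < b → h (q (xx i)) ∈ GS S := by
  obtain ⟨q, hq, m⟩ := t.min
  exact ⟨q, hq, m.mem (by simpa [Bk.fix_Cw hq] using hS)⟩

theorem Ty.art {h : Gm →* Gm} {a b b' : ℕ} (t : Ty h a b) (ab : a ≤ b) (ab' : a ≤ b')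
    (e : h (Cw a b) = Cw a b') : b = b' ∧ ∃ q ∈ Bk a b, ∀ i, a ≤ i → i < b → h (q (xx i)) = xx i := by
  obtain ⟨q, hq, m⟩ := t.min
  have := m.art ab ab' (by simpa [Bk.fix_Cw hq] using e)
  exact ⟨this.1, q, hq, this.2⟩

/-- A braid that fixes the first letters only moves the remaining points. -/
theorem Bk.of_fix {a t b : ℕ} (ta : a ≤ t) (tb : t ≤ b) {g} (hg : g ∈ Bk a b)
    (h : ∀ i, a ≤ i → i < t → g (xx i) = xx i) : g ∈ Bk t b := by
  have e : g (Cw a t) = Cw a t := GS.eq g (MonoidHom.id _) (fun i hi => h i hi.1 hi.2) (Cw_mem a t)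
  obtain ⟨-, q, hq, k⟩ := (ty_Bk hg t b).art tb tb (by
    have := Bk.fix_Cw hg (c := a) (d := b) (Or.inl le_rfl) (Or.inr le_rfl)
    rw [← Cw_mul ta tb, map_mul, e] at this
    exact mul_right_cancel this)
  have : g * q = 1 := autx fun i => by
    by_cases u : t ≤ i ∧ i < b
    · exact k i u.1 u.2
    rw [MulAut.mul_apply, Bk.fix_xx hq (by omega)]
    by_cases v : a ≤ i ∧ i < t
    exacts [h i v.1 v.2, Bk.fix_xx hg (by omega)]
  exact eq_inv_of_mul_eq_one_left this ▸ inv_mem hq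

/-- Double cosets of braid groups of blocks. -/
theorem Bk.dc {N s t : ℕ} (tN : t ≤ N) {g} (hg : g ∈ Bk 0 N)
    (h : g (Cw 0 t) ∈ GS (Iio s)) (sN : s ≤ N) :
    ∃ p ∈ Bk 0 s, ∃ q ∈ Bk 0 t, ∃ q' ∈ Bk t N, g = p * (q' * q) := by
  obtain ⟨q, hq, k⟩ := (ty_Bk hg 0 t).mem h
  have g1 : g * q ∈ Bk 0 N := mul_mem hg (Bk.mono le_rfl tN hq)
  obtain ⟨r, hr, c, c1, c2, so⟩ := sort (g * q).toMonoidHom tN (fun y => ∃ j < s, Rf y j) (by
    rintro y c ⟨j, u, v⟩
    exact ⟨j, u, by simpa [mul_assoc] using v.conj c⁻¹⟩)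
  have g2 : g * q * r ∈ Bk 0 N := mul_mem g1 (Bk.mono (Nat.zero_le _) le_rfl hr)
  obtain ⟨π, p1, -⟩ := Bk.perm g2
  have k' : ∀ i < t, (g * q * r) (xx i) ∈ GS (Iio s) := fun i u => by
    rw [MulAut.mul_apply, Bk.fix_xx hr (Or.inl u)]; exact k i (Nat.zero_le _) u
  have ls : ∀ i < N, π i < s ↔ i < c := fun i u => by
    by_cases v : i < t
    · exact ⟨fun _ => by omega, fun _ => (p1 i).mem (k' i v)⟩
    · rw [← so i (by omega) u]
      exact ⟨fun e => ⟨_, e, p1 i⟩, fun ⟨j, e, f⟩ => (p1 i).eq f ▸ e⟩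
  let φ := (pj (Iio s)).comp (g * q * r).toMonoidHom
  have ty : Ty φ 0 c := ⟨π, π.injective.injOn, fun i hi =>
    (p1 i).map (pj (Iio s)) (by rw [pj_in (S := Iio s) ((ls i (by have := hi.2; omega)).2 hi.2)]; exact rf_xx _)⟩
  obtain ⟨rfl, w, hw, k2⟩ := ty.art (Nat.zero_le _) (Nat.zero_le s) (by
    have e1 : φ (Cw c N) = 1 := GS.map φ (K := ⊥) (fun i hi => by
      obtain ⟨A, e⟩ := p1 i
      have : π i ∉ Iio s := fun e => by have := (ls i hi.2).1 e; have := hi.1; omega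
      simp only [φ, MonoidHom.comp_apply, MulEquiv.coe_toMonoidHom, e]
      simp [pj_out this]) (Cw_mem c N)
    have e2 : pj (Iio s) (Cw s N) = 1 := GS.map _ (K := ⊥) (fun i hi => by
      simp [pj_out (S := Iio s) (not_lt.2 hi.1)]) (Cw_mem s N)
    have e3 : φ (Cw 0 N) = Cw 0 s := by
      simp only [φ, MonoidHom.comp_apply, MulEquiv.coe_toMonoidHom]
      rw [Bk.fix_Cw g2 (Or.inl le_rfl) (Or.inr le_rfl), ← Cw_mul (Nat.zero_le s) sN, map_mul, e2,
        one_mul, pj_fix (GS.mono Ico_subset_Iio_self (Cw_mem 0 s))]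
    rwa [← Cw_mul (Nat.zero_le c) c2, map_mul, e1, one_mul] at e3)
  have fx : w * (g * q * r) ∈ Bk t N := Bk.of_fix (Nat.zero_le _) tN
    (mul_mem (Bk.mono le_rfl c2 hw) g2) fun i _ u => by
      have m := Bk.map_GS (inv_mem hw) subset_rfl (xx_mem (i := i) ⟨Nat.zero_le _, by omega⟩)
      have := GS.eq (φ.comp w.toMonoidHom) (MonoidHom.id _) (fun j hj => k2 j hj.1 hj.2) m
      simp only [φ, MonoidHom.comp_apply, MulEquiv.coe_toMonoidHom, MulAut.apply_inv_self,
        pj_fix (k' i u), MonoidHom.id_apply] at this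
      rw [MulAut.mul_apply, this, MulAut.apply_inv_self]
  exact ⟨w⁻¹, inv_mem hw, q⁻¹, inv_mem hq, _, mul_mem fx (inv_mem hr), by group⟩

end Pool.Agent.MP_6eaae3_al.Cl

end MrgPart1

-- marker of a merged file
example : 731051 + 283482 = 731051 + 283482 := rfl

end MrgPart1

-- marker of a merged file
example : 731051 + 283482 = 731051 + 283482 := rfl
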