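import Pool.Agent.MP_6eaae3_al.Base
import Pool.Agent.MP_6eaae3_al.Cl.Hur

-- ======== part 0: formerly Pool.Agent.MP_6eaae3_al.Cl.Plumb
section MrgPart0

/-! Plumbing of annuli with permuted levels. -/

namespace Pool.Agent.MP_6eaae3_al.Cl

open FreeGroup (of)
open Set

theorem pr_perm {G : Type} [Group G] {f : ℕ → G} {n : ℕ} (c : ∀ i < n, ∀ j < n, Commute (f i) (f j))
    (π : Equiv.Perm ℕ) (h : ∀ i, π i < n ↔ i < n) : pr (fun i => f (π i)) n = pr f n := by
  have e : ∀ (f : ℕ → G) n, pr f n = ((List.range n).map f).prod := fun f n => by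
    induction n with
    | zero => rfl
    | succ n ih => simp [pr, ih, List.range_succ]
  have p : ((List.range n).map π).Perm (List.range n) :=
    (List.perm_ext_iff_of_nodup (List.nodup_range.map π.injective) List.nodup_range).2 fun a => by
      obtain ⟨b, rfl⟩ := π.surjective a
      simp [h]
  rw [e, e]
  refine ((List.map_map (g := f) ▸ p.map f).symm.prod_eq' ?_).symm
  exact List.pairwise_map.2 (List.pairwise_of_forall_mem_list fun a u b v =>
    c a (List.mem_range.1 u) b (List.mem_range.1 v))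

variable {V : Type}

/-- The crossings of the plumbing. -/
def Aj (m : V → V → ℕ) (n : ℕ) (lv : V → V → Equiv.Perm ℕ) (p q : V × ℕ) : Prop :=
  p.1 ≠ q.1 ∧ lv q.1 p.1 q.2 = lv p.1 q.1 p.2 + 1 ∧ q.2 < n ∧ ¬ m p.1 q.1 - 1 ∣ lv q.1 p.1 q.2

def Ce (m : V → V → ℕ) (n lo : ℕ) (lv : V → V → Equiv.Perm ℕ) (p : V × ℕ) : Set (Nm V × Bool) :=
  {c | (∃ q, (Aj m n lv p q ∨ (q.1 = p.1 ∧ q.2 < 4)) ∧ c = (cr lo p q, false)) ∨
    (∃ q, Aj m n lv q p ∧ c = (cr lo q p, true)) ∨ c = (mq lo p 2, false)}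

structure Bs (m : V → V → ℕ) (n lo : ℕ) (lv : V → V → Equiv.Perm ℕ) where
  A : V × ℕ → Rec (Nm V)
  mem : ∀ p c, c ∈ (A p).cells ↔ c ∈ Ce m n lo lv p

variable {m : V → V → ℕ} {n lo : ℕ} {lv : V → V → Equiv.Perm ℕ}

theorem Aj.irr {p : V × ℕ} : ¬ Aj m n lv p p := fun h => h.1 rfl

theorem exists_bs [Finite V] (l : V × ℕ → List (Nm V × Bool)) (nd : ∀ p, (l p).Nodup)
    (h : ∀ p, ∀ c ∈ l p, c ∈ Ce m n lo lv p) :
    ∃ B : Bs m n lo lv, ∀ p, ∃ r, (B.A p).cells = l p ++ r := by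
  have : ∀ p : V × ℕ, ∃ A : Rec (Nm V), (∀ c, c ∈ A.cells ↔ c ∈ Ce m n lo lv p) ∧
      ∃ r, A.cells = l p ++ r := fun p => by
    refine exists_rec ?_ ?_ (nd p) (h p)
    · refine ((((finite_range fun v => (cr lo p (v, (lv v p.1).symm (lv p.1 v p.2 + 1)), false)).union
        (finite_range fun v => (cr lo (v, (lv v p.1).symm (lv p.1 v p.2 - 1)) p, true))).union
        ((finite_lt_nat 4).image fun k => (cr lo p (p.1, k), false))).insert (mq lo p 2, false)).subset ?_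
      rintro _ (⟨q, a | a, rfl⟩ | ⟨q, a, rfl⟩ | rfl)
      exacts [Or.inr (Or.inl (Or.inl ⟨q.1, by simp [← a.2.1]⟩)), Or.inr (Or.inr ⟨q.2, a.2, by rw [← a.1]⟩),
        Or.inr (Or.inl (Or.inr ⟨q.1, by simp [a.2.1]⟩)), Or.inl rfl]
    · rintro _ (⟨q, a, rfl⟩ | ⟨q, a, rfl⟩ | rfl) _ (⟨q', a', rfl⟩ | ⟨q', a', rfl⟩ | rfl) e <;>
        simp_all [cr, mq, Aj.irr]
  choose A a b using this
  exact ⟨⟨A, a⟩, b⟩

namespace Bs

variable (B : Bs m n lo lv)

theorem f_cr {o p q} : (cr lo p q, false) ∈ (B.A o).cells ↔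
    o = p ∧ (Aj m n lv p q ∨ (q.1 = p.1 ∧ q.2 < 4)) := by
  simp [B.mem, Ce, cr, mq]; aesop

theorem t_cr {o p q} : (cr lo p q, true) ∈ (B.A o).cells ↔ o = q ∧ Aj m n lv p q := by
  simp [B.mem, Ce, cr, mq]; aesop

theorem f_mq {o p} : (mq lo p 2, false) ∈ (B.A o).cells ↔ o = p := by
  simp [B.mem, Ce, cr, mq, eq_comm]

theorem t_mq {o p k} : (mq lo p k, true) ∉ (B.A o).cells := by simp [B.mem, Ce, cr, mq]

theorem shared {p q μ} (h : p ≠ q) (a : μ ∈ (B.A p).slots) (b : μ ∈ (B.A q).slots) :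
    (Aj m n lv p q ∧ μ = cr lo p q) ∨ (Aj m n lv q p ∧ μ = cr lo q p) := by
  obtain ⟨s, a⟩ := a
  obtain ⟨_ | _, b⟩ := b <;> rcases (B.mem _ _).1 a with ⟨o, u, e⟩ | ⟨o, u, e⟩ | e <;> cases e <;>
    simp_all [B.f_cr, B.t_cr, B.f_mq, B.t_mq]

theorem dis {p q} (h : p ≠ q) (a : ¬ Aj m n lv p q) (b : ¬ Aj m n lv q p) : (B.A p).Dis (B.A q) :=
  fun _ u v => (B.shared h u v).elim (fun e => a e.1) fun e => b e.1

theorem one {p q} (h : Aj m n lv p q) : (B.A p).One (B.A q) (cr lo p q) :=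
  ⟨B.f_cr.2 ⟨rfl, Or.inl h⟩, B.t_cr.2 ⟨rfl, h⟩, fun _ u v =>
    (B.shared (fun e => h.1 (by rw [e])) u v).elim (·.2) fun e => by
      have := h.2.1; have := e.1.2.1; omega⟩

theorem dis' (v : V) {i j : ℕ} (h : i ≠ j) : (B.A (v, i)).Dis (B.A (v, j)) :=
  B.dis (by simpa using h) (fun e => e.1 rfl) fun e => e.1 rfl

/-- The representation by products of twists. -/
def rep [Finite V] (sym : ∀ s t, m s t = m t s) (hn : ∀ s t, s ≠ t → m s t ≠ 0 → m s t - 1 ∣ n)
    (hl : ∀ s t i, lv s t i < n ↔ i < n) : Rep m lo (lo + 1) where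
  C := B.A '' {p | p.2 < n}
  w := fun v => pr (fun i => of (B.A (v, i), true)) n
  le := Nat.le_succ _
  fin := ((finite_univ.prod (finite_lt_nat n)).subset fun _ h => ⟨trivial, h⟩).image _
  mem := fun v => pr_mem fun i a => of_mem_Fre ⟨(v, i), a, rfl⟩
  cons := by
    rintro _ ⟨p, -, rfl⟩ _ ⟨q, -, rfl⟩ e c a b
    rcases (B.mem _ _).1 a with ⟨o, u, rfl⟩ | ⟨o, u, rfl⟩ | rfl
    exacts [e (by rw [(B.f_cr.1 b).1]), e (by rw [(B.t_cr.1 b).1]), e (by rw [B.f_mq.1 b])]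
  rng := by
    rintro _ ⟨p, -, rfl⟩ ν ⟨s, a⟩
    rcases (B.mem _ _).1 a with ⟨o, u, e⟩ | ⟨o, u, e⟩ | e <;> cases e <;> simp [cr, mq]
  sp := by
    rintro _ ⟨p, -, rfl⟩
    exact ⟨mq lo p 2, rfl, B.f_mq.2 rfl⟩
  nv := by
    rintro _ ⟨p, -, rfl⟩ ν h a
    rcases (B.mem _ _).1 a with ⟨o, u, e⟩ | ⟨o, u, e⟩ | e <;> cases e
    cases h
  rel := fun G _ T h s t e => by
    by_cases h0 : m s t = 0
    · rw [h0]; rfl
    obtain ⟨K, hK⟩ := hn s t e h0
    obtain ⟨M, hM⟩ := Nat.exists_eq_add_one_of_ne_zero h0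
    rw [hM, Nat.add_sub_cancel] at hK
    have cm : ∀ p q : V × ℕ, p.2 < n → q.2 < n → ¬ Aj m n lv p q → ¬ Aj m n lv q p →
        Commute (T (B.A p, true)) (T (B.A q, true)) := fun p q a b c d => by
      by_cases r : p = q
      exacts [r ▸ Commute.refl _, (h _ ⟨p, a, rfl⟩ _ ⟨q, b, rfl⟩).1 (B.dis r c d) _ _]
    let an : ℤ → ℕ → V × ℕ := fun e j => (yy s t e, (lv (yy s t e) (yy s t (e + 1))).symm j)
    have lt : ∀ e j, (an e j).2 < n ↔ j < n := fun e j => by rw [← hl]; simp only [an]; rw [Equiv.apply_symm_apply]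
    have aj : ∀ e e' i j, Aj m n lv (an e i) (an e' j) ↔
        e % 2 ≠ e' % 2 ∧ j = i + 1 ∧ j < n ∧ ¬ M ∣ j := fun e e' i j => by
      by_cases q : e % 2 = e' % 2
      · exact iff_of_false (fun u => u.1 (yy_congr _ _ q)) fun u => u.1 q
      have ne := Bas.yy_ne ‹s ≠ t› q
      rw [Aj, lt]
      simp only [an, yy_congr s t (i := e + 1) (j := e') (by omega), yy_congr s t (i := e' + 1) (j := e)
        (by omega), Equiv.apply_symm_apply, Bas.lab sym ne, hM, Nat.add_sub_cancel]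
      exact and_congr_left' (iff_of_true ne q)
    let σ : ℤ → ℕ → G := fun e j => T (B.A (an (j + e) j), true)
    have c : ∀ i < n, ∀ j < n, Commute (σ 0 i) (σ 1 j) := fun i a j b =>
      cm _ _ ((lt _ _).2 a) ((lt _ _).2 b) (fun q => by rw [aj] at q; omega) fun q => by rw [aj] at q; omega
    have f := fun z p => fold_blocks (g := σ z) (M := M) K (fun i a b =>
      (h _ ⟨_, (lt _ i).2 (by omega), rfl⟩ _ ⟨_, (lt _ _).2 (hK ▸ a), rfl⟩).2 _
        (B.one ((aj _ _ _ _).2 ⟨by omega, rfl, hK ▸ a, b⟩)))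
      (fun i j a b c => cm _ _ ((lt _ _).2 (by omega)) ((lt _ _).2 (by omega))
        (fun q => by rw [aj] at q; tauto) fun q => by rw [aj] at q; omega) p
    have g : ∀ p, FreeGroup.lift T (pr (fun i => of (B.A (yy s t p, i), true)) n) =
        eo (σ 0) n p * eo (σ 1) n (p + 1) := fun p => by
      rw [map_pr, eo, eo, ← pr_mul fun i a j b => by split_ifs <;> simp [c i a j b],
        ← pr_perm (fun i a j b => by
          simpa using cm (_, i) (_, j) a b (fun q => q.1 rfl) fun q => q.1 rfl) _ (lt p)]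
      congr 1; ext i
      split_ifs <;> first | omega | simp [σ, an, yy_congr s t (i := p) (j := i) (by omega),
        yy_congr s t (i := p + 1) (j := i + 1) (by omega)] |
        simp [σ, an, yy_congr s t (i := p) (j := i + 1) (by omega),
          yy_congr s t (i := p + 1) (j := i + 1 + 1) (by omega)]
    have c' := eo_commute c
    rw [← hK] at f
    have g0 : FreeGroup.lift T (pr (fun i => of (B.A (s, i), true)) n) = _ := g 0
    have g1 : FreeGroup.lift T (pr (fun i => of (B.A (t, i), true)) n) = _ :=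
      (yy_congr s t (i := 0 + 1) (j := 1) rfl ▸ g (0 + 1) :)
    rw [g0, g1,
      alG_mul _ (c' _ _) (c' _ _) (c' _ _) (c' _ _), alG_mul _ (c' _ _) (c' _ _) (c' _ _) (c' _ _),
      hM, f, f]

/-- The automorphism attached to a generator. -/
noncomputable def tw (v : V) : MulAut (FL (Nm V)) := pr (fun i => (B.A (v, i)).tau true) n

theorem tw_on {p : V × ℕ} (h : p.2 < n) {x : Nm V × Fin 4} (hx : x.1 ∈ (B.A p).slots) :
    B.tw p.1 (of x) = (B.A p).tau true (of x) :=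
  pr_apply h fun j _ ne => by
    have d := B.dis' p.1 ne.symm
    refine ⟨Rec.tau_not (d _ hx), ?_⟩
    rw [Rec.tau_of, map_mul, map_mul, Rec.tau_not (d _ hx), d.fix _ _ (Rec.lf_mem _ _ _),
      d.fix _ _ (Rec.rg_mem _ _ _)]

theorem tw_lb {p : V × ℕ} (h : p.2 < n) {μ} (a : (μ, false) ∈ (B.A p).cells) :
    B.tw p.1 (lb μ) = (B.A p).ell true (μ, false) * lb μ := (B.tw_on h ⟨_, a⟩).trans (Rec.tau_lb _ a)

theorem tw_ld {p : V × ℕ} (h : p.2 < n) {μ} (a : (μ, true) ∈ (B.A p).cells) :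
    B.tw p.1 (ld μ) = (B.A p).ell true (μ, true) * ld μ := (B.tw_on h ⟨_, a⟩).trans (Rec.tau_ld _ a)

theorem tw_lb' {v μ} (a : ∀ i, (μ, false) ∉ (B.A (v, i)).cells) : B.tw v (lb μ) = lb μ :=
  pr_fix fun i _ => Rec.tau_lb' _ (a i)

theorem tw_ld' {v μ} (a : ∀ i, (μ, true) ∉ (B.A (v, i)).cells) : B.tw v (ld μ) = ld μ :=
  pr_fix fun i _ => Rec.tau_ld' _ (a i)

theorem tw_lt (v μ) : B.tw v (lt μ) = lt μ := pr_fix fun _ _ => Rec.tau_lt _ _

variable [Finite V] {sym : ∀ s t, m s t = m t s} {hn : ∀ s t, s ≠ t → m s t ≠ 0 → m s t - 1 ∣ n}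
  {hl : ∀ s t i, lv s t i < n ↔ i < n}

theorem rep_ψ (v : V) : (B.rep sym hn hl).ψ (PresentedGroup.of v) = B.tw v := by
  simp [Rep.ψ_of, rep, map_pr, tauF, tw]

theorem mark (p : V × ℕ) (k : ℕ) {X : Set V} (hX : p.1 ∈ X) :
    (B.rep sym hn hl).Mark X (cr lo p (p.1, k)) :=
  ⟨le_rfl, Nat.lt_succ_self _, by simp [Spare, cr], by
    rintro _ ⟨q, -, rfl⟩ a; exact (B.t_cr.1 a).2.1 rfl,
    fun v hv => pr_mem fun i _ => of_mem_Fre (by
      rintro ⟨_ | _, a⟩
      exacts [hv (by rwa [← (B.f_cr.1 a).1] at hX), (B.t_cr.1 a).2.1 rfl])⟩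

end Bs

end Pool.Agent.MP_6eaae3_al.Cl

end MrgPart0

-- ======== part 1: formerly Pool.Agent.MP_6eaae3_al.Cl.Chain
section MrgPart1

/-! Chains of annuli and detection of double cosets. -/

namespace Pool.Agent.MP_6eaae3_al.Cl

open FreeGroup (of)
open Set

variable {V ι : Type}

/-- A component of the plumbing graph that is a path or a cycle. -/
structure Chn (m : V → V → ℕ) (n : ℕ) (lv : V → V → Equiv.Perm ℕ) (Λ : Set V) (ι : Type) where
  S : Finset ι
  cp : ι → V × ℕ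
  nx : ι → ι
  nb : ι → Prop
  inj : InjOn cp S
  col : ∀ i ∈ S, (cp i).1 ∈ Λ ∧ (cp i).2 < n
  nxt : ∀ i ∈ S, nb i → nx i ∈ S ∧ Aj m n lv (cp i) (cp (nx i))
  uq : ∀ i ∈ S, ∀ j ∈ S, nb i → nb j → nx i = nx j → i = j
  up : ∀ i ∈ S, ∀ q, q.1 ∈ Λ → Aj m n lv (cp i) q → nb i ∧ q = cp (nx i)
  dn : ∀ i ∈ S, ∀ q, q.1 ∈ Λ → Aj m n lv q (cp i) → ∃ j ∈ S, q = cp j

variable {m : V → V → ℕ} {n : ℕ} {lv : V → V → Equiv.Perm ℕ} {Λ : Set V}

theorem Chn.dn' (C : Chn m n lv Λ ι) {i} (hi : i ∈ C.S) {q} (hq : q.1 ∈ Λ) (a : Aj m n lv q (C.cp i)) :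
    ∃ j ∈ C.S, q = C.cp j ∧ C.nb j ∧ C.nx j = i := by
  obtain ⟨j, hj, rfl⟩ := C.dn i hi q hq a
  obtain ⟨u, v⟩ := C.up j hj _ (C.col i hi).1 a
  exact ⟨j, hj, rfl, u, (C.inj hi (C.nxt j hj u).1 v).symm⟩

open Classical in
theorem Chn.main [Finite V] (sym : ∀ s t, m s t = m t s) (hn : ∀ s t, s ≠ t → m s t ≠ 0 → m s t - 1 ∣ n)
    (hl : ∀ s t i, lv s t i < n ↔ i < n) (C : Chn m n lv Λ ι) {t : ι} (ht : t ∈ C.S) (lo : ℕ) :
    ∃ R : Rep m lo (lo + 1), (∀ p k X, p.1 ∈ X → R.Mark X (cr lo p (p.1, k))) ∧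
      ∀ (A H : Type) [Group A] [Group H] (P : Subgroup A) (r : V → A) (D B : A → ι → H) (N : A → H)
        (J : ℕ → ι → H), (∀ v ∈ Λ, r v ∈ P) →
        (∀ a ∈ P, ∀ i ∈ C.S, (¬ C.nb i → D a i = 1) ∧ ((∀ j ∈ C.S, C.nb j → C.nx j ≠ i) → B a i = 1)) →
        (∀ a ∈ P, ∀ v ∈ Λ, N (a * r v) = (if v = (C.cp t).1 then
          J 2 t * D a t * J 3 t * (B a t)⁻¹ * J 0 t else 1) * N a) →
        (∀ a ∈ P, ∀ v ∈ Λ, ∀ i ∈ C.S, C.nb i → B (a * r v) (C.nx i) = (if v = (C.cp i).1 then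
          D a i * J 3 i * (B a i)⁻¹ * J 0 i * J 2 i else 1) * B a (C.nx i)) →
        (∀ a ∈ P, ∀ v ∈ Λ, ∀ i ∈ C.S, C.nb i → D (a * r v) i = (if v = (C.cp (C.nx i)).1 then
          J 0 (C.nx i) * J 2 (C.nx i) * D a (C.nx i) * J 3 (C.nx i) * (B a (C.nx i))⁻¹ else 1) * D a i) →
        ∀ (L : Subgroup H) (s : V), N 1 ∈ L → (∀ i ∈ C.S, (C.nb i → D 1 i ∈ L ∧ B 1 (C.nx i) ∈ L) ∧
          ((C.cp i).1 ≠ s → ∀ k, J k i ∈ L)) →
        ∀ x ∈ Subgroup.closure ((fun v => (PresentedGroup.of v, r v)) '' Λ),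
          (∀ i ∈ C.S, (C.cp i).1 = s → ∀ k < 4, k ≠ 1 → R.ψ x.1 (lb (cr lo (C.cp t) ((C.cp t).1, 1))) ∈
            Fre {(cr lo (C.cp i) (s, k), 0)}ᶜ) → N x.2 ∈ L := by
  have : Nonempty ι := ⟨t⟩
  let ix := Function.invFunOn C.cp C.S
  have hx : ∀ i ∈ C.S, ix (C.cp i) = i := fun i hi => C.inj.leftInvOn_invFunOn hi
  let pv := Function.invFunOn C.nx {j | j ∈ C.S ∧ C.nb j}
  have hp : ∀ i ∈ C.S, C.nb i → pv (C.nx i) = i := fun i hi u =>
    InjOn.leftInvOn_invFunOn (fun i a j b => C.uq i a.1 j b.1 a.2 b.2) ⟨hi, u⟩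
  let pb : ι → Prop := fun i => ∃ j ∈ C.S, C.nb j ∧ C.nx j = i
  let mk : ι → ℕ → Nm V := fun i k => cr lo (C.cp i) ((C.cp i).1, k)
  let l1 : ι → List (Nm V × Bool) := fun i => if pb i then [(cr lo (C.cp (pv i)) (C.cp i), true)] else []
  let l2 : ι → List (Nm V × Bool) :=
    fun i => if C.nb i then [(cr lo (C.cp i) (C.cp (C.nx i)), false)] else []
  let ini : ι → List (Nm V × Bool) := fun i =>
    l1 i ++ (mk i 0, false) :: (mk i 1, false) :: (mk i 2, false) :: (l2 i ++ [(mk i 3, false)])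
  have ne : ∀ i ∈ C.S, C.nb i → ∀ k, C.cp (C.nx i) ≠ ((C.cp i).1, k) :=
    fun i hi u k e => (C.nxt i hi u).2.1 (by rw [e])
  obtain ⟨Bb, ord⟩ := exists_bs (m := m) (n := n) (lo := lo) (lv := lv)
    (fun p => if ∃ i ∈ C.S, C.cp i = p then ini (ix p) else []) (fun p => by
      split_ifs with q
      · obtain ⟨i, hi, rfl⟩ := q
        have := ne i hi
        rw [hx i hi]
        simp only [ini, l1, l2, mk]
        split_ifs with a b b <;>
          first | (simp [cr]; done) | simp [cr, fun k => Ne.symm (this b k), this b]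
      · simp) (fun p => by
      split_ifs with q
      · obtain ⟨i, hi, rfl⟩ := q
        have m1 : ∀ k < 4, (mk i k, false) ∈ Ce m n lo lv (C.cp i) :=
          fun k u => Or.inl ⟨(_, k), Or.inr ⟨rfl, u⟩, rfl⟩
        rw [hx i hi]
        simp only [ini, List.forall_mem_append, List.forall_mem_cons]
        refine ⟨?_, m1 _ (by omega), m1 _ (by omega), m1 _ (by omega), ?_, m1 _ (by omega), by simp⟩
        · simp only [l1]; split_ifs with a
          · obtain ⟨j, hj, u, rfl⟩ := a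
            rw [hp j hj u, List.forall_mem_singleton]
            exact Or.inr (Or.inl ⟨_, (C.nxt j hj u).2, rfl⟩)
          · simp
        · simp only [l2]; split_ifs with a
          · exact List.forall_mem_singleton.2 (Or.inl ⟨_, Or.inl (C.nxt i hi a).2, rfl⟩)
          · simp
      · simp)
  replace ord : ∀ i ∈ C.S, ∃ r, (Bb.A (C.cp i)).cells = ini i ++ r := fun i hi => by
    simpa only [if_pos (show ∃ j ∈ C.S, C.cp j = C.cp i from ⟨i, hi, rfl⟩), hx i hi] using ord (C.cp i)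
  refine ⟨Bb.rep sym hn hl, fun p k X => Bb.mark p k,
    fun A H _ _ P r D B N J hr h0 hN hB hD L s L1 L2 x hx' av => ?_⟩
  let val : A → Nm V × Fin 4 → H := fun a y => match y with
    | ((_, some p, .inl q), k) => if q.1 = p.1 then (if k = 0 then
        (if q.2 = 1 then 1 else J q.2 (ix p)) else if k = 1 then N a else 1)
      else if p.1 ∈ Λ ∧ q.1 ∈ Λ then (if k = 0 then D a (ix p) else if k = 1 then B a (ix q) else 1) else 1
    | _ => 1
  let Φ : A → FL (Nm V) →* H := fun a => FreeGroup.lift (val a)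
  have vt : ∀ a p q, Φ a (lt (cr lo p q)) = 1 := fun a p q => by simp [Φ, val, lt, cr]
  have vJ : ∀ a, ∀ i ∈ C.S, ∀ k, Φ a (ld (mk i k)) = if k = 1 then 1 else J k i :=
    fun a i hi k => by simp [Φ, val, ld, cr, mk, hx i hi]
  have vN : ∀ a, Φ a (lb (mk t 1)) = N a := fun a => by simp [Φ, val, lb, cr, mk]
  have vD : ∀ a, ∀ i ∈ C.S, C.nb i → Φ a (ld (cr lo (C.cp i) (C.cp (C.nx i)))) = D a i ∧
      Φ a (lb (cr lo (C.cp i) (C.cp (C.nx i)))) = B a (C.nx i) := fun a i hi u => by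
    have := C.nxt i hi u
    simp [Φ, val, ld, lb, cr, hx i hi, hx _ this.1, this.2.1.symm, (C.col i hi).1, (C.col _ this.1).1]
  have vo : ∀ a p q k, Aj m n lv p q → ¬ (p.1 ∈ Λ ∧ q.1 ∈ Λ) → Φ a (of (cr lo p q, k)) = 1 :=
    fun a p q k u v => by simp only [Φ, val, cr, FreeGroup.lift_apply_of, if_neg u.1.symm, if_neg v]
  have vq : ∀ a p, Φ a (ld (mq lo p 2)) = 1 := fun a p => by simp [Φ, val, ld, mq]
  have lp : ∀ a ∈ P, ∀ i ∈ C.S,
      Φ a ((Bb.A (C.cp i)).ell true (mk i 1, false)) = J 2 i * D a i * J 3 i * (B a i)⁻¹ * J 0 i ∧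
      (C.nb i → Φ a ((Bb.A (C.cp i)).ell true (cr lo (C.cp i) (C.cp (C.nx i)), false)) =
        D a i * J 3 i * (B a i)⁻¹ * J 0 i * J 2 i) ∧
      (pb i → Φ a ((Bb.A (C.cp i)).ell true (cr lo (C.cp (pv i)) (C.cp i), true)) =
        J 0 i * J 2 i * D a i * J 3 i * (B a i)⁻¹) := by
    intro a ha i hi
    obtain ⟨ρ, e⟩ := ord i hi
    have r0 : Φ a (pth true ρ) = 1 := pth_mem (K := (Φ a).ker) fun c hc => by
      have nc : c ∉ ini i := fun u => List.disjoint_of_nodup_append (e ▸ (Bb.A _).nodup) u hc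
      rcases (Bb.mem _ _).1 (e ▸ List.mem_append_right _ hc) with ⟨q, u | u, rfl⟩ | ⟨q, u, rfl⟩ | rfl
      · refine ⟨one_mem _, vo a _ _ _ u fun w => nc ?_⟩
        obtain ⟨z, rfl⟩ := C.up i hi q w.2 u
        simp [ini, l2, z]
      · obtain ⟨v, k⟩ := q
        obtain ⟨rfl, u⟩ : v = _ ∧ k < 4 := u
        refine (nc ?_).elim
        interval_cases k <;> simp [ini, mk]
      · refine ⟨inv_mem (vo a _ _ _ u fun w => nc ?_), vt a _ _⟩
        obtain ⟨j, hj, rfl, z, rfl⟩ := C.dn' hi w.1 u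
        simp [ini, l1, hp j hj z, show pb (C.nx j) from ⟨j, hj, z, rfl⟩]
      · exact ⟨one_mem _, vq a _⟩
    have r1 : Φ a (pth true (l1 i)) = (B a i)⁻¹ := by
      simp only [l1]; split_ifs with q
      · obtain ⟨j, hj, u, rfl⟩ := q
        simp [inl, out, vt, hp j hj u, vD a j hj u]
      · simp [(h0 a ha i hi).2 fun j hj u v => q ⟨j, hj, u, v⟩]
    have r2 : Φ a (pth true (l2 i)) = D a i := by
      simp only [l2]; split_ifs with q
      · simp [inl, out, vD a i hi q]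
      · simp [(h0 a ha i hi).1 q]
    refine ⟨?_, fun q => ?_, fun q => ?_⟩
    · rw [Rec.ell_eq _ (l := l1 i ++ [(mk i 0, false)]) (l' := (mk i 2, false) ::
        (l2 i ++ (mk i 3, false) :: ρ)) (by simp [e, ini])]
      simp [inl, out, r0, r1, r2, vJ a i hi, mul_assoc]
    · rw [Rec.ell_eq _ (l := l1 i ++ [(mk i 0, false), (mk i 1, false), (mk i 2, false)])
        (l' := (mk i 3, false) :: ρ) (by simp [e, ini, l2, q])]
      simp [inl, out, r0, r1, vD a i hi q, vJ a i hi, mul_assoc]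
    · rw [Rec.ell_eq _ (l := []) (l' := (mk i 0, false) :: (mk i 1, false) :: (mk i 2, false) ::
        (l2 i ++ (mk i 3, false) :: ρ)) (by simp [e, ini, l1, q])]
      obtain ⟨j, hj, u, rfl⟩ := q
      simp [inl, out, r0, r2, vt, hp j hj u, vD a j hj u, vJ a _ hi, mul_assoc]
  let R : Set (Nm V × Fin 4) := insert (mk t 1, 1) {y | ∃ i ∈ C.S, y ∈ (Bb.A (C.cp i)).PL true}
  have cs : ∀ y ∈ R, y = (mk t 1, 1) ∨ (∃ i ∈ C.S, C.nb i ∧ (y = (cr lo (C.cp i) (C.cp (C.nx i)), 0) ∨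
      y = (cr lo (C.cp i) (C.cp (C.nx i)), 1))) ∨ (∃ i ∈ C.S, ∃ k < 4, y = (mk i k, 0)) ∨
      ((∀ a, Φ a (of y) = 1) ∧ ∀ v ∈ Λ, Bb.tw v (of y) = of y) := by
    rintro ⟨μ, k⟩ (u | ⟨i, hi, ⟨u, rfl | ⟨z, -⟩⟩ | ⟨u, z⟩⟩)
    · exact Or.inl u
    · rcases (Bb.mem _ _).1 u with ⟨q, w | w, e⟩ | ⟨q, w, e⟩ | e <;> cases e
      · by_cases z : q.1 ∈ Λ
        · obtain ⟨z', rfl⟩ := C.up i hi q z w
          exact Or.inr (Or.inl ⟨i, hi, z', Or.inl rfl⟩)
        · exact Or.inr (Or.inr (Or.inr ⟨fun a => vo a _ _ _ w fun e => z e.2, fun v hv =>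
            Bb.tw_ld' fun j e => z (by rwa [← (Bb.t_cr.1 e).1])⟩))
      · exact Or.inr (Or.inr (Or.inl ⟨i, hi, q.2, w.2, by simp [mk, cr, ← w.1]⟩))
      · exact Or.inr (Or.inr (Or.inr ⟨fun a => vq a _, fun v _ => Bb.tw_ld' fun j => Bb.t_mq⟩))
    · cases z
    · rcases (Bb.mem _ _).1 u with ⟨q, w, e⟩ | ⟨q, w, e⟩ | e <;> cases e
      rcases z with rfl | rfl
      · by_cases z : q.1 ∈ Λ
        · obtain ⟨j, hj, rfl, z, rfl⟩ := C.dn' hi z w
          exact Or.inr (Or.inl ⟨j, hj, z, Or.inr rfl⟩)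
        · exact Or.inr (Or.inr (Or.inr ⟨fun a => vo a _ _ _ w fun e => z e.1, fun v hv =>
            Bb.tw_lb' fun j e => z (by rwa [← (Bb.f_cr.1 e).1])⟩))
      · exact Or.inr (Or.inr (Or.inr ⟨fun a => vt a _ _, fun v _ => Bb.tw_lt _ _⟩))
  have mt : (mk t 1, false) ∈ (Bb.A (C.cp t)).cells := Bb.f_cr.2 ⟨rfl, Or.inr ⟨rfl, by omega⟩⟩
  have st : ∀ v ∈ Λ, Bb.tw v ∈ Stab (Fre R) := fun v hv => pr_mem fun k _ => Rec.tau_stab fun y hy => by
    by_cases q : ∃ i ∈ C.S, (v, k) = C.cp i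
    · obtain ⟨i, hi, e⟩ := q
      exact Or.inr fun z hz => Or.inr ⟨i, hi, e ▸ hz⟩
    obtain ⟨i, hi, u⟩ : ∃ i ∈ C.S, y.1 ∈ (Bb.A (C.cp i)).slots := by
      rcases hy with rfl | ⟨i, hi, u⟩
      exacts [⟨t, ht, _, mt⟩, ⟨i, hi, Rec.PL_slot u⟩]
    refine Or.inl (Rec.lf_not fun w => q ?_)
    rcases Bb.shared (fun e => q ⟨i, hi, e⟩) w u with ⟨z, -⟩ | ⟨z, -⟩
    · exact C.dn i hi _ hv z
    · obtain ⟨z, e⟩ := C.up i hi _ hv z
      exact ⟨_, (C.nxt i hi z).1, e⟩
  have eq : ∀ v ∈ Λ, ∀ a ∈ P, ∀ y ∈ R, Φ (a * r v) (of y) = Φ a (Bb.tw v (of y)) := by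
    intro v hv a ha y hy
    rcases cs y hy with rfl | ⟨i, hi, u, rfl | rfl⟩ | ⟨i, hi, k, -, rfl⟩ | ⟨u, w⟩
    · show Φ _ (lb _) = Φ a (Bb.tw v (lb _))
      rw [vN, hN a ha v hv]
      split_ifs with q
      · rw [q, Bb.tw_lb (C.col t ht).2 mt, map_mul, vN, (lp a ha t ht).1]
      · rw [Bb.tw_lb' fun j e => q (congrArg Prod.fst (Bb.f_cr.1 e).1), vN, one_mul]
    · show Φ _ (ld _) = Φ a (Bb.tw v (ld _))
      have z := C.nxt i hi u
      rw [(vD _ i hi u).1, hD a ha v hv i hi u]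
      split_ifs with q
      · rw [q, Bb.tw_ld z.2.2.2.1 (Bb.t_cr.2 ⟨rfl, z.2⟩), map_mul, (vD _ i hi u).1,
          ← (lp a ha _ z.1).2.2 ⟨i, hi, u, rfl⟩, hp i hi u]
      · rw [Bb.tw_ld' fun j e => q (congrArg Prod.fst (Bb.t_cr.1 e).1), (vD _ i hi u).1, one_mul]
    · show Φ _ (lb _) = Φ a (Bb.tw v (lb _))
      rw [(vD _ i hi u).2, hB a ha v hv i hi u]
      split_ifs with q
      · rw [q, Bb.tw_lb (C.col i hi).2 (Bb.f_cr.2 ⟨rfl, Or.inl (C.nxt i hi u).2⟩), map_mul,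
          (vD _ i hi u).2, (lp a ha i hi).2.1 u]
      · rw [Bb.tw_lb' fun j e => q (congrArg Prod.fst (Bb.f_cr.1 e).1), (vD _ i hi u).2, one_mul]
    · show Φ _ (ld _) = Φ a (Bb.tw v (ld _))
      rw [Bb.tw_ld' (μ := mk i k) fun j e => (Bb.t_cr.1 e).2.1 rfl, vJ _ i hi, vJ _ i hi]
    · rw [w v hv, u, u]
  have key : x.2 ∈ P ∧ (Bb.rep sym hn hl).ψ x.1 ∈ Stab (Fre R) ∧
      ∀ a ∈ P, ∀ y ∈ Fre R, Φ (a * x.2) y = Φ a ((Bb.rep sym hn hl).ψ x.1 y) := by
    clear av
    induction hx' using Subgroup.closure_induction with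
    | mem _ u =>
      obtain ⟨v, hv, rfl⟩ := u
      rw [Bb.rep_ψ]
      exact ⟨hr v hv, st v hv, fun a ha y hy =>
        Fre.eq _ ((Φ a).comp (Bb.tw v).toMonoidHom) (eq v hv a ha) hy⟩
    | one => simp
    | mul g g' _ _ u v =>
      refine ⟨mul_mem u.1 v.1, by rw [Prod.fst_mul, map_mul]; exact mul_mem u.2.1 v.2.1, fun a ha y hy => ?_⟩
      rw [Prod.snd_mul, ← mul_assoc, v.2.2 _ (mul_mem ha u.1) y hy, u.2.2 a ha _ ((v.2.1 y).2 hy),
        Prod.fst_mul, map_mul, MulAut.mul_apply]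
    | inv g _ u =>
      have w := inv_mem u.2.1
      refine ⟨inv_mem u.1, by rwa [Prod.fst_inv, map_inv], fun a ha y hy => ?_⟩
      have := u.2.2 _ (mul_mem ha (inv_mem u.1)) _ ((w y).2 hy)
      rw [inv_mul_cancel_right, MulAut.apply_inv_self] at this
      rw [Prod.fst_inv, map_inv, this, Prod.snd_inv]
  have m0 : lb (mk t 1) ∈ Fre R := of_mem_Fre (Or.inl rfl)
  rw [← vN, ← one_mul x.2, key.2.2 1 (one_mem _) _ m0]
  refine Fre.map_mem _ (fun y hy => ?_) (Fre.inter ((key.2.1 _).2 m0) (Fre.biInter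
    ((C.S ×ˢ Finset.range 4).filter fun z => (C.cp z.1).1 = s ∧ z.2 ≠ 1)
    (S := fun z => {(cr lo (C.cp z.1) (s, z.2), 0)}ᶜ) fun z hz => by
      simp only [Finset.mem_filter, Finset.mem_product, Finset.mem_range] at hz
      exact av _ hz.1.1 hz.2.1 _ hz.1.2 hz.2.2))
  rcases cs y hy.1 with rfl | ⟨i, hi, u, rfl | rfl⟩ | ⟨i, hi, k, u, rfl⟩ | ⟨u, -⟩
  · exact (vN 1).symm ▸ L1
  · exact (vD 1 i hi u).1.symm ▸ ((L2 i hi).1 u).1
  · exact (vD 1 i hi u).2.symm ▸ ((L2 i hi).1 u).2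
  · rw [show Φ 1 (of _) = _ from vJ 1 i hi k]
    split_ifs with q
    exacts [one_mem _, (L2 i hi).2 (fun e => hy.2 (i, k) (by simp [hi, u, e, q]) (by simp [mk, e])) k]
  · rw [u]; exact one_mem _

/-- An arrow between two sides. -/
def Ar {H : Type} [Group H] (a b : Bool) (w : H) : Equiv.Perm (H × Bool) where
  toFun := fun x => if x.2 = b then (w * x.1, a) else (x.1, !a)
  invFun := fun x => if x.2 = a then (w⁻¹ * x.1, b) else (x.1, !b)
  left_inv := by rintro ⟨x, _ | _⟩ <;> cases a <;> cases b <;> simp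
  right_inv := by rintro ⟨x, _ | _⟩ <;> cases a <;> cases b <;> simp

theorem Ar_mul {H : Type} [Group H] (a b c : Bool) (u v : H) : Ar a b u * Ar b c v = Ar a c (u * v) :=
  Equiv.ext (by rintro ⟨x, _ | _⟩ <;> cases a <;> cases b <;> cases c <;> simp [Ar, mul_assoc])

theorem Ar_one {H : Type} [Group H] (a : Bool) : Ar a a (1 : H) = 1 :=
  Equiv.ext (by rintro ⟨x, _ | _⟩ <;> cases a <;> simp [Ar])

theorem Ar_inv {H : Type} [Group H] (a b : Bool) (u : H) : (Ar a b u)⁻¹ = Ar b a u⁻¹ :=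
  inv_eq_of_mul_eq_one_right (by rw [Ar_mul, mul_inv_cancel, Ar_one])

theorem exists_pair {G A κ : Type} [Group G] [Group A] (f : κ → G) (r : κ → A) {S : Set κ} {g : G}
    (h : g ∈ Subgroup.closure (f '' S)) : ∃ a, (g, a) ∈ Subgroup.closure ((fun v => (f v, r v)) '' S) := by
  have : Subgroup.closure (f '' S) = (Subgroup.closure ((fun v => (f v, r v)) '' S)).map (MonoidHom.fst G A) := by
    rw [MonoidHom.map_closure, image_image]; rfl
  obtain ⟨⟨_, a⟩, u, rfl⟩ := this ▸ h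
  exact ⟨a, u⟩

open Classical Pointwise in
theorem Chn.dc [Finite V] (sym : ∀ s t, m s t = m t s) (hn : ∀ s t, s ≠ t → m s t ≠ 0 → m s t - 1 ∣ n)
    (hl : ∀ s t i, lv s t i < n ↔ i < n) (C : Chn m n lv Λ ι) {t : ι} (ht : t ∈ C.S) {s : V} (hs : s ∈ Λ)
    {A H : Type} [Group A] [Group H] (ac : A →* Equiv.Perm H)
    (hp : ∀ a u v w, ac a (u * v⁻¹ * w) = ac a u * (ac a v)⁻¹ * ac a w) (P : Subgroup A) (r : V → A)
    (d b : ι → H) (c : H) (J : ℕ → ι → H) (hr : ∀ v ∈ Λ, r v ∈ P)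
    (hJ : ∀ a ∈ P, ∀ i ∈ C.S, ∀ u, ac a (J 0 i * u) = J 0 i * ac a u ∧ ac a (J 2 i * u) = J 2 i * ac a u ∧
      ac a (u * J 3 i) = ac a u * J 3 i)
    (h0 : ∀ a ∈ P, ∀ i ∈ C.S, (¬ C.nb i → ac a (d i) = 1) ∧
      ((∀ j ∈ C.S, C.nb j → C.nx j ≠ i) → ac a (b i) = 1))
    (hN : ∀ v ∈ Λ, ac (r v) c = (if v = (C.cp t).1 then J 2 t * d t * J 3 t * (b t)⁻¹ * J 0 t else 1) * c)
    (hB : ∀ v ∈ Λ, ∀ i ∈ C.S, C.nb i → ac (r v) (b (C.nx i)) = (if v = (C.cp i).1 then
      d i * J 3 i * (b i)⁻¹ * J 0 i * J 2 i else 1) * b (C.nx i))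
    (hD : ∀ v ∈ Λ, ∀ i ∈ C.S, C.nb i → ac (r v) (d i) = (if v = (C.cp (C.nx i)).1 then
      J 0 (C.nx i) * J 2 (C.nx i) * d (C.nx i) * J 3 (C.nx i) * (b (C.nx i))⁻¹ else 1) * d i)
    (K : Subgroup H) (z x : ι → Bool) (hz : ∀ i ∈ C.S, C.nb i → z (C.nx i) = x i ∧
      (x i → d i ∈ K ∧ b (C.nx i) ∈ K))
    (hs' : ∀ i ∈ C.S, (C.cp i).1 ≠ s → x i = z i ∧ (z i → ∀ k, J k i ∈ K))
    (hc : c ∈ K) (ht' : (C.cp t).1 ≠ s → z t)
    (fin : ∀ g a, (g, a) ∈ Subgroup.closure ((fun v => (PresentedGroup.of v, r v)) '' Λ) →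
      ac a c ∈ K → DC m (Λ \ {s}) (Λ \ {(C.cp t).1}) g) : Dc m Λ {s} {(C.cp t).1} := by
  intro lo
  obtain ⟨R, mk, h⟩ := C.main sym hn hl ht lo
  have ne : ∀ i k, k ≠ 1 → cr lo (C.cp i) (s, k) ≠ cr lo (C.cp t) ((C.cp t).1, 1) := by
    simp +contextual [cr]
  refine ⟨_, R, insert (cr lo (C.cp t) ((C.cp t).1, 1)) (((C.S ×ˢ Finset.range 4).filter
    fun p => (C.cp p.1).1 = s ∧ p.2 ≠ 1).image fun p => cr lo (C.cp p.1) (s, p.2)),
    fun ν => decide (ν = cr lo (C.cp t) ((C.cp t).1, 1)), fun ν hν => ?_, ?_⟩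
  · rcases Finset.mem_insert.1 hν with rfl | hν
    · exact mk _ _ _ (by simp [(C.col t ht).1])
    · obtain ⟨p, a, rfl⟩ := Finset.mem_image.1 hν
      obtain ⟨-, rfl, a'⟩ := Finset.mem_filter.1 a
      exact mk _ _ _ (by simp [ne _ _ a', hs])
  rintro g _ _ ⟨rfl, rfl, hg, ng⟩
  by_contra! q
  obtain ⟨a, ha⟩ := exists_pair _ r hg
  let y : ι → Bool := fun i => if (C.cp i).1 = s then true else z i
  have yt : y t = true := by simp only [y]; split_ifs with e; exacts [rfl, ht' e]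
  let L : Subgroup (Equiv.Perm (H × Bool)) :=
    MulAction.stabilizer _ {p : H × Bool | p.1 ∈ K ∧ p.2 = true}
  have mL : ∀ σ w, (σ = true → w ∈ K) → Ar σ σ w ∈ L := fun σ w e => by
    refine Set.ext fun p => ?_
    rw [mem_smul_set_iff_inv_smul_mem, Ar_inv]
    obtain ⟨p, _ | _⟩ := p <;> cases σ <;> simp [Ar]
    exact K.mul_mem_cancel_left (inv_mem (e rfl))
  have := h A _ P r (fun a i => Ar (x i) (x i) (ac a (d i))) (fun a i => Ar (z i) (z i) (ac a (b i)))
    (fun a => Ar (y t) (y t) (ac a c)) (fun k i => if k = 0 then Ar (z i) (y i) (J 0 i) else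
      if k = 2 then Ar (y i) (x i) (J 2 i) else Ar (x i) (z i) (J 3 i)) hr
    (fun a ha i hi => ⟨fun e => by rw [(h0 a ha i hi).1 e, Ar_one],
      fun e => by rw [(h0 a ha i hi).2 e, Ar_one]⟩) (fun a ha v hv => ?_) (fun a ha v hv i hi u => ?_)
    (fun a ha v hv i hi u => ?_) L s (mL _ _ fun _ => by simpa using hc) (fun i hi => ⟨fun u =>
      ⟨mL _ _ fun e => by simpa using ((hz i hi u).2 e).1, mL _ _ fun e => by
        simpa using ((hz i hi u).2 ((hz i hi u).1 ▸ e)).2⟩, fun e k => ?_⟩) _ ha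
    fun i hi e k u v => q _ (by simp) _ (Finset.mem_insert_of_mem (Finset.mem_image.2 ⟨(i, k), by
      simp [hi, e, u, v], rfl⟩)) (by simp) (by simp [ne i k v])
  · refine ng (fin g a ha ?_)
    have := (Set.ext_iff.1 this _).1 (smul_mem_smul_set (show ((1 : H), true) ∈ _ from ⟨one_mem _, rfl⟩))
    simpa [Ar, yt] using this
  · rw [map_mul, Equiv.Perm.mul_apply, hN v hv]
    by_cases e : v = (C.cp t).1
    swap
    · simp only [if_neg e, one_mul]
    · have := hJ a ha t ht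
      simp only [if_pos e, if_true, OfNat.ofNat_ne_zero, if_false, Nat.reduceEqDiff, Ar_inv, Ar_mul]
      rw [show J 2 t * d t * J 3 t * (b t)⁻¹ * J 0 t * c = J 2 t * (d t * J 3 t * (b t)⁻¹ * (J 0 t * c)) by
        simp only [mul_assoc], (this _).2.1, hp, (this _).1, (this _).2.2]
      simp only [mul_assoc]
  · rw [map_mul, Equiv.Perm.mul_apply, hB v hv i hi u]
    by_cases e : v = (C.cp i).1
    swap
    · simp only [if_neg e, one_mul]
    · have := hJ a ha i hi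
      simp only [if_pos e, if_true, OfNat.ofNat_ne_zero, if_false, Nat.reduceEqDiff, Ar_inv, Ar_mul, (hz i hi u).1]
      rw [mul_assoc _ (J 2 i), mul_assoc _ (J 0 i), hp, (this _).1, (this _).2.1, (this _).2.2]
      simp only [mul_assoc]
  · rw [map_mul, Equiv.Perm.mul_apply, hD v hv i hi u]
    by_cases e : v = (C.cp (C.nx i)).1
    swap
    · simp only [if_neg e, one_mul]
    · have := hJ a ha _ (C.nxt i hi u).1
      simp only [if_pos e, if_true, OfNat.ofNat_ne_zero, if_false, Nat.reduceEqDiff, Ar_inv, Ar_mul, ← (hz i hi u).1]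
      generalize C.nx i = j at this
      rw [show J 0 j * J 2 j * d j * J 3 j * (b j)⁻¹ * d i = J 0 j * (J 2 j * (d j * J 3 j * (b j)⁻¹ * d i)) by
        simp only [mul_assoc], (this _).1, (this _).2.1, hp, (this _).2.2]
      simp only [mul_assoc]
  · obtain ⟨u, v⟩ := hs' i hi e
    simp only [y, if_neg e, u]
    split_ifs <;> exact mL _ _ fun w => v w _

end Pool.Agent.MP_6eaae3_al.Cl

end MrgPart1

-- ======== part 2: formerly Pool.Agent.MP_6eaae3_al.Cl.Dbl
section MrgPart2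

/-! Double cosets of parabolic subgroups, read off from the action on the free product. -/

namespace Pool.Agent.MP_6eaae3_al.Cl

open Subgroup Set

theorem Bk.comm {a t b : ℕ} {q q'} (hq : q ∈ Bk a t) (hq' : q' ∈ Bk t b) : Commute q q' :=
  Bk.ind (K := centralizer {q}) (fun j u _ _ e => e ▸ (Bk.ind (K := centralizer {sg j})
    (fun i _ v _ e => e ▸ ((braidRel_sg 0 (j + 1)).comm i j (Nat.zero_le _) (by omega)
      (by omega)).symm.eq) hq _ rfl).symm) hq' _ rfl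

theorem Bk.dcL {N s t : ℕ} (ts : t ≤ s) (sN : s ≤ N) {g} (hg : g ∈ Bk 0 N)
    (h : g (Cw 0 t) ∈ GS (Iio s)) : ∃ p ∈ Bk 0 s, ∃ q ∈ Bk t N, g = p * q := by
  obtain ⟨p, hp, q, hq, q', hq', rfl⟩ := Bk.dc (ts.trans sN) hg h sN
  exact ⟨p * q, mul_mem hp (Bk.mono le_rfl ts hq), q', hq', by rw [← (Bk.comm hq hq').eq, mul_assoc]⟩

/-- Reversal of the first `N` letters. -/
def om (N : ℕ) : MulAut Gm :=
  MonoidHom.toMulEquiv (lft (fun j => xx (if j < N then N - 1 - j else j)) fun _ => by simp)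
    (lft (fun j => xx (if j < N then N - 1 - j else j)) fun _ => by simp)
    (hom_ext fun j => by simp only [MonoidHom.comp_apply, lft_xx, MonoidHom.id_apply]; congr 1; split_ifs <;> omega)
    (hom_ext fun j => by simp only [MonoidHom.comp_apply, lft_xx, MonoidHom.id_apply]; congr 1; split_ifs <;> omega)

theorem om_xx (N j : ℕ) : om N (xx j) = xx (if j < N then N - 1 - j else j) := by
  simp only [om, MonoidHom.toMulEquiv_apply, lft_xx]

theorem om_om (N : ℕ) : om N * om N = 1 := autx fun j => by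
  simp only [MulAut.mul_apply, om_xx, MulAut.one_apply]; congr 1; split_ifs <;> omega

theorem om_sg {N i : ℕ} (h : i + 1 < N) : om N * sg i * (om N)⁻¹ = (sg (N - 2 - i))⁻¹ := by
  rw [mul_inv_eq_iff_eq_mul]
  refine autx fun j => ?_
  simp only [MulAut.mul_apply, om_xx, sg_xx, sg_inv_xx]
  by_cases h1 : j = i
  · rw [if_pos h1, om_xx, if_pos h, if_pos (show j < N by omega), if_neg (by omega), if_pos (by omega)]
    congr 1; omega
  by_cases h2 : j = i + 1
  · rw [if_neg h1, if_pos h2, map_mul, map_mul, om_xx, om_xx, if_pos h, if_pos (show i < N by omega),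
      if_pos (show j < N by omega), if_pos (by omega), show N - 1 - (i + 1) = N - 2 - i by omega,
      show N - 1 - i = N - 2 - i + 1 by omega]
  · have : ∀ k, k ≠ N - 2 - i → k ≠ N - 2 - i + 1 → xx k = if k = N - 2 - i then
        xx (N - 2 - i) * xx (N - 2 - i + 1) * xx (N - 2 - i) else if k = N - 2 - i + 1 then
        xx (N - 2 - i) else xx k := fun k a b => by rw [if_neg a, if_neg b]
    rw [if_neg h1, if_neg h2, om_xx]
    exact this _ (by split_ifs <;> omega) (by split_ifs <;> omega)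

theorem om_Bk {N a b : ℕ} (h : b ≤ N) {q} (hq : q ∈ Bk a b) :
    om N * q * (om N)⁻¹ ∈ Bk (N - b) (N - a) :=
  Bk.ind (K := (Bk (N - b) (N - a)).comap (MulAut.conj (om N)).toMonoidHom) (fun i u v => by
    show om N * sg i * (om N)⁻¹ ∈ Bk (N - b) (N - a)
    rw [om_sg (by omega)]
    exact inv_mem (sg_mem (by omega) (by omega))) hq

theorem om_Cw {N k : ℕ} (h : k ≤ N) : om N (Cw 0 k) = (Cw (N - k) N)⁻¹ := by
  induction k with
  | zero => simp [Cw, Cw_le]
  | succ k ih =>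
    rw [Cw_succ (Nat.zero_le _), map_mul, ih (by omega), om_xx, if_pos (by omega),
      ← Cw_mul (a := N - (k + 1)) (b := N - k) (by omega) (by omega), mul_inv_rev,
      show N - k = N - (k + 1) + 1 by omega, Cw_succ le_rfl, Cw_le le_rfl]
    simp only [mul_one, xx_inv]; congr 2; omega

theorem Bk.dcR {N s t : ℕ} (st : s ≤ t) (tN : t ≤ N) {g} (hg : g ∈ Bk 0 N)
    (h : g (Cw 0 t) * (Cw 0 t)⁻¹ ∈ GS (Ici s)) : ∃ p ∈ Bk s N, ∃ q ∈ Bk 0 t, g = p * q := by
  have i : (om N)⁻¹ = om N := inv_eq_of_mul_eq_one_right (om_om N)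
  have e : g (Cw t N) = Cw t N * (g (Cw 0 t) * (Cw 0 t)⁻¹)⁻¹ := by
    have := Bk.fix_Cw hg (c := 0) (d := N) (Or.inl le_rfl) (Or.inr le_rfl)
    rw [← Cw_mul (Nat.zero_le t) tN, map_mul] at this
    rw [eq_mul_inv_of_mul_eq this]; group
  have m : g (Cw t N) ∈ GS (Ico s N) := by
    have a := Bk.map_GS hg subset_rfl (GS.mono (Ico_subset_Ico_left (Nat.zero_le t)) (Cw_mem t N))
    have b : g (Cw t N) ∈ GS (Ici s) :=
      e ▸ mul_mem (GS.mono (fun _ u => st.trans u.1) (Cw_mem t N)) (inv_mem h)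
    exact mem_GS.2 fun j hj => ⟨mem_GS.1 b j hj, (mem_GS.1 a j hj).2⟩
  obtain ⟨p, hp, q, hq, u⟩ := Bk.dcL (N := N) (s := N - s) (t := N - t) (by omega) (by omega)
    (by simpa using om_Bk le_rfl hg) (by
      rw [MulAut.mul_apply, MulAut.mul_apply, i, om_Cw (by omega), show N - (N - t) = t by omega,
        map_inv, map_inv]
      refine inv_mem (GS.map (om N) (fun j hj => ?_) m)
      rw [om_xx, if_pos hj.2]
      exact xx_mem (mem_Iio.2 (by have := hj.1; have := hj.2; omega)))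
  have hp := om_Bk (Nat.sub_le N s) hp
  have hq := om_Bk le_rfl hq
  rw [show N - (N - s) = s by omega, Nat.sub_zero] at hp
  rw [show N - (N - t) = t by omega, Nat.sub_self] at hq
  refine ⟨_, hp, _, hq, ?_⟩
  rw [show om N * p * (om N)⁻¹ * (om N * q * (om N)⁻¹) = om N * (p * q) * (om N)⁻¹ by group, ← u, i,
    ← mul_assoc, ← mul_assoc, om_om, one_mul, mul_assoc, om_om, mul_one]

/-- Automorphisms that keep the type of a letter. -/
def Fx (j : ℕ) : Subgroup (MulAut Gm) where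
  carrier := {q | Rf (q (xx j)) j}
  one_mem' := rf_xx j
  mul_mem' := fun {q _} h h' => Rf.map q h' h
  inv_mem' := fun {q} ⟨A, e⟩ => ⟨(q⁻¹ A)⁻¹, by
    have : xx j = q⁻¹ A * q⁻¹ (xx j) * (q⁻¹ A)⁻¹ := by
      rw [← map_inv, ← map_mul, ← map_mul, ← e, MulAut.inv_apply_self]
    conv_rhs => rw [this]
    group⟩

theorem fx_of {q : MulAut Gm} {j : ℕ} (h : q (xx j) = xx j) : q ∈ Fx j := by
  show Rf _ _; rw [h]; exact rf_xx j

theorem sg_fx {i j : ℕ} (h : j ≠ i) (h' : j ≠ i + 1) : sg i ∈ Fx j := fx_of (by simp [sg_xx, h, h'])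

theorem sq_xx (i j : ℕ) : (sg i ^ 2) (xx j) = if j = i ∨ j = i + 1 then
    xx (i + 1) * xx i * xx j * (xx (i + 1) * xx i)⁻¹ else xx j := by
  rw [sq, MulAut.mul_apply]
  by_cases h1 : j = i
  · simp [sg_xx, h1, mul_assoc]
  by_cases h2 : j = i + 1 <;> simp [sg_xx, h1, h2, mul_assoc]

theorem sq_fx (i j : ℕ) : sg i ^ 2 ∈ Fx j := by
  show Rf _ _
  rw [sq_xx]; split_ifs
  exacts [⟨_, rfl⟩, rf_xx j]

theorem gen_fx {g : ℕ → MulAut Gm} {b : ℕ} (h : BraidRel g 0 b) (pos : ℕ → ℕ)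
    (inj : ∀ k ≤ b, pos k = pos 0 → k = 0) (h1 : ∀ k < b, Rf (g k (xx (pos k))) (pos (k + 1)))
    (h2 : g 0 ^ 2 ∈ Fx (pos 0)) (h3 : ∀ k, 0 < k → k < b → g k ∈ Fx (pos 0)) {p}
    (hp : p ∈ closure (g '' Ico 0 b)) (fx : p ∈ Fx (pos 0)) :
    p ∈ closure (insert (g 0 ^ 2) (g '' Ico 1 b)) := by
  obtain ⟨k, hk, e⟩ := h.coset hp 0 (by omega)
  have hd : ∀ k ≤ b, Rf (cosD g 0 k (xx (pos 0))) (pos k) := fun k => by
    induction k with
    | zero => exact fun _ => rf_xx _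
    | succ k ih => exact fun u => (ih (by omega)).map (g (0 + k)) (by simpa using h1 k u)
  have : (cosD g 0 k)⁻¹ * p * cosD g 0 0 ∈ Fx (pos 0) := (closure_le _).2 (by
    rintro _ (rfl | ⟨i, hi, rfl⟩)
    exacts [h2, h3 i hi.1 hi.2]) e
  have : cosD g 0 k ∈ Fx (pos 0) := by
    simpa [cosD] using mul_mem fx (inv_mem this)
  obtain rfl := inj k (by omega) ((hd k (by omega)).eq this)
  simpa [cosD] using e

/-- The generators of a linear diagram, with squares at the special ends. -/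
def rr (l r : Bool) (n i : ℕ) : MulAut Gm :=
  if (l ∧ i = 0) ∨ (r ∧ i + 1 = n) then sg i ^ 2 else sg i

variable {l r : Bool} {n : ℕ}

theorem mem_cl {G : Type*} [Group G] {f : ℕ → G} {S : Set ℕ} {y : G} (i : ℕ) (h : i ∈ S)
    (e : f i = y) : y ∈ closure (f '' S) := Subgroup.subset_closure ⟨i, h, e⟩

theorem genL {c : ℕ} (hc : c < n) {p} (hp : p ∈ Bk 0 (c + 1)) (fx : l → p ∈ Fx 0) :
    p ∈ closure (rr l r n '' Iio c) := by
  cases l
  · exact Bk.ind (fun i _ v => mem_cl i (show i < c by omega) (by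
      rw [rr, if_neg (by simp; omega)])) hp
  rcases c.eq_zero_or_pos with rfl | h0
  · exact Bk.ind (fun i _ v => by omega) hp
  refine (closure_le _).2 ?_ (gen_fx (braidRel_sg 0 c) id (fun _ _ e => e)
    (fun k _ => by simp [sg_xx, rf_xx]) (sq_fx _ _) (fun k u _ => sg_fx u.ne (by simp))
    (Bk.ind (fun i u v => mem_cl i (mem_Ico.2 ⟨u, by omega⟩) rfl) hp) (fx rfl))
  rintro _ (rfl | ⟨i, hi, rfl⟩)
  · exact Subgroup.subset_closure ⟨0, h0, by simp [rr]⟩
  · exact Subgroup.subset_closure ⟨i, hi.2, by rw [rr, if_neg (by have := hi.1; have := hi.2; simp; omega)]⟩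

theorem genR {c : ℕ} {p} (hp : p ∈ Bk (c + 1) (n + 1)) (fx : r → p ∈ Fx n) :
    p ∈ closure (rr l r n '' Ioo c n) := by
  cases r
  · exact Bk.ind (fun i u v => mem_cl i (mem_Ioo.2 ⟨by omega, by omega⟩) (by
      rw [rr, if_neg (by simp; omega)])) hp
  by_cases h0 : n ≤ c + 1
  · exact Bk.ind (fun i _ v => by omega) hp
  have br : BraidRel (fun i => sg (n - 1 - i)) 0 (n - 1 - c) := ⟨fun i _ v => by
      have := (braidRel_sg 0 n).braid (n - 1 - (i + 1)) (Nat.zero_le _) (by omega)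
      rw [show n - 1 - (i + 1) + 1 = n - 1 - i by omega] at this
      exact this.symm,
    fun i j _ u v => ((braidRel_sg 0 n).comm _ _ (Nat.zero_le _) (by omega) (by omega)).symm⟩
  have hp' : p ∈ closure ((fun i => sg (n - 1 - i)) '' Ico 0 (n - 1 - c)) :=
    Bk.ind (fun i u v => mem_cl (n - 1 - i) (mem_Ico.2 ⟨Nat.zero_le _, by omega⟩)
      (by rw [show n - 1 - (n - 1 - i) = i by omega])) hp
  refine (closure_le _).2 ?_ (gen_fx br (fun k => n - k) (fun _ _ e => by omega)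
    (fun k _ => ?_) (sq_fx _ _) (fun k u _ => sg_fx (by omega) (by omega)) hp' (fx rfl))
  · rintro _ (rfl | ⟨i, hi, rfl⟩)
    · exact Subgroup.subset_closure ⟨n - 1, ⟨by omega, by omega⟩, by rw [rr, if_pos (by simp; omega)]; rfl⟩
    · have := hi.1; have := hi.2
      exact Subgroup.subset_closure ⟨n - 1 - i, ⟨by omega, by omega⟩, by rw [rr, if_neg (by simp; omega)]⟩
  · rw [sg_xx, if_neg (by omega), if_pos (by omega), show n - (k + 1) = n - 1 - k by omega]
    exact ⟨xx (n - 1 - k + 1), by simp⟩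

theorem rr_mem {a} (ha : a ∈ closure (rr l r n '' Iio n)) :
    a ∈ Bk 0 (n + 1) ∧ (l → a ∈ Fx 0) ∧ (r → a ∈ Fx n) := by
  refine ⟨(closure_le _).2 ?_ ha, fun e => (closure_le _).2 ?_ ha, fun e => (closure_le _).2 ?_ ha⟩ <;>
    rintro _ ⟨i, hi, rfl⟩ <;> unfold rr <;> split_ifs with q
  · exact pow_mem (sg_mem (Nat.zero_le _) (Nat.succ_lt_succ hi)) _
  · exact sg_mem (Nat.zero_le _) (Nat.succ_lt_succ hi)
  · exact sq_fx _ _
  · exact sg_fx (fun f => q (Or.inl ⟨e, f.symm⟩)) (by omega)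
  · exact sq_fx _ _
  · exact sg_fx (ne_of_gt hi) fun f => q (Or.inr ⟨e, f.symm⟩)

theorem dcp {a} (ha : a ∈ closure (rr l r n '' Iio n))
    {s t : ℕ} (hs : s < n) (ht : t < n) (h : if t ≤ s then a (Cw 0 (t + 1)) ∈ GS (Iio (s + 1))
      else a (Cw 0 (t + 1)) * (Cw 0 (t + 1))⁻¹ ∈ GS (Ici (s + 1))) :
    ∃ p ∈ closure (rr l r n '' (Iio n \ {s})), ∃ q ∈ closure (rr l r n '' (Iio n \ {t})), a = p * q := by
  obtain ⟨a1, a2, a3⟩ := rr_mem ha
  have mL : ∀ c < n, closure (rr l r n '' Iio c) ≤ closure (rr l r n '' (Iio n \ {c})) :=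
    fun c u => closure_mono (image_mono fun i (hi : i < c) => ⟨hi.trans u, hi.ne⟩)
  have mR : ∀ c, closure (rr l r n '' Ioo c n) ≤ closure (rr l r n '' (Iio n \ {c})) :=
    fun c => closure_mono (image_mono fun i hi => ⟨hi.2, hi.1.ne'⟩)
  split_ifs at h with ts
  · obtain ⟨p, hp, q, hq, rfl⟩ := Bk.dcL (Nat.succ_le_succ ts) (by omega) a1 h
    exact ⟨p, mL s hs (genL hs hp fun e => (mul_mem_cancel_right (fx_of (Bk.fix_xx hq (by omega)))).1
      (a2 e)), q, mR t (genR hq fun e => (mul_mem_cancel_left (fx_of (Bk.fix_xx hp (by omega)))).1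
      (a3 e)), rfl⟩
  · obtain ⟨p, hp, q, hq, rfl⟩ := Bk.dcR (by omega) (by omega) a1 h
    exact ⟨p, mR s (genR hp fun e => (mul_mem_cancel_right (fx_of (Bk.fix_xx hq (by omega)))).1
      (a3 e)), q, mL t ht (genL ht hq fun e => (mul_mem_cancel_left (fx_of (Bk.fix_xx hp (by omega)))).1
      (a2 e)), rfl⟩

end Pool.Agent.MP_6eaae3_al.Cl

end MrgPart2

-- ======== part 3: formerly Pool.Agent.MP_6eaae3_al.Cl.Ping
section MrgPart3

/-! The loops of one point around the others generate a free group. -/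

namespace Pool.Agent.MP_6eaae3_al.Cl

open Subgroup Set

/-- The first letter is outside `S`. -/
def Out (S : Set ℕ) (r : Gm) : Prop := ∀ i ∈ (wd r).head?, i ∉ S

theorem wd_mul {S : Set ℕ} {d r : Gm} (hd : d ∈ GS S) (hr : Out S r) : wd (d * r) = wd d ++ wd r := by
  rw [← wd_ev ((rd_wd d).append (rd_wd r) fun a ha b hb e =>
    hr b hb (e ▸ mem_GS.1 hd a (List.mem_of_mem_getLast? ha))), ev_append, ev_wd, ev_wd]

theorem dec (S : Set ℕ) (g : Gm) :
    ∃ d ∈ GS S, ∃ r, Out S r ∧ g = d * r ∧ (wd r).length ≤ (wd g).length := by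
  classical
  have e := List.takeWhile_append_dropWhile (p := fun i => decide (i ∈ S)) (l := wd g)
  have r : Rd ((wd g).dropWhile fun i => decide (i ∈ S)) := (e ▸ rd_wd g).right_of_append
  refine ⟨_, ev_mem fun i hi => of_decide_eq_true (List.mem_takeWhile_imp (p := fun i => decide (i ∈ S)) hi), _, ?_,
    by rw [← ev_append, e, ev_wd], ?_⟩
  · rw [Out, wd_ev r]
    intro i hi
    have := List.head?_dropWhile_not (fun i => decide (i ∈ S)) (wd g)
    rw [hi] at this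
    simpa using this
  · rw [wd_ev r]; exact (List.dropWhile_sublist _).length_le

theorem hd_split {g : Gm} {c : ℕ} (h : (wd g).head? = some c) :
    ∃ g', g = xx c * g' ∧ (wd g').head? ≠ some c ∧ (wd g').length < (wd g).length := by
  obtain ⟨l, hl⟩ : ∃ l, wd g = c :: l := by revert h; cases wd g <;> simp_all
  have r := rd_cons.1 (hl ▸ rd_wd g)
  exact ⟨ev l, by rw [← ev_cons, ← hl, ev_wd], by rw [wd_ev r.2]; exact r.1, by simp [wd_ev r.2, hl]⟩

theorem hd_mul {S : Set ℕ} {d r : Gm} (hd : d ∈ GS S) (hr : Out S r) (h : d ≠ 1) :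
    (wd (d * r)).head? = (wd d).head? := by
  rw [wd_mul hd hr, List.head?_append_of_ne_nil _ (mt wd_eq_nil.1 h)]

theorem hd_pres {S : Set ℕ} (φ : MulAut Gm) (h1 : ∀ i ∈ S, φ (xx i) ∈ GS S)
    (h2 : ∀ i ∉ S, φ (xx i) = xx i) {r : Gm} (hr : Out S r) : (wd (φ r)).head? = (wd r).head? := by
  induction h : (wd r).length using Nat.strong_induction_on generalizing r with
  | _ n ih =>
  cases e : (wd r).head? with
  | none => simp [wd_eq_nil.1 (List.head?_eq_none_iff.1 e)]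
  | some c =>
    obtain ⟨g, rfl, n1, n2⟩ := hd_split e
    obtain ⟨d, hd, r', o, rfl, n3⟩ := dec S g
    have i := ih _ (by omega) o rfl
    rw [map_mul, h2 c (hr c e), wd_cons]; · rfl
    by_cases q : d = 1
    · simpa [q, i] using n1
    · have m := GS.map φ h1 hd
      rw [map_mul, hd_mul m (fun j hj => o j (i ▸ hj)) (by simpa using q)]
      exact fun u => hr c e (mem_GS.1 m c (List.mem_of_mem_head? u))

theorem wd_inv (g : Gm) : wd g⁻¹ = (wd g).reverse := by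
  rw [← wd_ev (Rd.rev (rd_wd g)), ev_reverse, ev_wd]

theorem hd_right {g : Gm} {i j : ℕ} (h : (wd g).head? = some i) (ne : i ≠ j) :
    (wd (g * xx j)).head? = some i := by
  obtain ⟨l, hl⟩ : ∃ l, wd g = i :: l := by revert h; cases wd g <;> simp_all
  rw [show g * xx j = (xx j * g⁻¹)⁻¹ by simp, wd_inv, wd_xx_mul, wd_inv, hl, List.head?_reverse,
    List.reverse_cons, cs]
  cases l.reverse <;> split_ifs <;> simp_all [List.getLast?_cons]

open Classical in
noncomputable def pcH (S : Set ℕ) (γ : Gm) : Gm →* Gm :=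
  lft (fun i => if i ∈ S then γ * xx i * γ⁻¹ else xx i) fun i => by split_ifs <;> simp [mul_assoc]

theorem pcH_out {S : Set ℕ} (γ : Gm) {i : ℕ} (h : i ∉ S) : pcH S γ (xx i) = xx i := by simp [pcH, h]

theorem pcH_in {S : Set ℕ} (γ : Gm) {g : Gm} (h : g ∈ GS S) : pcH S γ g = γ * g * γ⁻¹ :=
  GS.eq (pcH S γ) (MulAut.conj γ) (fun i hi => by simp [pcH, hi]) h

theorem pcH_inv {S : Set ℕ} {γ : Gm} (h : γ ∈ GS S) :
    (pcH S γ⁻¹).comp (pcH S γ) = MonoidHom.id _ := hom_ext fun i => by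
  by_cases e : i ∈ S
  · simp [pcH_in _ (xx_mem e), pcH_in _ h, mul_assoc]
  · simp [pcH_out _ e]

/-- Conjugation of a free factor. -/
noncomputable def pc (S : Set ℕ) {γ : Gm} (h : γ ∈ GS S) : MulAut Gm :=
  MonoidHom.toMulEquiv (pcH S γ) (pcH S γ⁻¹) (pcH_inv h) (by simpa using pcH_inv (inv_mem h))

theorem pc_out {S : Set ℕ} {γ : Gm} (h : γ ∈ GS S) {i : ℕ} (hi : i ∉ S) : pc S h (xx i) = xx i :=
  pcH_out _ hi

theorem pc_in {S : Set ℕ} {γ : Gm} (h : γ ∈ GS S) {g : Gm} (hg : g ∈ GS S) :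
    pc S h g = γ * g * γ⁻¹ := pcH_in _ hg

theorem pc_hd {S : Set ℕ} {γ : Gm} (h : γ ∈ GS S) {r : Gm} (hr : Out S r) :
    (wd (pc S h r)).head? = (wd r).head? :=
  hd_pres _ (fun _ a => pc_in h (xx_mem a) ▸ mul_mem (mul_mem h (xx_mem a)) (inv_mem h))
    (fun _ => pc_out h) hr

variable (a k : ℕ)

noncomputable def be : MulAut Gm := pc (Ioc a (a + k + 1)) (xx_mem (i := a + k + 1) (by simp))

def dl (s : Bool) : Gm := if s then xx (a + k + 1) * xx a else xx a * xx (a + k + 1)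

theorem dl_mem (s : Bool) : dl a k s ∈ GS {a, a + k + 1} := by
  have u : xx a ∈ GS {a, a + k + 1} := xx_mem (by simp)
  have v : xx (a + k + 1) ∈ GS {a, a + k + 1} := xx_mem (by simp)
  cases s
  exacts [mul_mem u v, mul_mem v u]

/-- The loop of the point `a` around the point `a + k + 1` and its inverse. -/
noncomputable def TT (s : Bool) : MulAut Gm := be a k * pc _ (dl_mem a k s) * be a k

theorem be_fix {d : Gm} (h : d ∈ GS {a, a + k + 1}) : be a k d = d :=
  GS.eq (be a k) (MonoidHom.id _) (by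
    rintro _ (rfl | rfl)
    · exact pc_out _ (by simp)
    · exact (pc_in _ (xx_mem (by simp))).trans (by simp)) h

theorem TT_xx (s : Bool) (i : ℕ) : TT a k s (xx i) = if i = a ∨ i = a + k + 1 then
    dl a k s * xx i * (dl a k s)⁻¹ else if a < i ∧ i < a + k + 1 then
      dl a k s * dl a k s * xx i * (dl a k s * dl a k s)⁻¹ else xx i := by
  simp only [TT, MulAut.mul_apply]
  split_ifs with h1 h2
  · have := xx_mem (S := {a, a + k + 1}) h1
    rw [be_fix _ _ this, pc_in _ this,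
      be_fix _ _ (mul_mem (mul_mem (dl_mem _ _ _) this) (inv_mem (dl_mem _ _ _)))]
  · have e : be a k (xx i) = _ := pc_in _ (xx_mem ⟨h2.1, h2.2.le⟩)
    have m := xx_mem (S := {a, a + k + 1}) (Or.inr rfl)
    rw [e, map_mul (pc _ _), map_mul (pc _ _), map_inv, pc_in _ m, pc_out (S := {a, a + k + 1}) _ h1]
    simp only [map_mul, map_inv, e, be_fix _ _ m, be_fix _ _ (dl_mem _ _ _)]
    cases s <;> simp [dl, mul_assoc]
  · have e : be a k (xx i) = xx i := pc_out _ (by simp; omega)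
    rw [e, pc_out (S := {a, a + k + 1}) _ h1, e]

theorem TT_inv : (TT a k true)⁻¹ = TT a k false := by
  refine inv_eq_of_mul_eq_one_right (autx fun i => ?_)
  have u := TT_xx a k true a
  have v := TT_xx a k true (a + k + 1)
  rw [if_pos (by simp)] at u v
  rw [MulAut.mul_apply, TT_xx]
  split_ifs with h1 h2
  · rcases h1 with rfl | rfl <;> simp [dl, u, v, mul_assoc]
  · have w := TT_xx a k true i
    rw [if_neg h1, if_pos h2] at w
    simp [dl, u, v, w, mul_assoc]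
  · rw [TT_xx, if_neg h1, if_neg h2]; rfl

def In (r : Gm) : Prop := ∃ i ∈ (wd r).head?, a < i ∧ i < a + k + 1

open Classical in
noncomputable def ep (r : Gm) : Gm := if In a k r then xx (a + k + 1) else 1

theorem be_hd {r : Gm} (hr : Out {a, a + k + 1} r) :
    (wd (ep a k r * be a k r)).head? = (wd r).head? := by
  unfold ep
  split_ifs with h
  · obtain ⟨i, e, u, v⟩ := h
    obtain ⟨d, hd, r', o, rfl, -⟩ := dec (Ioc a (a + k + 1)) r
    have n : d ≠ 1 := fun q => o i (by simpa [q] using e) ⟨u, v.le⟩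
    have f := hd_right ((hd_mul hd o n).symm.trans e) v.ne
    have o' : Out (Ioc a (a + k + 1)) (be a k r') := fun j hj => o j (pc_hd _ o ▸ hj)
    rw [map_mul, show be a k d = _ from pc_in _ hd, e, ← f,
      ← hd_mul (mul_mem hd (xx_mem (by simp))) o' (fun q => by simp [q] at f)]
    simp [mul_assoc]
  · rw [one_mul]
    exact pc_hd _ fun i e u => h ⟨i, e, u.1, lt_of_le_of_ne u.2 fun q => hr i e (Or.inr q)⟩

theorem ping_step (s : Bool) {d r : Gm} (hd : d ∈ GS {a, a + k + 1}) (hr : Out {a, a + k + 1} r) :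
    ∃ r', (wd r').head? = (wd r).head? ∧ (dl a k s)⁻¹ * TT a k s (d * r) =
      d * (ep a k r * (dl a k s)⁻¹ * ep a k r) * r' := by
  have m : ∀ r, ep a k r ∈ GS {a, a + k + 1} ∧ ep a k r * ep a k r = 1 := fun r => by
    unfold ep; split_ifs
    exacts [⟨xx_mem (by simp), by simp⟩, ⟨one_mem _, by simp⟩]
  have e1 := be_hd a k hr
  have e2 := (pc_hd (dl_mem a k s) (fun j hj => hr j (e1 ▸ hj))).trans e1
  have e3 := be_hd a k (fun j hj => hr j (e2 ▸ hj))
  have c : ∀ r', (wd r').head? = (wd r).head? → ep a k r' = ep a k r := fun r' e => by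
    rw [ep, ep, show In a k r' = In a k r by simp only [In, e]]
  rw [c _ e2] at e3
  refine ⟨_, e3.trans e2, ?_⟩
  have : be a k (d * r) = d * ep a k r * (ep a k r * be a k r) := by
    rw [map_mul, be_fix _ _ hd, mul_assoc, ← mul_assoc (ep a k r), (m r).2, one_mul]
  have q := mul_mem hd (m r).1
  rw [TT, MulAut.mul_apply, MulAut.mul_apply, this, map_mul, pc_in _ q, map_mul,
    be_fix _ _ (mul_mem (mul_mem (dl_mem _ _ _) q) (inv_mem (dl_mem _ _ _)))]
  simp only [mul_assoc, inv_mul_cancel_left]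
  rw [← mul_assoc (ep a k r) (ep a k r), (m r).2, one_mul]

def th : Gm →* Equiv.Perm ℤ :=
  lft (fun i => if i = a then Equiv.subLeft 0 else Equiv.subLeft 1) fun i => by
    split_ifs <;> ext <;> simp

open Classical in
/-- The attracting sets. -/
def Att (s : Bool) (v : Gm) : Prop := ∃ d ∈ GS {a, a + k + 1}, ∃ r, Out {a, a + k + 1} r ∧
  v = d * r ∧ 0 < (if s ↔ In a k r then -1 else 1) * th a d⁻¹ 0

theorem Att.hd {a k : ℕ} {s : Bool} {v : Gm} (h : Att a k s v) :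
    (wd v).head? = some (a + k + 1) ∨ (wd (xx a * v)).head? = some (a + k + 1) := by
  obtain ⟨d, hd, r, o, rfl, p⟩ := h
  have n : d ≠ 1 := by rintro rfl; simp at p
  have n' : xx a * d ≠ 1 := fun e => by
    rw [← xx_xx a d, e] at p; simp [th] at p
  have m := mul_mem (xx_mem (S := {a, a + k + 1}) (Or.inl rfl)) hd
  rw [← mul_assoc, hd_mul hd o n, hd_mul m o n']
  have key : ∀ d ∈ GS {a, a + k + 1}, d ≠ 1 → (wd d).head? ≠ some a →
      (wd d).head? = some (a + k + 1) := fun d hd n e => by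
    obtain ⟨i, f⟩ := Option.ne_none_iff_exists'.1 (mt List.head?_eq_none_iff.1 (mt wd_eq_nil.1 n))
    rcases mem_GS.1 hd i (List.mem_of_mem_head? f) with rfl | rfl
    exacts [(e f).elim, f]
  by_cases e : (wd d).head? = some a
  · obtain ⟨g, rfl, u, -⟩ := hd_split e
    exact Or.inr (key _ m n' (by simpa using u))
  · exact Or.inl (key d hd n e)

theorem att_step (s : Bool) {v : Gm} (h : Att a k s v ∨ ((wd v).head? ≠ some (a + k + 1) ∧
    (wd (xx a * v)).head? ≠ some (a + k + 1))) : Att a k s ((dl a k s)⁻¹ * TT a k s v) := by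
  classical
  obtain ⟨d, hd, r, o, rfl, p⟩ : ∃ d ∈ GS {a, a + k + 1}, ∃ r, Out {a, a + k + 1} r ∧
      v = d * r ∧ 0 ≤ (if s ↔ In a k r then -1 else 1) * th a d⁻¹ 0 := by
    rcases h with ⟨d, hd, r, o, e, p⟩ | h
    · exact ⟨d, hd, r, o, e, p.le⟩
    obtain ⟨d, hd, r, o, e, -⟩ := dec {a, a + k + 1} v
    refine ⟨d, hd, r, o, e, not_lt.1 fun p => (Att.hd (s := !s) ⟨d, hd, r, o, e, ?_⟩).elim h.1 h.2⟩
    cases s <;> by_cases q : In a k r <;> simpa [q] using p
  obtain ⟨r', e1, e2⟩ := ping_step a k s hd o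
  have m : ep a k r ∈ GS {a, a + k + 1} := by
    unfold ep; split_ifs
    exacts [xx_mem (by simp), one_mem _]
  refine ⟨_, mul_mem hd (mul_mem (mul_mem m (inv_mem (dl_mem _ _ _))) m), r',
    fun j hj => o j (e1 ▸ hj), e2, ?_⟩
  rw [show In a k r' = In a k r by simp only [In, e1], mul_inv_rev, map_mul, Equiv.Perm.mul_apply]
  generalize th a d⁻¹ 0 = n at p
  have : a + k + 1 ≠ a := by omega
  cases s <;> by_cases q : In a k r <;> simp [q, ep, dl, th, this] at p ⊢ <;> omega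

theorem ping {w : Fr} (h : FreeGroup.lift (fun k => TT a k true) w = 1) : w = 1 := by
  let V : List (ℕ × Bool) → Gm := List.foldr (fun p v => (dl a p.1 p.2)⁻¹ * TT a p.1 p.2 v) 1
  have e : ∀ L, FreeGroup.lift (fun k => TT a k true) (FreeGroup.mk L) (xx a) =
      (V L)⁻¹ * xx a * V L := fun L => by
    induction L with
    | nil => simp [V, mk_nil]
    | cons p L ih =>
      have : FreeGroup.lift (fun k => TT a k true)
          (if p.2 then FreeGroup.of p.1 else (FreeGroup.of p.1)⁻¹) = TT a p.1 p.2 := by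
        cases p.2 <;> simp [TT_inv]
      rw [mk_cons, map_mul, MulAut.mul_apply, ih, this]
      simp [V, TT_xx, mul_assoc]
  have f : ∀ L p, FreeGroup.IsReduced (p :: L) → Att a p.1 p.2 (V (p :: L)) := fun L => by
    induction L with
    | nil => exact fun p _ => att_step a _ _ (Or.inr ⟨by simp, by
        rw [wd_cons (by simp)]; simp; omega⟩)
    | cons q L ih =>
      intro p r
      have i := ih q (List.IsChain.tail r)
      refine att_step a _ _ ?_
      by_cases u : p.1 = q.1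
      · exact Or.inl (by rwa [(List.isChain_cons_cons.1 r).1 u, u])
      refine Or.inr ?_
      by_cases z : (wd (V (q :: L))).head? = some a
      · obtain ⟨g, e1, -⟩ := hd_split z
        refine ⟨by rw [z]; simp; omega, ?_⟩
        rw [i.hd.resolve_left (by rw [z]; simp; omega)]; simpa using Ne.symm u
      · have := wd_cons z
        refine ⟨?_, by rw [this]; simp; omega⟩
        rw [i.hd.resolve_right (by rw [this]; simp; omega)]; simpa using Ne.symm u
  rw [← FreeGroup.toWord_eq_nil_iff]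
  cases q : w.toWord with
  | nil => rfl
  | cons p L =>
    have := e (p :: L)
    rw [← q, FreeGroup.mk_toWord, h, q] at this
    have i := (f L p (q ▸ FreeGroup.isReduced_toWord)).hd
    have x : wd (xx a) = [a] := wd_ev (l := [a]) (by simp) ▸ by simp
    rcases cent (c := (V (p :: L))⁻¹) (by simpa using this.symm) with z | z
    · rw [inv_eq_one.1 z] at i; simp [x] at i; omega
    · rw [inv_eq_iff_eq_inv.1 z] at i; simp [x] at i; omega

end Pool.Agent.MP_6eaae3_al.Cl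

end MrgPart3

-- ======== part 4: formerly Pool.Agent.MP_6eaae3_al.Cl.Faith
section MrgPart4

/-! Faithfulness of the action of Artin groups of linear diagrams on the free product. -/

namespace Pool.Agent.MP_6eaae3_al.Cl

open Subgroup Set

variable {G : Type} [Group G]

theorem cl_map {H : Type} [Group H] (ψ : G →* H) {S : Set G} {K : Subgroup H} (h : ∀ y ∈ S, ψ y ∈ K)
    {x : G} (hx : x ∈ closure S) : ψ x ∈ K := (closure_le (K.comap ψ)).2 h hx

theorem cosD_succ' (g : ℕ → G) (a k : ℕ) : cosD g a (k + 1) = cosD g (a + 1) k * g a := by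
  induction k with
  | zero => simp [cosD]
  | succ k ih => rw [cosD, ih, cosD, mul_assoc, add_right_comm]; rfl

theorem map_cosD {H : Type} [Group H] (ψ : G →* H) {g : ℕ → G} {g' : ℕ → H} {a k : ℕ}
    (h : ∀ i, a ≤ i → i < a + k → ψ (g i) = g' i) : ψ (cosD g a k) = cosD g' a k := by
  induction k with
  | zero => simp [cosD]
  | succ k ih => rw [cosD, map_mul, ih fun i u v => h i u (by omega), h _ (by omega) (by omega), cosD]

theorem comm_cos {g : ℕ → G} {y : G} {a k : ℕ} (h : ∀ i, a ≤ i → i < a + k → Commute y (g i)) :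
    Commute y (cosD g a k) := by
  induction k with
  | zero => exact Commute.one_right _
  | succ k ih => exact (h _ (by omega) (by omega)).mul_right (ih fun i u v => h i u (by omega))

theorem TT_succ (a k : ℕ) : TT (a + 1) k true * sg a = sg a * TT a (k + 1) true := by
  refine autx fun i => ?_
  have e : a + 1 + k + 1 = a + (k + 1) + 1 := by omega
  have f := fun i => TT_xx (a + 1) k true i
  have j := sg_xx a (a + (k + 1) + 1)
  rw [if_neg (by omega), if_neg (by omega)] at j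
  rw [e] at f
  have f1 := f (a + 1)
  have f2 := f a
  rw [if_pos (by simp)] at f1
  rw [if_neg (by omega), if_neg (by omega)] at f2
  rw [MulAut.mul_apply, MulAut.mul_apply, TT_xx, sg_xx]
  by_cases h1 : i = a
  · simp [h1, f1, dl, e, j, sg_xx a a]
  by_cases h2 : i = a + 1
  · simp [h2, f1, f2, dl, e, j, sg_xx a a, sg_xx a (a + 1), mul_assoc]
  rw [if_neg h1, if_neg h2, f]
  split_ifs <;> first | omega | simp [dl, e, j, sg_xx a a, sg_xx a i, h1, h2]

theorem TT_cos (k : ℕ) : ∀ a, (cosD sg a k)⁻¹ * sg (a + k) ^ 2 * cosD sg a k = TT a k true := by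
  induction k with
  | zero =>
    refine fun a => autx fun i => ?_
    rw [cosD, inv_one, one_mul, mul_one, sq_xx, TT_xx]
    split_ifs <;> first | omega | rfl
  | succ k ih =>
    intro a
    rw [cosD_succ', ← mul_right_inj (sg a), ← TT_succ, ← ih, add_right_comm a 1]; group

theorem loop_cos {g : ℕ → G} {a b : ℕ} (h : BraidRel g a b) (m : ℕ) (h1 : a + m < b) :
    loopA g (g a ^ 2) (a + 1) m = (cosD g a m)⁻¹ * g (a + m) ^ 2 * cosD g a m := by
  induction m with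
  | zero => simp [cosD, loopA]
  | succ m ih =>
    have hb := h.braid (a + m) (by omega) (by omega)
    have hc := (h.comm_cosD m (a + m + 1) (by omega) (by omega)).eq
    rw [loopA, ih (by omega), add_right_comm a 1]
    show _ = (g (a + m) * cosD g a m)⁻¹ * g (a + m + 1) ^ 2 * (g (a + m) * cosD g a m)
    generalize g (a + m) = x at *
    generalize g (a + m + 1) = y at *
    generalize cosD g a m = d at *
    have e : x⁻¹ * y * x = y * x * y⁻¹ := by
      calc x⁻¹ * y * x = x⁻¹ * (y * x * y) * y⁻¹ := by group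
        _ = _ := by rw [← hb]; group
    have e1 : d⁻¹ * y * d = y := by rw [mul_assoc, ← hc]; group
    symm
    calc (x * d)⁻¹ * y ^ 2 * (x * d) = d⁻¹ * ((x⁻¹ * y * x) * (x⁻¹ * y * x)) * d := by
          rw [sq]; group
      _ = (d⁻¹ * y * d) * (d⁻¹ * x ^ 2 * d) * (d⁻¹ * y * d)⁻¹ := by rw [e, sq]; group
      _ = _ := by rw [e1]

/-- Conjugation in both directions stays in `K`. -/
def Nr (K : Subgroup G) (b s : G) : Prop := b * s * b⁻¹ ∈ K ∧ b⁻¹ * s * b ∈ K

theorem Nr.comm {K : Subgroup G} {b s : G} (h : Commute b s) (hs : s ∈ K) : Nr K b s :=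
  ⟨by rwa [h.eq, mul_inv_cancel_right], by rwa [mul_assoc, ← h.eq, inv_mul_cancel_left]⟩

theorem Nr.cen {K : Subgroup G} {b s c : G} (h : Commute (c * b) s) (h' : Commute (c * b) b)
    (hc : c ∈ K) (hs : s ∈ K) : Nr K b s := by
  replace h' : Commute c b := mul_right_cancel (b := b) (h'.eq.trans (mul_assoc _ _ _).symm)
  constructor
  · rw [show b * s * b⁻¹ = c⁻¹ * (c * b * s) * b⁻¹ by group, h.eq, h'.eq]
    simpa [mul_assoc, h'.symm.eq] using mul_mem (mul_mem (inv_mem hc) hs) hc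
  · rw [show b⁻¹ * s * b = b⁻¹ * (s * (b * c)) * c⁻¹ by group, ← h'.eq, ← h.eq, h'.eq]
    simpa [mul_assoc] using mul_mem (mul_mem hc hs) (inv_mem hc)

theorem decomp {S B : Set G} (h : ∀ b ∈ B, ∀ s ∈ S, Nr (closure S) b s) {x : G}
    (hx : x ∈ closure (S ∪ B)) : ∃ w ∈ closure S, ∃ β ∈ closure B, x = w * β := by
  have k : ∀ c : G, (∀ s ∈ S, c * s * c⁻¹ ∈ closure S) → ∀ w ∈ closure S, c * w * c⁻¹ ∈ closure S :=
    fun c e => (closure_le ((closure S).comap (MulAut.conj c).toMonoidHom)).2 e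
  induction hx using closure_induction_left with
  | one => exact ⟨1, one_mem _, 1, one_mem _, by simp⟩
  | mul_left y hy _ _ ih =>
    obtain ⟨w, u, β, v, rfl⟩ := ih
    rcases hy with hy | hy
    · exact ⟨_, mul_mem (Subgroup.subset_closure hy) u, β, v, by group⟩
    · exact ⟨_, k y (fun s e => (h y hy s e).1) w u, _, mul_mem (Subgroup.subset_closure hy) v, by group⟩
  | inv_mul_cancel y hy _ _ ih =>
    obtain ⟨w, u, β, v, rfl⟩ := ih
    rcases hy with hy | hy
    · exact ⟨_, mul_mem (inv_mem (Subgroup.subset_closure hy)) u, β, v, by group⟩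
    · exact ⟨_, k y⁻¹ (fun s e => by simpa using (h y hy s e).2) w u, _,
        mul_mem (inv_mem (Subgroup.subset_closure hy)) v, by group⟩

theorem free_loops {L : ℕ → G} {a m : ℕ} (ψ : G →* MulAut Gm) (h : ∀ k ≤ m, ψ (L k) = TT a k true)
    {w : G} (hw : w ∈ closure (L '' Iic m)) (h1 : ψ w = 1) : w = 1 := by
  have : closure (L '' Iic m) ≤ (Fre (Iic m)).map (FreeGroup.lift L) := (closure_le _).2 (by
    rintro _ ⟨k, u, rfl⟩; exact ⟨_, of_mem_Fre u, by simp⟩)
  obtain ⟨v, u, rfl⟩ := this hw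
  rw [ping (a := a) (w := v) (h1 ▸ (Fre.eq (ψ.comp (FreeGroup.lift L)) _ (fun k e => by
    simpa using h k e) u).symm), map_one]

/-- Relations of a linear diagram with label four at both ends. -/
structure TypeC (g : ℕ → G) (τ τ' : G) (a b : ℕ) : Prop extends TypeB g τ a b where
  four' : a < b → g (b - 1) * τ' * g (b - 1) * τ' = τ' * g (b - 1) * τ' * g (b - 1)
  comm' : ∀ i, a ≤ i → i + 1 < b → Commute τ' (g i)
  tt : a < b → Commute τ τ'

theorem four_cen {x y : G} (h : x * y * x * y = y * x * y * x) :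
    Commute (y * x * y * x) x ∧ Commute (y * x * y * x) y :=
  ⟨show _ = _ by rw [← h]; nth_rewrite 2 [h]; simp only [mul_assoc], show _ = _ by
    nth_rewrite 2 [← h]; simp only [mul_assoc]⟩

theorem TT_pj (a k : ℕ) (y : Gm) : pj {a}ᶜ (TT a k true y) = pj {a}ᶜ y :=
  DFunLike.congr_fun (hom_ext (φ := (pj {a}ᶜ).comp (TT a k true).toMonoidHom) (φ' := pj {a}ᶜ) fun i => by
    have u : pj {a}ᶜ (xx a) = 1 := pj_out (by simp)
    have v : pj {a}ᶜ (xx (a + k + 1)) = xx (a + k + 1) := pj_in (by simp; omega)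
    show pj _ (TT a k true _) = _
    rw [TT_xx]
    split_ifs with h1 h2
    · rcases h1 with rfl | rfl <;> simp [dl, u, v]
    · simp [dl, u, v]
    · rfl) y

theorem faithC (n : ℕ) : ∀ {g : ℕ → G} {τ τ' : G} {a : ℕ}, TypeC g τ τ' (a + 1) (a + 1 + n) →
    ∀ ψ : G →* MulAut Gm, (∀ i, a + 1 ≤ i → i < a + 1 + n → ψ (g i) = sg i) → ψ τ = sg a ^ 2 →
    ψ τ' = sg (a + 1 + n) ^ 2 → ∀ x ∈ closure (insert τ (insert τ' (g '' Ico (a + 1) (a + 1 + n)))),
    ψ x = 1 → x = 1 := by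
  have key : ∀ n {g : ℕ → G} {τ τ' : G} {a : ℕ} (ψ : G →* MulAut Gm),
      (∀ i, a + 1 ≤ i → i < a + 1 + n → ψ (g i) = sg i) → ψ τ = sg a ^ 2 →
      ψ τ' = sg (a + 1 + n) ^ 2 → ∀ k ≤ n + 1, ((MulAut.conj (sg a)⁻¹).toMonoidHom.comp ψ)
        (Nat.rec τ (fun k _ => (cosD g (a + 1) k)⁻¹ * (if k < n then g (a + 1 + k) ^ 2 else τ') *
          cosD g (a + 1) k) k) = TT a k true := by
    intro n g τ τ' a ψ h1 h2 h3 k hk
    cases k with
    | zero => simp [h2, ← TT_cos, cosD, sq]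
    | succ k =>
      have : ψ (if k < n then g (a + 1 + k) ^ 2 else τ') = sg (a + 1 + k) ^ 2 := by
        split_ifs
        exacts [by rw [map_pow, h1 _ (by omega) (by omega)], by rw [h3, show n = k by omega]]
      show (sg a)⁻¹ * ψ (_ * _ * _) * (sg a)⁻¹⁻¹ = _
      rw [map_mul, map_mul, map_inv, this, map_cosD ψ fun i u v => h1 i u (by omega), TT_cos,
        inv_inv, mul_assoc, TT_succ, inv_mul_cancel_left]
  induction n with
  | zero =>
    intro g τ τ' a h ψ h1 h2 h3 x hx e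
    refine free_loops _ (key 0 ψ h1 h2 h3) ((closure_le _).2 ?_ hx) (by simp [e])
    rintro _ (rfl | rfl | ⟨i, hi, -⟩)
    exacts [mem_cl 0 (by simp) rfl, mem_cl 1 (by simp) (by simp [cosD]), by simp at hi]
  | succ n ih =>
    intro g τ τ' a h ψ h1 h2 h3 x hx e
    have hL := key _ ψ h1 h2 h3
    generalize hp : a + 1 = p at *
    set ψ' := (MulAut.conj (sg a)⁻¹).toMonoidHom.comp ψ
    set L : ℕ → G := fun k => Nat.rec τ (fun k _ => (cosD g p k)⁻¹ *
      (if k < n + 1 then g (p + k) ^ 2 else τ') * cosD g p k) k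
    have L1 : ∀ k ≤ n, L (k + 1) = (cosD g p k)⁻¹ * g (p + k) ^ 2 * cosD g p k :=
      fun k u => by simp only [L, if_pos (Nat.lt_succ_of_le u)]
    have L2 : L (n + 1 + 1) = (cosD g p (n + 1))⁻¹ * τ' * cosD g p (n + 1) := by simp [L]
    have mL : ∀ k ≤ n + 1 + 1, L k ∈ closure (L '' Iic (n + 1 + 1)) := fun k u => mem_cl k u rfl
    let B := insert ((g p)⁻¹ * τ * g p) (insert τ' (g '' Ico (p + 1) (p + 1 + n)))
    have ct : ∀ k ≤ n, Commute τ (cosD g (p + 1) k) :=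
      fun k u => comm_cos fun i v w => h.tcomm i v (by omega)
    have ct' : ∀ k ≤ n, Commute τ' (cosD g p k) :=
      fun k u => comm_cos fun i v w => h.comm' i v (by omega)
    have ps : ∀ y, ψ' y = (sg a)⁻¹ * ψ y * sg a := fun y => by simp [ψ']
    have cs : ∀ i, p < i → (sg a)⁻¹ * sg i * sg a = sg i := fun i u => by
      rw [mul_assoc, ← ((braidRel_sg 0 (i + 1)).comm a i (by omega) (by omega) (by omega)).eq,
        inv_mul_cancel_left]
    have b1 : ∀ i, p + 1 ≤ i → i < p + 1 + n → ψ' (g i) = sg i :=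
      fun i u v => by rw [ps, h1 i (by omega) (by omega), cs i u]
    have b2 : ψ' ((g p)⁻¹ * τ * g p) = sg p ^ 2 := by
      have := (braidRel_sg 0 (p + 1)).braid a (by omega) (by omega)
      rw [ps, map_mul, map_mul, map_inv, h1 p le_rfl (by omega), h2]
      rw [hp] at this
      calc _ = (sg p * sg a)⁻¹ * sg a * (sg a * sg p * sg a) := by rw [sq]; group
        _ = (sg p * sg a)⁻¹ * sg a * (sg p * sg a * sg p) := by rw [this]
        _ = (sg p * sg a)⁻¹ * (sg a * sg p * sg a) * sg p := by simp only [mul_assoc]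
        _ = _ := by rw [this, sq]; simp [mul_assoc]
    have b3 : ψ' τ' = sg (p + 1 + n) ^ 2 := by
      rw [ps, h3, ← cs (p + 1 + n) (by omega), add_right_comm, add_assoc, sq, sq]; group
    have mB : ∀ β ∈ closure B, ψ' β ∈ Bk p (p + n + 3) := fun β => cl_map ψ' (by
      rintro _ (rfl | rfl | ⟨i, hi, rfl⟩)
      exacts [b2 ▸ pow_mem (sg_mem le_rfl (by omega)) _, b3 ▸ pow_mem (sg_mem (by omega) (by omega)) _,
        b1 i hi.1 hi.2 ▸ sg_mem (by have := hi.1; omega) (by have := hi.2; omega)])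
    have mS : closure (L '' Iic (n + 1 + 1)) ≤ closure (L '' Iic (n + 1 + 1) ∪ B) :=
      closure_mono subset_union_left
    have co : ∃ k ≤ n + 1, (cosD g p k)⁻¹ * x ∈ closure (L '' Iic (n + 1 + 1) ∪ B) := by
      have st : ∀ y ∈ insert τ (insert τ' (g '' Ico p (p + (n + 1)))), ∀ z, z = y ∨ z = y⁻¹ →
          ∀ k ≤ n + 1, ∃ k' ≤ n + 1, (cosD g p k')⁻¹ * z * cosD g p k ∈
            closure (L '' Iic (n + 1 + 1) ∪ B) := by
        intro y hy z hz k hk
        have f : (cosD g p k)⁻¹ * y * cosD g p k ∈ closure (L '' Iic (n + 1 + 1) ∪ B) →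
            ∃ k' ≤ n + 1, (cosD g p k')⁻¹ * z * cosD g p k ∈ closure (L '' Iic (n + 1 + 1) ∪ B) :=
          fun m => ⟨k, hk, by
            rcases hz with rfl | rfl
            exacts [m, by simpa [mul_assoc] using inv_mem m]⟩
        rcases hy with rfl | rfl | hy
        · refine f ?_
          cases k with
          | zero => simpa [cosD] using show y ∈ _ from mS (mL 0 (by omega))
          | succ k =>
            rw [cosD_succ', mul_inv_rev, mul_assoc, mul_assoc, ← mul_assoc y, (ct k (by omega)).eq,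
              mul_assoc, inv_mul_cancel_left, ← mul_assoc]
            exact Subgroup.subset_closure (Or.inr (Or.inl rfl))
        · refine f ?_
          rcases hk.eq_or_lt with rfl | hk
          · exact L2 ▸ mS (mL _ le_rfl)
          · rw [mul_assoc, (ct' k (by omega)).eq, inv_mul_cancel_left]
            exact Subgroup.subset_closure (Or.inr (Or.inr (Or.inl rfl)))
        · obtain ⟨k', u, v⟩ := h.toBraidRel.coset (x := z) (by
            rcases hz with rfl | rfl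
            exacts [Subgroup.subset_closure hy, inv_mem (Subgroup.subset_closure hy)]) k (by omega)
          refine ⟨k', by omega, (closure_le _).2 ?_ v⟩
          rintro _ (rfl | ⟨i, hi, rfl⟩)
          · simpa [L1, cosD] using mS (mL (0 + 1) (by omega))
          · exact Subgroup.subset_closure (Or.inr (Or.inr (Or.inr
              ⟨i, ⟨hi.1, by have := hi.2; omega⟩, rfl⟩)))
      clear e
      induction hx using closure_induction_left with
      | one => exact ⟨0, by omega, by simp [cosD]⟩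
      | mul_left y hy _ _ i =>
        obtain ⟨k, u, v⟩ := i
        obtain ⟨k', u', v'⟩ := st y hy _ (Or.inl rfl) k u
        exact ⟨k', u', by simpa [mul_assoc] using mul_mem v' v⟩
      | inv_mul_cancel y hy _ _ i =>
        obtain ⟨k, u, v⟩ := i
        obtain ⟨k', u', v'⟩ := st y hy _ (Or.inr rfl) k u
        exact ⟨k', u', by simpa [mul_assoc] using mul_mem v' v⟩
    obtain ⟨k, hk, hx⟩ := co
    obtain rfl : k = 0 := by
      have f : ψ' ((cosD g p k)⁻¹ * x) ∈ Fx a := cl_map ψ' (by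
        rintro y (⟨k, u, rfl⟩ | u)
        · rw [hL k u]; exact ⟨_, (TT_xx _ _ _ _).trans (if_pos (Or.inl rfl))⟩
        · exact fx_of (Bk.fix_xx (mB y (Subgroup.subset_closure u)) (by omega))) hx
      have d : ∀ k, cosD sg p k (xx p) = xx (p + k) := fun k => by
        induction k with
        | zero => rfl
        | succ k i => rw [cosD, MulAut.mul_apply, i, sg_xx, if_pos rfl]; rfl
      rw [map_mul, ps x, e, mul_one, inv_mul_cancel, mul_one, map_inv, inv_mem_iff, ps,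
        map_cosD ψ fun i u v => h1 i u (by omega)] at f
      have f : Rf ((sg a)⁻¹ (cosD sg p k (sg a (xx a)))) a := f
      rw [sg_xx, if_pos rfl, hp, d, sg_inv_xx, if_neg (by omega)] at f
      split_ifs at f
      · omega
      · have := f.eq (rf_xx _); omega
    obtain ⟨w, hw, β, hβ, rfl⟩ := decomp (S := L '' Iic (n + 1 + 1)) (B := B) (x := x) (by
      have tb := h.toBraidRel.typeB
      rintro y (rfl | rfl | ⟨i, hi, rfl⟩) _ ⟨k, hk, rfl⟩
      · obtain ⟨c1, c2⟩ := four_cen (h.four (by omega))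
        have m := mul_mem (mL 0 (by omega)) (mL (0 + 1) (by omega))
        have q : L 0 * L (0 + 1) * ((g p)⁻¹ * τ * g p) = τ * g p * τ * g p := by
          simp [L, cosD, sq, mul_assoc]
        have c3 := (c1.inv_right.mul_right c2).mul_right c1
        rw [← q] at c1 c2 c3
        rcases k with _ | _ | k
        · exact .cen c2 c3 m (mL _ hk)
        · exact .cen (by simpa [L1, cosD] using c1.pow_right 2) c3 m (mL _ hk)
        · refine .comm ?_ (mL _ hk)
          have hk : k ≤ n := by simpa using hk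
          have : Commute τ (if k + 1 < n + 1 then g (p + (k + 1)) ^ 2 else τ') := by
            split_ifs
            exacts [(h.tcomm _ (by omega) (by omega)).pow_right 2, h.tt (by omega)]
          have := (((ct k hk).inv_right.mul_right this).mul_right (ct k hk)).map (MulAut.conj (g p)⁻¹)
          simpa [L, cosD_succ', mul_assoc] using this
      · obtain ⟨c2, c1⟩ := four_cen (h.four' (by omega)).symm
        rw [show p + (n + 1) - 1 = p + n by omega] at c1 c2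
        have m := mul_mem (mL (n + 1) (by omega)) (mL _ le_rfl)
        have r : MulAut.conj (cosD g p n)⁻¹ y = y := by simp [mul_assoc, (ct' n le_rfl).eq]
        have q : L (n + 1) * L (n + 1 + 1) * y =
            MulAut.conj (cosD g p n)⁻¹ (g (p + n) * y * g (p + n) * y) := by
          rw [map_mul, r]; simp [L1, L2, cosD, sq, mul_assoc]
        have c3 := c2.map (MulAut.conj (cosD g p n)⁻¹)
        rw [r, ← q] at c3
        rcases k with _ | k
        · exact .comm (h.tt (by omega)).symm (mL _ hk)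
        rcases lt_trichotomy k n with u | rfl | u
        · exact .comm (L1 k u.le ▸ ((ct' k u.le).inv_right.mul_right
            ((h.comm' _ (by omega) (by omega)).pow_right 2)).mul_right (ct' k u.le)) (mL _ hk)
        · refine .cen ?_ c3 m (mL _ hk)
          rw [q]
          simpa [L1] using (c1.pow_right 2).map (MulAut.conj (cosD g p k)⁻¹)
        · obtain rfl : k = n + 1 := by have : k + 1 ≤ _ := hk; omega
          refine .cen ?_ c3 m (mL _ hk)
          rw [q]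
          simpa [L2, cosD, mul_assoc] using
            ((c1.inv_right.mul_right c2).mul_right c1).map (MulAut.conj (cosD g p n)⁻¹)
      · obtain ⟨u, v⟩ := hi
        have ev : ∀ k ≤ n, evA g (g p ^ 2) (p + 1) (p + (n + 1)) (.of (p + 1 + k)) = L (k + 1) :=
          fun k t => by rw [evA_of _ _ _ _ _ (by omega), loop_cos h.toBraidRel _ (by omega), L1 k t]
        have em : ∀ w, evA g (g p ^ 2) (p + 1) (p + (n + 1)) w ∈ closure (L '' Iic (n + 1 + 1)) :=
          fun w => Fre.map_mem _ (fun j _ => by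
            by_cases t : p + 1 ≤ j ∧ j ≤ p + (n + 1)
            · obtain ⟨k, rfl⟩ := Nat.exists_eq_add_of_le t.1
              exact ev k (by omega) ▸ mL (k + 1) (by omega)
            · rw [evA, FreeGroup.lift_apply_of, if_neg t]; exact one_mem _) (mem_Fre_univ w)
        rcases k with _ | k
        · exact .comm (h.tcomm i u (by omega)).symm (mL _ hk)
        by_cases t : k ≤ n
        · rw [← ev k t]
          refine ⟨tb.conj_evA i u (by omega) _ ▸ em _, ?_⟩
          rw [← (psi i).apply_symm_apply (.of _), ← tb.conj_evA i u (by omega)]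
          simpa [mul_assoc] using em _
        · obtain rfl : k = n + 1 := by have : k + 1 ≤ _ := hk; omega
          obtain ⟨j, rfl⟩ := Nat.exists_eq_add_of_le u
          obtain ⟨l, rfl⟩ : ∃ l, n = j + 1 + l := ⟨n - (j + 1), by omega⟩
          have := h.toBraidRel.shift_cosD j l (by omega)
          rw [show j + 2 + l = j + 1 + l + 1 by omega, add_right_comm p j] at this
          refine .comm ?_ (mL _ hk)
          rw [L2, eq_inv_mul_of_mul_eq this.symm]
          simpa [mul_assoc] using (h.comm' (p + j) (by omega) (by omega)).symm.map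
            (MulAut.conj (cosD g p (j + 1 + l + 1))⁻¹)) (by simpa [cosD] using hx)
    have e : ψ' w * ψ' β = 1 := by rw [← map_mul, ps, e]; simp
    have f : ∀ w ∈ closure (L '' Iic (n + 1 + 1)), ∀ y, pj {a}ᶜ (ψ' w y) = pj {a}ᶜ y := fun w hw => by
      induction hw using closure_induction with
      | mem _ u => obtain ⟨k, u, rfl⟩ := u; rw [hL k u]; exact TT_pj a k
      | one => simp
      | mul _ _ _ _ u v => intro y; rw [map_mul, MulAut.mul_apply, u, v]
      | inv _ _ u => intro y; rw [← u, map_inv, MulAut.apply_inv_self]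
    suffices tc : TypeC g ((g p)⁻¹ * τ * g p) τ' (p + 1) (p + 1 + n) by
     obtain rfl : β = 1 := ih tc ψ' b1 b2 b3 β hβ (autx fun i => by
      by_cases u : i = a
      · exact Bk.fix_xx (mB β hβ) (by omega)
      have := f w hw (ψ' β (xx i))
      rw [← MulAut.mul_apply, e, pj_fix (Bk.map_GS (S := {a}ᶜ) (mB β hβ) (fun j hj q => by
        have := hj.1; have : j = a := q; omega) (xx_mem u))] at this
      exact this.symm.trans (pj_in u))
     rw [mul_one]; exact free_loops _ hL hw (by simpa using e)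
    have c : ∀ y, Commute τ y → Commute (g p) y → Commute ((g p)⁻¹ * τ * g p) y :=
      fun y u v => (v.inv_left.mul_left u).mul_left v
    refine ⟨⟨h.toBraidRel.mono (by omega) (by omega), fun u => ?_, fun i u v =>
      c _ (h.tcomm i (by omega) (by omega)) (h.comm p i le_rfl u (by omega))⟩, fun u => ?_,
      fun i u v => h.comm' i (by omega) (by omega),
      fun u => c _ (h.tt (by omega)) (h.comm' p le_rfl (by omega)).symm⟩
    · have b := h.braid p le_rfl (by omega)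
      have := congrArg (·⁻¹) (four_step (x := (g p)⁻¹) (y := (g (p + 1))⁻¹) (T := τ⁻¹)
        (by simpa [mul_assoc] using congrArg (·⁻¹) b) (h.tcomm _ (by omega) (by omega)).inv_inv
        (by simpa [mul_assoc] using congrArg (·⁻¹) (h.four (by omega)).symm))
      simpa [mul_assoc] using this.symm
    · simpa [add_right_comm p 1, add_assoc] using h.four' (by omega)

theorem typeC_sg (a b : ℕ) : TypeC sg (sg a ^ 2) (sg b ^ 2) (a + 1) b where
  toTypeB := (braidRel_sg a b).typeB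
  four' := fun u => by
    obtain ⟨c, rfl⟩ := Nat.exists_eq_add_one.2 (show 0 < b by omega)
    exact (BraidRel.typeB (g := fun i => sg (c + 1 - i)) (a := 0) (b := 2) ⟨fun i _ v => by
      obtain rfl : i = 0 := by omega
      exact ((braidRel_sg 0 (c + 2)).braid c (by omega) (by omega)).symm, fun i j _ _ _ => by omega⟩).four
      (by omega)
  comm' := fun i _ v => (((braidRel_sg 0 (b + 1)).comm i b (by omega) v (by omega)).symm).pow_left 2
  tt := fun u => ((braidRel_sg 0 (b + 1)).comm a b (by omega) u (by omega)).pow_pow 2 2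

theorem TypeC.prod {H : Type} [Group H] {g : ℕ → G} {g' : ℕ → H} {τ τ' σ σ'} {a b : ℕ}
    (h : TypeC g τ τ' a b) (k : TypeC g' σ σ' a b) :
    TypeC (fun i => (g i, g' i)) (τ, σ) (τ', σ') a b :=
  ⟨⟨h.toBraidRel.prod k.toBraidRel, fun u => Prod.ext (h.four u) (k.four u),
    fun i u v => Prod.ext (h.tcomm i u v).eq (k.tcomm i u v).eq⟩, fun u => Prod.ext (h.four' u) (k.four' u),
    fun i u v => Prod.ext (h.comm' i u v).eq (k.comm' i u v).eq, fun u => Prod.ext (h.tt u).eq (k.tt u).eq⟩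

theorem TypeC.faith {g : ℕ → G} {τ τ' : G} {b : ℕ} (h : TypeC g τ τ' 1 b) (hb : 1 ≤ b) {x}
    (hx : x ∈ closure (insert (τ, sg 0 ^ 2) (insert (τ', sg b ^ 2) ((fun i => (g i, sg i)) '' Ico 1 b))))
    (e : x.2 = 1) : x = 1 := by
  obtain ⟨n, rfl⟩ := Nat.exists_eq_add_of_le hb
  exact faithC n (a := 0) (h.prod (typeC_sg 0 _)) (MonoidHom.snd _ _) (fun _ _ _ => rfl) rfl rfl x hx e

/-- The relations of a linear diagram. -/
structure PRel (l r : Bool) (n : ℕ) (f : ℕ → G) : Prop where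
  comm : ∀ i j, i + 1 < j → j < n → Commute (f i) (f j)
  braid : ∀ i, i + 1 < n → ¬ (l ∧ i = 0) → ¬ (r ∧ i + 2 = n) →
    f i * f (i + 1) * f i = f (i + 1) * f i * f (i + 1)
  four : ∀ i, i + 1 < n → (l ∧ i = 0) ∨ (r ∧ i + 2 = n) →
    f i * f (i + 1) * f i * f (i + 1) = f (i + 1) * f i * f (i + 1) * f i

def sh (o : ℕ) : Gm →* Gm := lft (fun i => xx (i + o)) fun _ => by simp

theorem sh_sg (o i : ℕ) (y : Gm) : sg (i + o) (sh o y) = sh o (sg i y) :=
  DFunLike.congr_fun (hom_ext (φ := (sg (i + o)).toMonoidHom.comp (sh o))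
    (φ' := (sh o).comp (sg i).toMonoidHom) fun j => by
      show sg _ (sh o _) = sh o (sg _ _)
      simp only [sh, lft_xx, sg_xx, add_right_comm i o, add_left_inj]
      split_ifs <;> simp) y

theorem PRel.faith {l r : Bool} {n : ℕ} {f : ℕ → G} (h : PRel l r n f) (h1 : 1 ≤ n)
    (h2 : l → r → 2 ≤ n) {x} (hx : x ∈ closure ((fun i => (f i, rr l r n i)) '' Iio n))
    (e : x.2 = 1) : x.1 = 1 := by
  obtain ⟨o, ho⟩ : ∃ o, (l ∧ o = 0) ∨ (¬ l ∧ o = 1) := by cases l <;> simp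
  obtain ⟨b, hb⟩ : ∃ b, (r ∧ b + 1 = n + o) ∨ (¬ r ∧ b = n + o) := by
    cases r
    exacts [by simp, ⟨n + o - 1, by simp; omega⟩]
  have b1 : 1 ≤ b := by cases l <;> cases r <;> simp at ho hb h2 <;> omega
  have tc : TypeC (fun i => f (i - o)) (if l then f 0 else 1) (if r then f (n - 1) else 1) 1 b := by
    refine ⟨⟨⟨fun i u v => ?_, fun i j u v w => h.comm _ _ (by omega) (by omega)⟩, fun u => ?_,
      fun i u v => ?_⟩, fun u => ?_, fun i u v => ?_, fun u => ?_⟩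
    · rw [show i + 1 - o = i - o + 1 by omega]
      exact h.braid _ (by omega) (fun q => by simp [q.1] at ho; omega) fun q => by
        simp [q.1] at hb; omega
    · split_ifs with q
      · obtain rfl : o = 0 := by simpa [q] using ho
        exact (h.four 0 (by omega) (Or.inl ⟨q, rfl⟩)).symm
      · simp
    · split_ifs with q
      exacts [h.comm _ _ (by simp [q] at ho; omega) (by omega), Commute.one_left _]
    · split_ifs with q
      · simp only [q, true_and, not_true, false_and, or_false] at hb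
        rw [show n - 1 = b - 1 - o + 1 by omega]
        exact h.four _ (by omega) (Or.inr ⟨q, by omega⟩)
      · simp
    · split_ifs with q
      exacts [(h.comm _ _ (by simp [q] at hb; omega) (by omega)).symm, Commute.one_left _]
    · split_ifs with q q'
      exacts [h.comm _ _ (by simp [q, q'] at ho hb; omega) (by omega), Commute.one_right _,
        Commute.one_left _, Commute.one_left _]
  have : ∃ φ, (x.1, φ) ∈ closure (insert (if l then f 0 else 1, sg 0 ^ 2)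
      (insert (if r then f (n - 1) else 1, sg b ^ 2) ((fun i => (f (i - o), sg i)) '' Ico 1 b))) ∧
      (∀ y, φ (sh o y) = sh o (x.2 y)) ∧ ∀ i < o, φ (xx i) = xx i := by
    clear e
    induction hx using closure_induction with
    | mem _ u =>
      obtain ⟨i, hi : i < n, rfl⟩ := u
      have f0 : ∀ j < o, sg (i + o) (xx j) = xx j := fun j u => by
        rw [sg_xx, if_neg (by omega), if_neg (by omega)]
      by_cases q : (l ∧ i = 0) ∨ (r ∧ i + 1 = n)
      · refine ⟨sg (i + o) ^ 2, Subgroup.subset_closure ?_, fun y => by simp [rr, q, sq, sh_sg],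
          fun j u => by simp [sq, f0 j u]⟩
        rcases q with ⟨q, rfl⟩ | ⟨q, rfl⟩
        · obtain rfl : o = 0 := by simpa [q] using ho
          simp [q]
        · obtain rfl : b = i + o := by simp [q] at hb; omega
          simp [q]
      · refine ⟨sg (i + o), Subgroup.subset_closure (Or.inr (Or.inr ⟨i + o, ⟨?_, ?_⟩, by simp⟩)),
          fun y => by simp only [rr, if_neg q, sh_sg], f0⟩ <;> cases l <;> cases r <;>
          simp at ho hb q <;> omega
    | one => exact ⟨1, one_mem _, fun _ => rfl, fun _ _ => rfl⟩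
    | mul _ _ _ _ u v =>
      obtain ⟨φ, u1, u2, u3⟩ := u; obtain ⟨φ', v1, v2, v3⟩ := v
      exact ⟨φ * φ', mul_mem u1 v1, fun y => by simp [u2, v2], fun i w => by simp [u3 i w, v3 i w]⟩
    | inv y _ u =>
      obtain ⟨φ, u1, u2, u3⟩ := u
      exact ⟨φ⁻¹, inv_mem u1, fun z => φ.injective (by simp [u2]), fun i w => φ.injective (by simp [u3 i w])⟩
  obtain ⟨φ, u1, u2, u3⟩ := this
  refine congrArg Prod.fst (tc.faith b1 u1 (autx fun i => ?_))
  by_cases q : i < o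
  · exact u3 i q
  · obtain ⟨j, rfl⟩ := Nat.exists_eq_add_of_le' (not_lt.1 q)
    simpa [sh, e] using u2 (xx j)

end Pool.Agent.MP_6eaae3_al.Cl

end MrgPart4

-- ======== part 5: formerly Pool.Agent.MP_6eaae3_al.Cl.Path
section MrgPart5

/-! Linear diagrams. -/

namespace Pool.Agent.MP_6eaae3_al.Cl

open Set

/-- The labels of a linear diagram with `n` vertices; `l` and `r` say that the first and the last
label is four. -/
def pl (l r : Bool) (n i j : ℕ) : ℕ :=
  if j = i + 1 ∨ i = j + 1 then (if (l ∧ min i j = 0) ∨ (r ∧ max i j + 1 = n) then 4 else 3) else 2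

theorem dc_of_faith {G A κ : Type} [Group G] [Group A] {f : κ → G} {r : κ → A} {S S₁ S₂ : Set κ}
    (h : ∀ x ∈ Subgroup.closure ((fun v => (f v, r v)) '' S), x.2 = 1 → x.1 = 1) (h₁ : S₁ ⊆ S)
    (h₂ : S₂ ⊆ S) {g p q} (hg : (g, p * q) ∈ Subgroup.closure ((fun v => (f v, r v)) '' S))
    (hp : p ∈ Subgroup.closure (r '' S₁)) (hq : q ∈ Subgroup.closure (r '' S₂)) :
    ∃ p' ∈ Subgroup.closure (f '' S₁), ∃ q' ∈ Subgroup.closure (f '' S₂), g = p' * q' := by
  have key : ∀ T ⊆ S, ∀ a ∈ Subgroup.closure (r '' T), ∃ y ∈ Subgroup.closure (f '' T),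
      (y, a) ∈ Subgroup.closure ((fun v => (f v, r v)) '' S) := fun T hT a ha => by
    obtain ⟨y, u⟩ := exists_pair r f ha
    exact ⟨y, cl_map (MonoidHom.snd _ _) (by
      rintro _ ⟨v, w, rfl⟩; exact Subgroup.subset_closure ⟨v, w, rfl⟩) u,
      cl_map (MulEquiv.prodComm : A × G ≃* G × A).toMonoidHom (by
        rintro _ ⟨v, w, rfl⟩; exact Subgroup.subset_closure ⟨v, hT w, rfl⟩) u⟩
  obtain ⟨p', a, b⟩ := key _ h₁ p hp
  obtain ⟨q', c, d⟩ := key _ h₂ q hq
  exact ⟨p', a, q', c, mul_inv_eq_one.1 (h _ (mul_mem hg (inv_mem (mul_mem b d))) (by simp))⟩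

theorem exists_mult' {V : Type} {m : V → V → ℕ} [Finite V] (n1 : ∀ s t, s ≠ t → m s t ≠ 1) :
    ∃ n, 3 ≤ n ∧ ∀ s t, s ≠ t → m s t ≠ 0 → m s t - 1 ∣ n := by
  obtain ⟨n, a, b⟩ := exists_mult n1
  exact ⟨3 * n, by omega, fun s t u v => (b s t u v).mul_left _⟩

def LV (l r : Bool) (n i j : ℕ) : Equiv.Perm ℕ :=
  if j = i + 1 then (if l ∧ i = 0 then .swap 0 1 else if r ∧ j + 1 = n then .swap 1 2 else 1)
  else if l ∧ j = 0 then .swap 0 1 * .swap 0 2 else .swap 0 1

def AJ (l r : Bool) (n : ℕ) (p q : ℕ × ℕ) : Prop := p.1 ≠ q.1 ∧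
  LV l r n q.1 p.1 q.2 = LV l r n p.1 q.1 p.2 + 1 ∧ ¬ pl l r n p.1 q.1 - 1 ∣ LV l r n q.1 p.1 q.2

def PS (l r : Bool) (n : ℕ) (p : ℕ × ℕ) : Prop :=
  p.1 < n ∧ (p.2 = 0 ∨ (p.2 = 1 ∧ r ∧ p.1 + 1 < n ∧ ¬ (l ∧ p.1 = 0)))

def pnx (l : Bool) (n : ℕ) (p : ℕ × ℕ) : ℕ × ℕ :=
  if p.2 = 0 then (if p.1 + 1 < n then (p.1 + 1, 0) else (p.1 - 1, 1))
  else if l ∧ p.1 = 1 then (0, 0) else (p.1 - 1, 1)

def pnb (r : Bool) (n : ℕ) (p : ℕ × ℕ) : Prop := if p.2 = 0 then p.1 + 1 < n ∨ r else 0 < p.1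

variable {l r : Bool} {n : ℕ}

theorem LV_lt {N : ℕ} (h : 3 ≤ N) (i j x : ℕ) : LV l r n i j x < N ↔ x < N := by
  unfold LV
  split_ifs <;> simp only [Equiv.Perm.mul_apply, Equiv.swap_apply_def, Equiv.Perm.one_apply] <;>
    split_ifs <;> omega

theorem AJ_adj (h1 : l → r ∧ 3 ≤ n) (k a c : ℕ) :
    (AJ l r n (k, a) (k + 1, c) ∧ (a = 0 ∨ c = 0 ∨ (a = 1 ∧ ¬ (l ∧ k = 0)) ∨ (c = 1 ∧ k + 2 < n)) ↔
      a = 0 ∧ c = 0) ∧
    (AJ l r n (k + 1, a) (k, c) ∧ (a = 0 ∨ c = 0 ∨ (c = 1 ∧ ¬ (l ∧ k = 0)) ∨ (a = 1 ∧ k + 2 < n)) ↔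
      if l ∧ k = 0 then a = 1 ∧ c = 0 else if r ∧ k + 2 = n then a = 0 ∧ c = 1 else a = 1 ∧ c = 1) := by
  have e : ¬ k = k + 1 + 1 := by omega
  simp only [AJ, LV, pl, if_neg e, if_true, true_or, or_true, Nat.le_succ, min_eq_left, min_eq_right,
    max_eq_left, max_eq_right, add_assoc, Nat.reduceAdd]
  by_cases u : l ∧ k = 0
  · have := h1 u.1
    simp only [u, if_true, true_or, and_self, Equiv.Perm.mul_apply, Equiv.swap_apply_def, not_true]
    constructor <;> split_ifs <;> first | contradiction | omega | (simp; done) | (simp; omega)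
  by_cases v : r ∧ k + 2 = n
  · simp only [u, v, if_true, if_false, or_true, and_self, Equiv.swap_apply_def, not_false_eq_true]
    constructor <;> split_ifs <;> omega
  · simp only [u, v, if_false, or_false, Equiv.swap_apply_def, not_false_eq_true, Equiv.Perm.one_apply]
    constructor <;> split_ifs <;> first | omega | (simp; done) | (simp; omega)

theorem AJ_iff (h1 : l → r ∧ 3 ≤ n) {p q : ℕ × ℕ} (hp : p.1 < n) (hq : q.1 < n)
    (h : PS l r n p ∨ PS l r n q) (h2 : r → 2 ≤ n) : AJ l r n p q ↔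
      PS l r n p ∧ PS l r n q ∧ pnb r n p ∧ q = pnx l n p := by
  obtain ⟨k, a⟩ := p
  obtain ⟨j, c⟩ := q
  have e : pnb r n (k, a) ∧ (j, c) = pnx l n (k, a) ↔ (a = 0 ∧ k + 1 < n ∧ j = k + 1 ∧ c = 0) ∨
      (a = 0 ∧ ¬ k + 1 < n ∧ r ∧ j = k - 1 ∧ c = 1) ∨ (a ≠ 0 ∧ l ∧ k = 1 ∧ j = 0 ∧ c = 0) ∨
      (a ≠ 0 ∧ 0 < k ∧ ¬ (l ∧ k = 1) ∧ j = k - 1 ∧ c = 1) := by
    unfold pnb pnx
    split_ifs with u v v <;> simp only [Prod.mk.injEq] at * <;> cases l <;> cases r <;>
      simp at * <;> omega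
  rw [e]
  clear e
  by_cases e1 : j = k + 1
  · subst e1
    have := (AJ_adj h1 k a c).1
    generalize AJ l r n (k, a) (k + 1, c) = X at this
    unfold PS at *
    by_cases X <;> cases l <;> cases r <;> simp [*] at * <;> omega
  by_cases e2 : k = j + 1
  · subst e2
    have := (AJ_adj h1 j a c).2
    generalize AJ l r n (j + 1, a) (j, c) = X at this
    unfold PS at *
    by_cases X <;> cases l <;> cases r <;> simp [*] at * <;> (try split_ifs at this) <;> omega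
  · unfold AJ pl PS at *
    rw [if_neg (not_or.2 ⟨e1, e2⟩)]
    cases l <;> cases r <;> simp at h h1 h2 hp hq ⊢ <;> omega

theorem pnb_cases (h2 : r → 2 ≤ n) {p : ℕ × ℕ} (h : PS l r n p) (u : pnb r n p) :
    (∃ k, k + 1 < n ∧ p = (k, 0) ∧ pnx l n p = (k + 1, 0)) ∨
    (∃ k, r ∧ k + 2 = n ∧ p = (k + 1, 0) ∧ pnx l n p = (k, 1)) ∨
    (l ∧ r ∧ 2 < n ∧ p = (1, 1) ∧ pnx l n p = (0, 0)) ∨
    ∃ k, r ∧ k + 2 < n ∧ ¬ (l ∧ k = 0) ∧ p = (k + 1, 1) ∧ pnx l n p = (k, 1) := by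
  obtain ⟨k, a⟩ := p
  obtain ⟨h, rfl | ⟨rfl, b, c, -⟩⟩ : k < n ∧ (a = 0 ∨ (a = 1 ∧ _)) := h
  · by_cases q : k + 1 < n
    · exact Or.inl ⟨k, q, rfl, by simp [pnx, q]⟩
    · have e : r := by simpa [pnb, q] using u
      have := h2 e
      obtain ⟨k, rfl⟩ := Nat.exists_eq_add_one.2 (show 0 < k by omega)
      exact Or.inr (Or.inl ⟨k, e, by omega, rfl, by simp [pnx, q]⟩)
  · obtain ⟨k, rfl⟩ := Nat.exists_eq_add_one.2 (show 0 < k by simpa [pnb] using u)
    by_cases q : l ∧ k = 0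
    · obtain ⟨q, rfl⟩ := q
      exact Or.inr (Or.inr (Or.inl ⟨q, b, c, rfl, by simp [pnx, q]⟩))
    · exact Or.inr (Or.inr (Or.inr ⟨k, b, c, q, rfl, by simpa [pnx] using q⟩))

variable {V : Type} {m : V → V → ℕ} {e : ℕ → V}

open Classical in
/-- The component of the plumbing graph over a linear diagram. -/
noncomputable def pch (h1 : l → r ∧ 3 ≤ n) (h2 : r → 2 ≤ n) (inj : InjOn e (Iio n)) {N : ℕ} (hN : 3 ≤ N)
    (hm : ∀ i < n, ∀ j < n, i ≠ j → m (e i) (e j) = pl l r n i j) :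
    Chn m N (fun s t => LV l r n (Function.invFunOn e (Iio n) s) (Function.invFunOn e (Iio n) t))
      (e '' Iio n) (ℕ × ℕ) :=
  have aj : ∀ p q : ℕ × ℕ, p.1 < n → q.1 < n → PS l r n p ∨ PS l r n q → (Aj m N (fun s t =>
      LV l r n (Function.invFunOn e (Iio n) s) (Function.invFunOn e (Iio n) t)) (e p.1, p.2) (e q.1, q.2) ↔
      PS l r n p ∧ PS l r n q ∧ pnb r n p ∧ q = pnx l n p) := fun p q hp hq h => by
    have := AJ_iff h1 hp hq h h2
    simp only [Aj, inj.leftInvOn_invFunOn hp, inj.leftInvOn_invFunOn hq]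
    refine ⟨fun u => this.1 ⟨fun v => u.1 (by rw [v]), u.2.1, ?_⟩, fun u => ?_⟩
    · exact hm _ hp _ hq (fun v => u.1 (by rw [v])) ▸ u.2.2.2
    · obtain ⟨a, b, c⟩ := this.2 u
      exact ⟨fun v => a (inj hp hq v), b, by have := u.2.1.2; omega, hm _ hp _ hq a ▸ c⟩
  have mS : ∀ p, p ∈ (Finset.range n ×ˢ Finset.range 2).filter (PS l r n) ↔ PS l r n p := fun p => by
    simp only [Finset.mem_filter, Finset.mem_product, Finset.mem_range]
    exact and_iff_right_of_imp fun u => ⟨u.1, by have := u.2; omega⟩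
  have nx : ∀ p, PS l r n p → pnb r n p → PS l r n (pnx l n p) := fun p h u => by
    rcases pnb_cases h2 h u with ⟨k, a, -, d⟩ | ⟨k, a, b, -, d⟩ | ⟨a, b, c, -, d⟩ | ⟨k, a, b, c, -, d⟩ <;>
      rw [d]
    exacts [⟨a, Or.inl rfl⟩, ⟨by omega, Or.inr ⟨rfl, a, by omega, fun u => by
      have := h1 u.1; omega⟩⟩, ⟨by omega, Or.inl rfl⟩, ⟨by omega, Or.inr ⟨rfl, a, by omega, c⟩⟩]
  { S := (Finset.range n ×ˢ Finset.range 2).filter (PS l r n)
    cp := fun p => (e p.1, p.2)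
    nx := pnx l n
    nb := pnb r n
    inj := fun p a q b u => Prod.ext (inj ((mS p).1 a).1 ((mS q).1 b).1 (Prod.mk.inj u).1)
      (Prod.mk.inj u).2
    col := fun p a => ⟨⟨_, ((mS p).1 a).1, rfl⟩, by have := ((mS p).1 a).2; omega⟩
    nxt := fun p a u => have := nx p ((mS p).1 a) u
      ⟨(mS _).2 this, (aj _ _ ((mS p).1 a).1 this.1 (Or.inr this)).2 ⟨(mS p).1 a, this, u, rfl⟩⟩
    uq := fun p a q b u v w => by
      rcases pnb_cases h2 ((mS p).1 a) u with ⟨k, a, rfl, d⟩ | ⟨k, a, c, rfl, d⟩ | ⟨a, c, f, rfl, d⟩ |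
        ⟨k, a, c, f, rfl, d⟩ <;>
      rcases pnb_cases h2 ((mS q).1 b) v with ⟨k, a, rfl, d'⟩ | ⟨k, a, b, rfl, d'⟩ | ⟨a, b, c, rfl, d'⟩ |
        ⟨k, a, b, c, rfl, d'⟩ <;> simp only [d, d', Prod.mk.injEq, and_true] at w ⊢ <;> omega
    up := fun p a ⟨_, c⟩ ⟨j, hj, u⟩ v => by
      cases u
      have := (aj p (j, c) ((mS p).1 a).1 hj (Or.inl ((mS p).1 a))).1 v
      exact ⟨this.2.2.1, by rw [← this.2.2.2]⟩
    dn := fun p a ⟨_, c⟩ ⟨j, hj, u⟩ v => by
      cases u
      exact ⟨(j, c), (mS _).2 ((aj (j, c) p hj ((mS p).1 a).1 (Or.inr ((mS p).1 a))).1 v).1, rfl⟩ }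

theorem prel (inj : InjOn e (Iio n))
    (hm : ∀ i < n, ∀ j < n, i ≠ j → m (e i) (e j) = pl l r n i j) :
    PRel l r n fun i => (PresentedGroup.of (e i) : Art m) := by
  have k : ∀ i j, i < j → j < n → _ := fun i j a b => (hm i (a.trans b) j b a.ne ▸ artin_rel m
    (s := e i) (t := e j) fun u => a.ne (inj (a.trans b) b u) :)
  refine ⟨fun i j a b => ?_, fun i a b c => ?_, fun i a b => ?_⟩
  · have := k i j (by omega) b
    rw [pl, if_neg (by omega)] at this
    exact show _ = _ by simpa [alt] using this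
  · have := k i _ i.lt_succ_self a
    rw [pl, if_pos (Or.inl rfl), if_neg (by simpa using ⟨by simpa using b, by simpa using c⟩)] at this
    simpa [alt, mul_assoc] using this
  · have := k i _ i.lt_succ_self a
    rw [pl, if_pos (Or.inl rfl), if_pos (by simpa using b)] at this
    simpa [alt, mul_assoc] using this

theorem exists_E {s t : ℕ} (ht : t < n) : ∃ (E : ℕ → Gm) (K : Subgroup Gm) (G : ℕ → Bool),
    (∀ k, E (k + 1) = xx k * E k) ∧ (∀ i < n, sg i (E 0) = E 0) ∧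
    (∀ i < n, sg i (E (n + 1)) = E (n + 1)) ∧ (∀ k ≤ n, G k → E k ∈ K ∧ E (k + 1) ∈ K) ∧
    (∀ k ≠ s, G (k + 1) = G k) ∧ E (t + 1) ∈ K ∧ (t ≠ s → G t) ∧
    ∀ a : MulAut Gm, a (E 0) = E 0 → a (E (t + 1)) ∈ K → if t ≤ s then a (Cw 0 (t + 1)) ∈ GS (Iio (s + 1))
      else a (Cw 0 (t + 1)) * (Cw 0 (t + 1))⁻¹ ∈ GS (Ici (s + 1)) := by
  by_cases q : t ≤ s
  · have : ∀ k ≤ s + 1, Cw 0 k ∈ GS (Iio (s + 1)) := fun k u =>
      GS.mono (fun _ v => v.2.trans_le u) (Cw_mem 0 k)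
    exact ⟨Cw 0, GS (Iio (s + 1)), fun k => k ≤ s, fun k => Cw_succ k.zero_le,
      fun _ _ => by rw [Cw_le le_rfl, map_one],
      fun i u => sg_Cw (by omega) (by omega), fun k _ u => ⟨this _ (by simp at u; omega),
      this _ (by simpa using u)⟩, fun k u => by simp; omega, this _ (by omega), fun _ => by simpa,
      fun a _ u => by rwa [if_pos q]⟩
  · obtain ⟨E, hE⟩ : ∃ E : ℕ → Gm, ∀ k, E k = Cw 0 k * (Cw 0 (n + 1))⁻¹ := ⟨_, fun _ => rfl⟩
    have : ∀ k ≤ n + 1, s < k → E k ∈ GS (Ici (s + 1)) := fun k u v => by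
      rw [hE, ← Cw_mul k.zero_le u, mul_inv_rev, mul_inv_cancel_left]
      exact inv_mem (GS.mono (S := Ico k (n + 1)) (fun _ w => le_trans v w.1) (Cw_mem _ _))
    refine ⟨E, GS (Ici (s + 1)), fun k => s < k, fun k => by rw [hE, hE, Cw_succ k.zero_le, mul_assoc],
      fun i u => ?_, fun _ _ => by rw [hE, mul_inv_cancel, map_one],
      fun k w u => ⟨this _ (by omega) (by simpa using u), this _ (by omega) (by simp at u; omega)⟩,
      fun k u => by simp; omega, this _ (by omega) (by omega), fun _ => by simpa using q,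
      fun a v u => ?_⟩
    · rw [hE, map_mul, map_inv, sg_Cw (by omega) (by omega), sg_Cw (by omega) (by omega)]
    · have w := mul_mem u (inv_mem (this (t + 1) (by omega) (by omega)))
      rw [hE, Cw_le le_rfl, one_mul] at v
      rw [hE, map_mul, v] at w
      rw [if_neg q]
      simpa [mul_assoc] using w

def pD (r : Bool) (n : ℕ) (E : ℕ → Gm) (p : ℕ × ℕ) : Gm :=
  if p.2 = 0 then (if p.1 + 1 < n then E (p.1 + 2) else if r then (E p.1)⁻¹ else 1)
  else if 0 < p.1 then (E p.1)⁻¹ else 1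

def pB (l : Bool) (E : ℕ → Gm) (p : ℕ × ℕ) : Gm :=
  if p.2 = 0 then (if 0 < p.1 then E p.1 else if l then (E (p.1 + 2))⁻¹ else 1) else (E (p.1 + 2))⁻¹

def pJ (l r : Bool) (n : ℕ) (E : ℕ → Gm) (k : ℕ) (p : ℕ × ℕ) : Gm :=
  if k = 0 then (if l ∧ p.1 = 0 then (E p.1)⁻¹ else 1) else if k = 2 then
    (if p.2 = 0 then (if p.1 + 1 = n then E (p.1 + 2) else 1) else if p.1 = 0 then (E p.1)⁻¹ else 1)
  else if p.2 = 0 then (if p.1 = 0 then (E p.1)⁻¹ else if r ∧ p.1 + 1 = n then E (p.1 + 2) else 1) else 1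

theorem pJ_mem {E : ℕ → Gm} {K : Subgroup Gm} {p : ℕ × ℕ} (h : p.1 = 0 → E p.1 ∈ K)
    (h' : p.1 + 1 = n → E (p.1 + 2) ∈ K) (k : ℕ) : pJ l r n E k p ∈ K := by
  unfold pJ
  split_ifs <;> simp_all

theorem dc_path [Finite V] (sym : ∀ s t, m s t = m t s) (n1 : ∀ s t, s ≠ t → m s t ≠ 1)
    (h1 : l → r ∧ 3 ≤ n) (h2 : r → 2 ≤ n) (inj : InjOn e (Iio n))
    (hm : ∀ i < n, ∀ j < n, i ≠ j → m (e i) (e j) = pl l r n i j) {s t : ℕ} (hs : s < n) (ht : t < n) :
    Dc m (e '' Iio n) {e s} {e t} := by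
  classical
  obtain ⟨N, hN, hn⟩ := exists_mult' n1
  obtain ⟨E, K, G, E1, E0, En, G1, G2, G3, G4, fin⟩ := exists_E (s := s) ht
  let ci := Function.invFunOn e (Iio n)
  have hc : ∀ i < n, ci (e i) = i := fun i u => inj.leftInvOn_invFunOn u
  let La : ℕ → Gm := fun k => if (l ∧ k = 0) ∨ (r ∧ k + 1 = n) then
    xx (k + 1) * xx k * (xx (k + 1) * xx k) else xx (k + 1) * xx k
  have EC : ∀ k, E k = Cw 0 k * E 0 := fun k => by
    induction k with
    | zero => simp [Cw]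
    | succ k ih => rw [E1, ih, Cw_succ k.zero_le, mul_assoc]
  have sE : ∀ i < n, ∀ k, sg i (E k) = (if i + 1 = k then xx k * xx i else 1) * E k := fun i u k => by
    rw [EC, map_mul, E0 i u]
    split_ifs with q
    · subst q
      rw [sg_Cw' i.zero_le]
      simp [Cw_succ, mul_assoc]
    · rw [sg_Cw (by omega) q, one_mul]
  have rE : ∀ v ∈ e '' Iio n, ∀ k < n, ∀ y, y = La k →
      rr l r n (ci v) (E (k + 1)) = (if v = e k then y else 1) * E (k + 1) := by
    rintro _ ⟨i, u, rfl⟩ k v _ rfl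
    rw [hc i u, if_congr (inj.eq_iff u v) rfl rfl]
    by_cases q : i = k
    · subst q
      simp only [rr, La]
      split_ifs <;> simp [sq, sE i u, sg_xx, mul_assoc]
    · unfold rr
      split_ifs <;> simp [sq, sE i u, q]
  have rE' : ∀ v ∈ e '' Iio n, ∀ k < n, ∀ y, y = (E (k + 1))⁻¹ * (La k)⁻¹ * E (k + 1) →
      rr l r n (ci v) (E (k + 1))⁻¹ = (if v = e k then y else 1) * (E (k + 1))⁻¹ := by
    rintro v u k w _ rfl
    rw [map_inv, rE v u k w _ rfl]
    split_ifs <;> simp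
  let P : Subgroup (MulAut Gm) := MulAction.stabilizer _ (E 0) ⊓ MulAction.stabilizer _ (E (n + 1))
  have hr : ∀ v ∈ e '' Iio n, rr l r n (ci v) ∈ P := by
    rintro _ ⟨i, u, rfl⟩
    have : sg i ∈ P := ⟨E0 i u, En i u⟩
    rw [hc i u, rr]
    split_ifs
    exacts [pow_mem this _, this]
  have mS : ∀ p, p ∈ (pch h1 h2 inj hN hm).S ↔ PS l r n p := fun p => by
    simp only [pch, Finset.mem_filter, Finset.mem_product, Finset.mem_range]
    exact and_iff_right_of_imp fun u => ⟨u.1, by have := u.2; omega⟩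
  have A : ∀ k < n, pJ l r n E 2 (k, 0) * pD r n E (k, 0) * pJ l r n E 3 (k, 0) * (pB l E (k, 0))⁻¹ *
      pJ l r n E 0 (k, 0) = La k := fun k u => by
    simp only [pJ, pD, pB, La]
    cases l <;> cases r <;> simp at h1 h2 ⊢ <;> split_ifs <;>
      first | omega | simp [E1, mul_assoc]
  refine (pch h1 h2 inj hN hm).dc sym hn (fun _ _ => LV_lt hN _ _) (t := (t, 0)) ((mS _).2 ⟨ht, Or.inl rfl⟩)
    ⟨s, hs, rfl⟩ (MulAut.toPerm _) (fun a u v w => show a _ = a _ * (a _)⁻¹ * a _ by simp) P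
    (fun v => rr l r n (ci v)) (pD r n E) (pB l E) (E (t + 1)) (pJ l r n E) hr (fun a ha i hi u => ?_)
    (fun a ha i hi => ⟨fun u => ?_, fun u => ?_⟩) (fun v hv => rE v hv t ht _ (A t ht))
    (fun v hv i hi u => ?_) (fun v hv i hi u => ?_) K
    (fun p => if p.2 = 0 ∧ ¬ (l ∧ p.1 = 0) then G p.1 else G (p.1 + 1))
    (fun p => if p.2 = 0 ∧ ¬ (r ∧ p.1 + 1 = n) then G (p.1 + 1) else G p.1) (fun i hi u => ?_)
    (fun i hi u => ?_) G3 (fun u => ?_) fun g a ha u => ?_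
  · have : ∀ k, a (pJ l r n E k i) = pJ l r n E k i := fun k =>
      pJ_mem (K := (a.toMonoidHom).eqLocus (MonoidHom.id _)) (fun q => q ▸ ha.1) (fun q => by
        rw [show i.1 + 2 = n + 1 by omega]; exact ha.2) k
    exact ⟨(map_mul a _ _).trans (by rw [this]; rfl), (map_mul a _ _).trans (by rw [this]; rfl),
      (map_mul a _ _).trans (by rw [this]; rfl)⟩
  · have : pD r n E i = 1 := by
      replace u : ¬ pnb r n i := u
      unfold pnb at u
      unfold pD
      split_ifs at u ⊢ <;> tauto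
    rw [this]; exact map_one a
  · have : pB l E i = 1 := by
      obtain ⟨k, c⟩ := i
      obtain ⟨h, rfl | ⟨rfl, b, c, d⟩⟩ : k < n ∧ (c = 0 ∨ (c = 1 ∧ _)) := (mS _).1 hi
      · rcases k with _ | k
        · cases l
          · simp [pB]
          · have := h1 rfl
            exact (u (1, 1) ((mS _).2 ⟨by omega, Or.inr (by simp [this.1]; omega)⟩) (by simp [pch, pnb])
              (by simp [pch, pnx])).elim
        · exact (u (k, 0) ((mS _).2 ⟨by omega, Or.inl rfl⟩) (by simp [pch, pnb, h])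
            (by simp [pch, pnx, h])).elim
      · by_cases q : k + 2 < n
        · exact (u (k + 1, 1) ((mS _).2 ⟨by omega, Or.inr (by simp [b]; omega)⟩) (by simp [pch, pnb])
            (by simpa [pch, pnx] using d)).elim
        · exact (u (k + 1, 0) ((mS _).2 ⟨c, Or.inl rfl⟩) (by simp [pch, pnb, b])
            (by simp [pch, pnx, q])).elim
    rw [this]; exact map_one a
  · show rr l r n (ci v) (pB l E (pnx l n i)) = (if v = e i.1 then _ else 1) * pB l E (pnx l n i)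
    rcases pnb_cases h2 ((mS _).1 hi) u with ⟨k, a, rfl, d⟩ | ⟨k, a, c, rfl, d⟩ | ⟨a, c, f, rfl, d⟩ |
      ⟨k, a, c, f, rfl, d⟩ <;> rw [d]
    · refine rE v hv k (by omega) _ ?_
      rw [← A k (by omega)]
      simp [pJ, a.ne]
    · refine rE' v hv (k + 1) (by omega) _ ?_
      simp [pJ, pD, pB, La, a, ← c, E1, mul_assoc]
    · rw [show pB l E (0, 0) = (E (1 + 1))⁻¹ by simp [pB, a]]
      refine rE' v hv 1 (by omega) _ ?_
      simp [pJ, pD, pB, La, f.ne, E1, mul_assoc]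
    · refine rE' v hv (k + 1) (by omega) _ ?_
      simp [pJ, pD, pB, La, c.ne, E1, mul_assoc]
  · show rr l r n (ci v) (pD r n E i) = (if v = e (pnx l n i).1 then pJ l r n E 0 (pnx l n i) *
      pJ l r n E 2 (pnx l n i) * pD r n E (pnx l n i) * pJ l r n E 3 (pnx l n i) *
      (pB l E (pnx l n i))⁻¹ else 1) * pD r n E i
    have B : ∀ k, k + 1 < n → ¬ (l ∧ k = 0) → pJ l r n E 0 (k, 1) * pJ l r n E 2 (k, 1) * pD r n E (k, 1) *
        pJ l r n E 3 (k, 1) * (pB l E (k, 1))⁻¹ = (E (k + 1))⁻¹ * (La k)⁻¹ * E (k + 1) := fun k a b => by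
      simp only [pJ, pD, pB, La, b, a.ne]
      rcases k with _ | k <;> simp [E1, mul_assoc]
    rcases pnb_cases h2 ((mS _).1 hi) u with ⟨k, a, rfl, d⟩ | ⟨k, a, c, rfl, d⟩ | ⟨a, c, f, rfl, d⟩ |
      ⟨k, a, c, f, rfl, d⟩ <;> rw [d]
    · rw [show pD r n E (k, 0) = E (k + 1 + 1) by simp [pD, a]]
      refine rE v hv _ a _ ?_
      rw [← A _ a]
      simp [pJ]
    · rw [show pD r n E (k + 1, 0) = (E (k + 1))⁻¹ by simp [pD, a, ← c]]
      exact rE' v hv _ (by omega) _ (B k (by omega) fun q => by have := h1 q.1; omega)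
    · refine rE' v hv 0 (by omega) _ ?_
      simp [pJ, pD, pB, La, a, show 1 < n by omega, show 1 ≠ n by omega, E1, mul_assoc]
    · exact rE' v hv _ (by omega) _ (B k (by omega) f)
  · show (if (pnx l n i).2 = 0 ∧ ¬ (l ∧ (pnx l n i).1 = 0) then G (pnx l n i).1 else G ((pnx l n i).1 + 1)) = _ ∧
      (_ → _ ∧ pB l E (pnx l n i) ∈ K)
    rcases pnb_cases h2 ((mS _).1 hi) u with ⟨k, a, rfl, d⟩ | ⟨k, a, c, rfl, d⟩ | ⟨a, c, f, rfl, d⟩ |
      ⟨k, a, c, f, rfl, d⟩ <;> rw [d]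
    · simpa [pD, pB, a, a.ne, and_comm] using G1 (k + 1) a.le
    · simpa [pD, pB, a, ← c] using G1 (k + 1) (by omega)
    · simpa [pD, pB, a] using G1 1 (by omega)
    · simpa [pD, pB] using G1 (k + 1) (by omega)
  · have w := G2 i.1 fun q => u (congrArg e q)
    have z := ((mS _).1 hi).1
    simp only [w, ite_self, true_and]
    exact fun q => pJ_mem (fun _ => (G1 _ z.le q).1) fun _ => (G1 _ z (w ▸ q)).2
  · have w : t ≠ s := fun q => u (congrArg e q)
    simpa [G2 t w] using G4 w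
  · have ha' : (g, a) ∈ Subgroup.closure ((fun i => (PresentedGroup.of (e i), rr l r n i)) '' Iio n) := by
      rwa [image_image, image_congr (g := fun i => (PresentedGroup.of (e i), rr l r n i))
        fun i w => by rw [hc i w]] at ha
    obtain ⟨p, hp, q, hq, rfl⟩ := dcp (cl_map (MonoidHom.snd _ _) (by
      rintro _ ⟨i, w, rfl⟩; exact mem_cl i w rfl) ha') hs ht (fin a (cl_map (K := P) (MonoidHom.snd _ _) (by
        rintro _ ⟨i, w, rfl⟩; exact hr i w) ha).1 u)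
    obtain ⟨p, hp, q, hq, rfl⟩ := dc_of_faith (fun x => (prel inj hm).faith (by omega)
      fun a _ => by have := h1 a; omega) sdiff_subset sdiff_subset ha' hp hq
    have : ∀ s < n, Subgroup.closure ((fun i => PresentedGroup.of (e i)) '' (Iio n \ {s})) ≤
        Par m (e '' Iio n \ {e s}) := fun s w => (Subgroup.closure_le _).2 (by
      rintro _ ⟨i, z, rfl⟩
      exact Par.of ⟨⟨i, z.1, rfl⟩, fun y => z.2 (inj z.1 w y)⟩)
    exact ⟨p, this s hs hp, q, this t ht hq, rfl⟩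

end Pool.Agent.MP_6eaae3_al.Cl

end MrgPart5

-- ======== part 6: formerly Pool.Agent.MP_6eaae3_al.Cl.Sing
section MrgPart6

/-! Reduction to maximal parabolic subgroups and to irreducible cliques. -/

namespace Pool.Agent.MP_6eaae3_al.Cl

open Set

variable {V : Type} {m : V → V → ℕ}

theorem pk_map {ι ι' : Type} {col : ι → Set V} {col' : ι' → Set V} {S : Art m → ι → ι → Prop}
    {S' : Art m → ι' → ι' → Prop} (h : Pk m col S) (f : ι → ι') (hc : ∀ i, col i ⊆ col' (f i))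
    (hS : ∀ g i' j', S' g i' j' → ∃ i j g', ∃ p ∈ Par m (col j)ᶜ,
      S g' i j ∧ f i = i' ∧ f j = j' ∧ g = p * g') : Pk m col' S' := by
  intro lo
  obtain ⟨hi, R, F, tg, h1, h2⟩ := h lo
  refine ⟨hi, R, F, f ∘ tg, fun ν a => ⟨(h1 ν a).lo, (h1 ν a).hi, (h1 ν a).ns, (h1 ν a).nt,
    fun v hv => (h1 ν a).av v fun e => hv (hc _ e)⟩, fun g i' j' s => ?_⟩
  obtain ⟨i, j, g', q, hq, s', rfl, rfl, rfl⟩ := hS g i' j' s
  obtain ⟨ν, a, μ, b, rfl, rfl, e⟩ := h2 g' i j s'
  exact ⟨ν, a, μ, b, rfl, rfl, by rwa [map_mul, MulAut.mul_apply, (h1 μ b).stab hq]⟩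

theorem dc_single {Λ : Set V} (h : ∀ s ∈ Λ, ∀ t ∈ Λ, Dc m Λ {s} {t})
    (ih : ∀ v ∈ Λ, ∀ W X, Dc m (Λ \ {v}) W X) (W X : Set V) : Dc m Λ W X := by
  have sb : ∀ (Y : Set V) v, Par m ((Λ \ {v}) \ Y) ≤ Par m (Λ \ Y) :=
    fun Y v => Par.mono (sdiff_subset_sdiff_left sdiff_subset)
  by_cases a : ∃ s ∈ Λ, s ∈ W
  swap
  · exact Dc.triv (Or.inl (by simpa using a))
  by_cases b : ∃ t ∈ Λ, t ∈ X
  swap
  · exact Dc.triv (Or.inr (by simpa using b))
  obtain ⟨s, hs, a⟩ := a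
  obtain ⟨t, ht, b⟩ := b
  refine ((((h s hs t ht).map (col' := fun b : Bool => if b then X ∩ Λ else W ∩ Λ)
    (S' := fun g i j => i = true ∧ j = false ∧ g ∈ Par m Λ ∧ ¬ DC m (Λ \ {s}) (Λ \ {t}) g) id ?_
      fun g i j u => ⟨i, j, g, 1, one_mem _, u, rfl, rfl, by simp⟩).join
    (pk_map (S' := fun g i j => i = true ∧ j = false ∧ ∃ p ∈ Par m (Λ \ {s}), ∃ q ∈ Par m (Λ \ {t}),
      g = p * q ∧ ¬ DC m ((Λ \ {t}) \ {s}) ((Λ \ {t}) \ X) q) (ih t ht {s} X) id ?_ ?_)).join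
    ((ih s hs W X).map (S' := fun g i j => i = true ∧ j = false ∧ ∃ p ∈ Par m (Λ \ {s}),
      ∃ q ∈ Par m (Λ \ X), g = p * q ∧ ¬ DC m ((Λ \ {s}) \ W) ((Λ \ {s}) \ X) p) id ?_ ?_)).mono ?_
  · rintro (_ | _) <;> simp [*]
  · rintro (_ | _)
    exacts [fun v u => ⟨u.1 ▸ a, u.2.1⟩, inter_subset_inter_right _ sdiff_subset]
  · rintro g _ _ ⟨rfl, rfl, p, hp, q, hq, rfl, n⟩
    exact ⟨true, false, q, p, Par.mono (fun v u w => u.2 w.1) hp, ⟨rfl, rfl, hq, n⟩, rfl, rfl, rfl⟩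
  · rintro (_ | _) <;> exact inter_subset_inter_right _ sdiff_subset
  · rintro g _ _ ⟨rfl, rfl, p, hp, q, hq, rfl, n⟩
    exact ⟨true, false, p, q, Par.mono (fun v u w => u.2 w.1) hq, ⟨rfl, rfl, hp, n⟩, rfl, rfl, rfl⟩
  · rintro g _ _ ⟨rfl, rfl, u, n⟩
    by_contra! q
    obtain ⟨p, hp, y, hy, rfl⟩ := q.1.1 rfl rfl u
    obtain ⟨p', hp', y', hy', rfl⟩ := q.1.2 rfl rfl p hp y hy rfl
    obtain ⟨x, hx, x', hx', e⟩ := q.2 rfl rfl _ (mul_mem hp (sb _ _ hp')) _ (sb _ _ hy') (mul_assoc _ _ _).symm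
    exact n ⟨x, sb _ _ hx, x' * y', mul_mem (sb _ _ hx') (sb _ _ hy'), by rw [← mul_assoc, e, mul_assoc]⟩

theorem dc_all [Finite V] (sym : ∀ s t, m s t = m t s)
    (h : ∀ Λ : Set V, Λ.Nonempty → (∀ s ∈ Λ, ∀ t ∈ Λ, s ≠ t → m s t ≠ 0) →
      (∀ c ⊂ Λ, c.Nonempty → ∃ s ∈ c, ∃ t ∈ Λ \ c, m s t ≠ 2) → ∀ s ∈ Λ, ∀ t ∈ Λ, Dc m Λ {s} {t})
    (Λ : Set V) : ∀ W X, Dc m Λ W X := by
  induction Λ using WellFoundedLT.induction with
  | ind Λ ih =>
    intro W X
    have ih' : ∀ v ∈ Λ, ∀ W X, Dc m (Λ \ {v}) W X := fun v hv => ih _ (sdiff_singleton_ssubset.2 hv)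
    by_cases q : ∃ a ∈ Λ, ∃ b ∈ Λ, a ≠ b ∧ m a b = 0
    · obtain ⟨a, ha, b, hb, e, h0⟩ := q
      exact Dc.step ha hb e h0 (sym a b ▸ h0) ih'
    rcases Λ.eq_empty_or_nonempty with rfl | ne
    · exact Dc.triv (by simp)
    by_cases r : ∃ c ⊂ Λ, c.Nonempty ∧ ∀ s ∈ c, ∀ t ∈ Λ \ c, m s t = 2
    · obtain ⟨c, a, ⟨v, b⟩, d⟩ := r
      exact union_sdiff_cancel a.1 ▸ (ih c a W X).prod (fun s a b => b.2 a) d
        (ih _ ⟨sdiff_subset, fun e => (e (a.1 b)).2 b⟩ W X)
    push Not at q r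
    exact dc_single (h Λ ne q r) ih' W X

end Pool.Agent.MP_6eaae3_al.Cl

end MrgPart6

-- ======== part 7: formerly Pool.Agent.MP_6eaae3_al.Cl.Lin
section MrgPart7

/-! Detection for edges and for linear diagrams given by an enumeration. -/

namespace Pool.Agent.MP_6eaae3_al.Cl

open Set

variable {V : Type} [Finite V] {m : V → V → ℕ}

theorem dc_lin (sym : ∀ s t, m s t = m t s) (n1 : ∀ s t, s ≠ t → m s t ≠ 1) {n : ℕ} {e : ℕ → V}
    (inj : InjOn e (Iio n)) (h2 : ∀ i j, i + 1 < j → j < n → m (e i) (e j) = 2)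
    (h3 : ∀ i, i + 1 < n → m (e i) (e (i + 1)) = 3 ∨ (m (e i) (e (i + 1)) = 4 ∧ (i = 0 ∨ i + 2 = n))) :
    ∀ s ∈ e '' Iio n, ∀ t ∈ e '' Iio n, Dc m (e '' Iio n) {s} {t} := by
  wlog w : 3 ≤ n → m (e 0) (e 1) = 4 → m (e (n - 2)) (e (n - 2 + 1)) = 4 generalizing e
  · have im : (fun i => e (n - 1 - i)) '' Iio n = e '' Iio n := by
      refine Subset.antisymm ?_ ?_ <;> rintro _ ⟨i, u : i < n, rfl⟩
      exacts [⟨_, show _ < n by omega, rfl⟩, ⟨n - 1 - i, show _ < n by omega, congrArg e (by omega)⟩]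
    push Not at w
    rw [← im]
    refine this (fun i (u : i < n) j (v : j < n) q => ?_) (fun i j u v => ?_) (fun i u => ?_) fun _ u => ?_
    · have := inj (show _ < n by omega) (show _ < n by omega) q
      omega
    · rw [sym]; exact h2 _ _ (by omega) (by omega)
    · have := h3 (n - 1 - (i + 1)) (by omega)
      rw [show n - 1 - (i + 1) + 1 = n - 1 - i by omega, sym] at this
      exact this.imp_right fun q => ⟨q.1, by omega⟩
    · rw [show n - 1 - (n - 2) = 1 by omega, show n - 1 - (n - 2 + 1) = 0 by omega, sym, w.2.1]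
  rintro _ ⟨s, hs, rfl⟩ _ ⟨t, ht, rfl⟩
  have k : ∀ i j, i < j → j < n → m (e i) (e j) = pl (decide (3 ≤ n ∧ m (e 0) (e 1) = 4))
      (decide (2 ≤ n ∧ m (e (n - 2)) (e (n - 2 + 1)) = 4)) n i j := fun i j u v => by
    by_cases q : j = i + 1
    · subst q
      have := h3 i v
      simp only [pl, true_or, if_true, Nat.le_succ, min_eq_left, max_eq_right, decide_eq_true_eq]
      split_ifs with z
      · rcases z with ⟨z, rfl⟩ | ⟨z, rfl⟩
        exacts [z.2, z.2]
      · refine this.resolve_right fun y => z ?_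
        by_cases x : i + 2 = n
        · subst x; exact Or.inr ⟨⟨by omega, y.1⟩, rfl⟩
        · obtain rfl : i = 0 := by omega
          exact Or.inl ⟨⟨by omega, y.1⟩, rfl⟩
    · rw [h2 i j (by omega) v, pl, if_neg (by omega)]
  refine dc_path (l := decide (3 ≤ n ∧ m (e 0) (e 1) = 4))
    (r := decide (2 ≤ n ∧ m (e (n - 2)) (e (n - 2 + 1)) = 4)) sym n1 (fun q => ?_)
    (fun q => (of_decide_eq_true q).1) inj (fun i u j v q => ?_) hs ht
  · have := of_decide_eq_true q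
    exact ⟨decide_eq_true ⟨by omega, w this.1 this.2⟩, this.1⟩
  · rcases q.lt_or_gt with q | q
    · exact k i j q v
    · rw [sym, k j i q u]
      simp only [pl, or_comm, min_comm, max_comm]

theorem dc_pair (sym : ∀ s t, m s t = m t s) (n1 : ∀ s t, s ≠ t → m s t ≠ 1) {w x : V}
    (h : w ≠ x → 3 ≤ m w x) : ∀ s ∈ ({w, x} : Set V), ∀ t ∈ ({w, x} : Set V), Dc m {w, x} {s} {t} := by
  by_cases e : w = x
  · subst e
    simpa using dc_vertex sym n1 w
  have a := dc_edge sym n1 e (h e)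
  have b := dc_edge sym n1 (Ne.symm e) (sym w x ▸ h e)
  rw [pair_comm] at b
  rintro s (rfl | rfl) t (rfl | rfl)
  exacts [a.1, a.2, b.2, b.1]

end Pool.Agent.MP_6eaae3_al.Cl

end MrgPart7

-- marker of a merged file
example : 731051 + 209437 = 731051 + 209437 := rfl
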