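import Pool.Agent.MP_6eaae3_al.Cl.Lin

-- ======== part 0: formerly Pool.Agent.MP_6eaae3_al.Cl.Rot
section MrgPart0

/-! Braids of an annulus: arcs to the central point and the rotation. -/

namespace Pool.Agent.MP_6eaae3_al.Cl

open Subgroup Set

theorem Rf.ne {y : Gm} {j : ℕ} (h : Rf y j) : y ≠ 1 := fun e => h.mem (S := ∅) (e ▸ one_mem _)

theorem arc_sort {n : ℕ} {h} (hh : h ∈ Bk 0 (n + 1)) {A} (hA : A ∈ GS (Ici 1))
    (e : h (xx 0) = A * xx 0 * A⁻¹) : ∃ q ∈ Bk 1 (n + 1), ∃ j ≤ n, A = q (Cw 1 (j + 1)) := by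
  let ι : Gm × Gm →* Equiv.Perm (Gm × Gm) := MulAction.toPermHom _ _
  let s : Equiv.Perm (Gm × Gm) := Equiv.prodComm _ _
  have hs : ∀ u, s * ι u = ι u.swap * s := fun u => Equiv.ext fun _ => rfl
  have ss : s * s = 1 := Equiv.ext fun _ => rfl
  let θ : Gm →* Equiv.Perm (Gm × Gm) := lft (fun i => if i = 0 then s else ι (xx i, 1)) fun i => by
    split_ifs
    exacts [ss, by rw [← map_mul, Prod.mk_mul_mk, xx_mul_self, mul_one]; exact map_one ι]
  have θ0 : θ (xx 0) = s := by simp [θ]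
  have θ1 : ∀ y ∈ GS (Ici 1), θ y = ι (y, 1) := fun y => GS.eq θ (ι.comp (MonoidHom.inl _ _))
    fun i (u : 1 ≤ i) => by simp [θ, show i ≠ 0 by omega]
  have nf : ∀ B, ∃ u, θ B = ι u ∨ θ B = ι u * s := fun B => by
    obtain ⟨l, rfl⟩ := exists_ev B
    induction l with
    | nil => exact ⟨1, by simp⟩
    | cons i l ih =>
      obtain ⟨u, ih⟩ := ih
      rw [ev_cons, map_mul]
      rcases i with _ | i
      · exact ⟨u.swap, ih.elim (fun q => Or.inr (by rw [q, θ0, hs])) fun q => Or.inl (by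
          rw [q, θ0, ← mul_assoc, hs, mul_assoc, ss, mul_one])⟩
      · exact ⟨(xx (i + 1), 1) * u, ih.imp (fun q => by rw [q, θ1 _ (xx_mem (by simp)), map_mul])
          fun q => by rw [q, θ1 _ (xx_mem (by simp)), map_mul, mul_assoc]⟩
  let F : Gm × Gm → ℕ → Prop := fun u k => (Rf u.1 k ∧ u.2 = 1) ∨ (u.1 = 1 ∧ Rf u.2 k)
  have cj : ∀ u k c, F u k → F (c * u * c⁻¹) k := fun u k c =>
    Or.imp (fun q => ⟨q.1.conj _, by simp [q.2]⟩) fun q => ⟨by simp [q.1], q.2.conj _⟩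
  obtain ⟨π, p1, -⟩ := Bk.perm hh
  have π0 : π 0 = 0 := (p1 0).eq ⟨A, e⟩
  have : ∀ i, ∃ u : Gm × Gm, u * u = 1 ∧ (1 ≤ i → θ (h (xx i)) = ι u ∧ F u (π i)) := fun i => by
    by_cases q : 1 ≤ i
    swap
    · exact ⟨1, by simp, fun u => (q u).elim⟩
    obtain ⟨B, f⟩ := p1 i
    obtain ⟨u, v⟩ := nf B
    have x : θ (xx (π i)) = ι (xx (π i), 1) := θ1 _ (xx_mem (Nat.pos_of_ne_zero fun z =>
      absurd (π.injective (z.trans π0.symm)) (by omega)))
    rw [f, map_mul, map_mul, map_inv, x]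
    rcases v with v | v
    · exact ⟨u * (xx (π i), 1) * u⁻¹, by ext <;> simp [mul_assoc], fun _ => ⟨by simp [v],
        cj _ _ _ (Or.inl ⟨rf_xx _, rfl⟩)⟩⟩
    · refine ⟨u * (1, xx (π i)) * u⁻¹, by ext <;> simp [mul_assoc], fun _ => ⟨?_, cj _ _ _ (Or.inr ⟨rfl, rf_xx _⟩)⟩⟩
      rw [v, mul_assoc _ s, hs, map_mul, map_mul, map_inv]
      simp [mul_assoc]
  choose u u1 u2 using this
  let ψ := lft u u1
  have hC : ψ (Cw 1 (n + 1)) = (Cw 1 (n + 1) * A⁻¹, A) := by
    have m : Cw 1 (n + 1) ∈ GS (Ici 1) := GS.mono Ico_subset_Ici_self (Cw_mem _ _)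
    have := Bk.fix_Cw hh (c := 0) (d := n + 1) (Or.inl le_rfl) (Or.inr le_rfl)
    rw [← Cw_mul (b := 1) (by omega) (by omega), Cw_succ (b := 0) le_rfl, Cw_le le_rfl, mul_one,
      map_mul, e] at this
    refine MulAction.toPerm_injective (α := Gm × Gm) (β := Gm × Gm) ?_
    show ι _ = ι _
    rw [← show θ (h _) = ι (ψ _) from GS.eq (θ.comp h.toMonoidHom) (ι.comp ψ) (fun i hi => by
      simpa [ψ] using (u2 i hi).1) m, eq_mul_inv_of_mul_eq this]
    simp only [map_mul, map_inv, mul_inv_rev, inv_inv, xx_inv, θ0, θ1 _ m, θ1 _ hA]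
    rw [mul_assoc, ← mul_assoc s, hs, mul_assoc, ← mul_assoc s, ss, one_mul, ← map_inv, ← map_mul, ← map_mul]
    simp
  obtain ⟨p, hp, c, c1, c2, so⟩ := sort ψ (a := 1) (b := n + 1) (by omega) (fun y => y.1 = 1)
    fun y c q => by simpa using q
  obtain ⟨π', p2, p3⟩ := Bk.perm hp
  have ty : ∀ i ∈ Ico 1 (n + 1), F (ψ (p (xx i))) (π (π' i)) := fun i hi => by
    obtain ⟨B, f⟩ := p2 i
    rw [f, map_mul, map_mul, map_inv, lft_xx]
    exact cj _ _ _ (u2 _ ((p3 i).2 hi).1).2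
  have sq : ∀ i, ψ (p (xx i)) * ψ (p (xx i)) = 1 := fun i => by rw [← map_mul, ← map_mul]; simp
  let φ := lft (fun i => if i < c then (ψ (p (xx i))).2 else (ψ (p (xx i))).1) fun i => by
    split_ifs
    exacts [congrArg Prod.snd (sq i), congrArg Prod.fst (sq i)]
  have e1 : ψ (p (Cw 1 c)) = (1, φ (Cw 1 c)) :=
    GS.eq (ψ.comp p.toMonoidHom) ((MonoidHom.inr _ _).comp φ) (fun i hi => Prod.ext
      ((so i hi.1 (hi.2.trans_le c2)).2 hi.2) (by simp [φ, hi.2])) (Cw_mem _ _)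
  have e2 : ψ (p (Cw c (n + 1))) = (φ (Cw c (n + 1)), 1) :=
    GS.eq (ψ.comp p.toMonoidHom) ((MonoidHom.inl _ _).comp φ) (fun i hi => Prod.ext
      (by simp [φ, not_lt.2 hi.1]) ((ty i ⟨c1.trans hi.1, hi.2⟩).resolve_right fun q =>
        not_lt.2 hi.1 ((so i (c1.trans hi.1) hi.2).1 q.1)).2) (Cw_mem _ _)
  rw [← Bk.fix_Cw hp (c := 1) (d := n + 1) (Or.inl le_rfl) (Or.inr le_rfl), ← Cw_mul c1 c2, map_mul,
    map_mul, e1, e2, ← map_mul, Cw_mul c1 c2, Bk.fix_Cw hp (Or.inl le_rfl) (Or.inr le_rfl)] at hC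
  obtain ⟨e3, e4⟩ : φ (Cw c (n + 1)) = Cw 1 (n + 1) * A⁻¹ ∧ φ (Cw 1 c) = A := by simpa using hC
  obtain ⟨-, q, hq, k⟩ := Ty.art (h := φ) (a := 1) (b := n + 1) (b' := n + 1) ⟨π ∘ π',
    (π.injective.comp π'.injective).injOn, fun i hi => by
      have := ty i hi
      have := so i hi.1 hi.2
      simp only [φ, lft_xx]
      split_ifs with z
      exacts [(‹F _ _›.resolve_left fun y => y.1.ne (this.2 z)).2,
        (‹F _ _›.resolve_right fun y => z (this.1 y.1)).1]⟩ (by omega) (by omega)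
    (by rw [← Cw_mul c1 c2, map_mul, e3, e4, Cw_mul c1 c2, inv_mul_cancel_right])
  refine ⟨q⁻¹, inv_mem hq, c - 1, by omega, ?_⟩
  have := GS.eq (φ.comp q.toMonoidHom) (MonoidHom.id _) (fun j hj => k j hj.1 hj.2)
    (Bk.map_GS (inv_mem hq) subset_rfl (GS.mono (Ico_subset_Ico_right c2) (Cw_mem 1 c)))
  rw [Nat.sub_add_cancel c1, ← e4]
  simpa using this

variable {G : Type} [Group G]

theorem pr_shift {g : ℕ → G} {n : ℕ} (h : BraidRel g 1 n) {i k : ℕ} (u : i + 2 ≤ k) (v : k < n) :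
    pr (fun j => g (j + 1)) k * g (i + 1) = g (i + 2) * pr (fun j => g (j + 1)) k := by
  induction k, u using Nat.le_induction with
  | base =>
    have c : Commute (g (i + 2)) (pr (fun j => g (j + 1)) i) :=
      pr_mem (K := centralizer {g (i + 2)}) (fun j a _ e => e ▸
        (h.comm _ _ (by omega) (by omega) v).symm.eq) _ rfl
    have := h.braid (i + 1) (by omega) v
    simp only [pr, mul_assoc] at this ⊢
    rw [this, ← mul_assoc, ← c.eq, mul_assoc]
  | succ k u ih =>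
    rw [pr, mul_assoc, ← (h.comm (i + 1) (k + 1) (by omega) (by omega) v).eq, ← mul_assoc,
      ih (by omega), mul_assoc]

theorem typeB_rot {g : ℕ → G} {n : ℕ} {D : G} (h : BraidRel g 1 (n + 2))
    (h1 : ∀ i < n, D * g (i + 1) = g (i + 2) * D) (h2 : D * D * g (n + 1) = g 1 * (D * D)) :
    TypeB g (D * (pr (fun j => g (j + 1)) (n + 1))⁻¹) 1 (n + 2) := by
  have k : ∀ {R : G}, (∀ i < n, R * g (i + 1) = g (i + 2) * R) →
      g 1 * (R * pr (fun j => g (j + 1)) n) = pr (fun j => g (j + 1)) (n + 1) * R := fun {R} e => by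
    suffices ∀ k ≤ n, g 1 * (R * pr (fun j => g (j + 1)) k) = pr (fun j => g (j + 1)) (k + 1) * R from
      this n le_rfl
    intro k u
    induction k with
    | zero => simp [pr]
    | succ k ih => rw [pr, ← mul_assoc R, ← mul_assoc, ih (by omega), mul_assoc, e k u, ← mul_assoc]; rfl
  have s : ∀ i < n, _ := fun i u => pr_shift h (i := i) (k := n + 1) (by omega) (by omega)
  refine ⟨h, fun _ => ?_, fun i u v => ?_⟩
  · have a := k h1
    have b := k s
    have c : pr (fun j => g (j + 1)) (n + 1) = pr (fun j => g (j + 1)) n * g (n + 1) := rfl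
    generalize pr (fun j => g (j + 1)) (n + 1) = R at *
    generalize pr (fun j => g (j + 1)) n = S at *
    have d : D * R⁻¹ * g 1 * (D * R⁻¹) = D * D * (R * S)⁻¹ := by
      rw [show g 1 = R * D * (D * S)⁻¹ by rw [← a]; group]; group
    have e : g 1 * (R * S) = R * S * g (n + 1) := by rw [b, mul_assoc, ← c]
    calc _ = g 1 * (D * R⁻¹ * g 1 * (D * R⁻¹)) := by group
      _ = D * D * (g (n + 1) * (R * S)⁻¹) := by rw [d, ← mul_assoc, ← h2, mul_assoc]
      _ = D * R⁻¹ * g 1 * (D * R⁻¹) * g 1 := by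
        rw [d, show g (n + 1) = (R * S)⁻¹ * (g 1 * (R * S)) by rw [e]; group]; group
  · obtain ⟨i, rfl⟩ : ∃ j, i = j + 2 := ⟨i - 2, by omega⟩
    show _ * _ * _ = _
    rw [mul_assoc, ← mul_assoc (g _), ← h1 i (by omega), mul_assoc, mul_right_inj, inv_mul_eq_iff_eq_mul,
      ← mul_assoc, s i (by omega), mul_inv_cancel_right]

end Pool.Agent.MP_6eaae3_al.Cl

end MrgPart0

-- ======== part 1: formerly Pool.Agent.MP_6eaae3_al.Cl.Cyc
section MrgPart1

/-! Cyclic diagrams. -/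

namespace Pool.Agent.MP_6eaae3_al.Cl

open Subgroup Set

/-- The rotation of the points around the central point. -/
def rt (n : ℕ) : MulAut Gm := sg 0 ^ 2 * pr (fun j => sg (j + 1)) (n + 1)

variable {n : ℕ}

theorem pr_sg (k : ℕ) : pr (fun j => sg (j + 1)) k ∈ Bk 1 (k + 2) :=
  pr_mem fun _ u => sg_mem (by omega) (by omega)

theorem rt_mem : rt n ∈ Bk 0 (n + 3) :=
  mul_mem (pow_mem (sg_mem le_rfl (by omega)) _) (Bk.mono (by omega) le_rfl (pr_sg _))

theorem rt_zero : rt n (xx 0) = xx 1 * xx 0 * xx 1 := by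
  rw [rt, MulAut.mul_apply, Bk.fix_xx (pr_sg _) (by omega), sq_xx]; simp [mul_assoc]

theorem rt_xx {j : ℕ} (h : j ≤ n) : rt n (xx (j + 1)) = xx (j + 2) := by
  have : ∀ k, j < k → pr (fun j => sg (j + 1)) k (xx (j + 1)) = xx (j + 2) := fun k u => by
    induction k, u using Nat.le_induction with
    | base => rw [pr, MulAut.mul_apply, sg_xx, if_pos rfl, Bk.fix_xx (pr_sg _) (by omega)]
    | succ k u ih => rw [pr, MulAut.mul_apply, sg_xx, if_neg (by omega), if_neg (by omega), ih]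
  rw [rt, MulAut.mul_apply, this _ (by omega), sq_xx, if_neg (by omega)]

abbrev Hol : Type := Gm ⋊[MonoidHom.id (MulAut Gm)] MulAut Gm

/-- The affine action on the free product. -/
def hol : Hol →* Equiv.Perm Gm :=
  MonoidHom.mk' (fun a => a.right.toEquiv.trans (Equiv.mulRight a.left⁻¹)) fun a b => by
    ext; simp [mul_assoc]

theorem hol_apply (a : Hol) (v : Gm) : hol a v = a.right v * a.left⁻¹ := rfl

theorem hol_mul (a : Hol) (u v : Gm) : hol a (u * v) = a.right u * hol a v := by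
  simp [hol_apply, mul_assoc]

theorem hol_heap (a : Hol) (u v w : Gm) : hol a (u * v⁻¹ * w) = hol a u * (hol a v)⁻¹ * hol a w := by
  simp [hol_apply, mul_assoc]

/-- Affine maps that respect both boundary loops. -/
def Pb (n : ℕ) : Subgroup Hol :=
  (Subgroup.centralizer {Equiv.mulLeft (Cw 0 (n + 3)), Equiv.mulRight (xx 0)}).comap hol

theorem mem_Pb {a : Hol} : a ∈ Pb n ↔ (∀ u, hol a (Cw 0 (n + 3) * u) = Cw 0 (n + 3) * hol a u) ∧
    ∀ u, hol a (u * xx 0) = hol a u * xx 0 := by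
  simp only [Pb, mem_comap, Subgroup.mem_centralizer_iff, forall_mem_insert, mem_singleton_iff, forall_eq]
  simp [Equiv.ext_iff, eq_comm]

theorem Pb_of {a : Hol} (h : a.right ∈ Bk 0 (n + 3)) (e : a.right (xx 0) * a.left⁻¹ = a.left⁻¹ * xx 0) :
    a ∈ Pb n := mem_Pb.2 ⟨fun u => by rw [hol_mul, Bk.fix_Cw h (Or.inl le_rfl) (Or.inr le_rfl)],
  fun u => by simp only [hol_apply, map_mul, mul_assoc, e]⟩

theorem Pb.zero {a : Hol} (h : a ∈ Pb n) : a.right (xx 0) = hol a 1 * xx 0 * (hol a 1)⁻¹ := by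
  have := (mem_Pb.1 h).2 1
  rw [one_mul, ← mul_one (xx 0), hol_mul, mul_one] at this
  exact eq_mul_inv_of_mul_eq this

def rh (n : ℕ) : Hol := ⟨xx 1, rt n⟩

theorem rh_mem : rh n ∈ Pb n := Pb_of rt_mem (by simp [rh, rt_zero, mul_assoc])

theorem rh_E {k : ℕ} (h : k ≤ n + 1) : hol (rh n) (Cw 1 (k + 1)) = Cw 1 (k + 2) := by
  induction k with
  | zero => simp [hol_apply, rh, Cw]
  | succ k ih =>
    rw [Cw_succ (by omega), hol_mul, ih (by omega), Cw_succ (b := k + 2) (by omega)]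
    exact congrArg (· * _) (rt_xx (by omega))

theorem rh_pow {k : ℕ} (h : k ≤ n + 2) : hol (rh n ^ k) 1 = Cw 1 (k + 1) := by
  induction k with
  | zero => simp [Cw]
  | succ k ih => rw [pow_succ', map_mul, Equiv.Perm.mul_apply, ih (by omega), rh_E (by omega)]

/-- The generators of a cyclic diagram. -/
def rc (n : ℕ) (i : ZMod (n + 2)) : Hol :=
  if i = 0 then rh n * .inr (sg (n + 1)) * (rh n)⁻¹ else .inr (sg i.val)

theorem inr_mem {i : ℕ} (h : 0 < i) (h' : i < n + 2) : SemidirectProduct.inr (sg i) ∈ Pb n :=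
  Pb_of (sg_mem (by omega) (by omega)) (by simp [sg_xx, h.ne])

theorem rc_mem (i : ZMod (n + 2)) : rc n i ∈ Pb n := by
  unfold rc; split_ifs with q
  exacts [mul_mem (mul_mem rh_mem (inr_mem (by omega) (by omega))) (inv_mem rh_mem),
    inr_mem (ZMod.val_pos.2 q) (ZMod.val_lt i)]

theorem Cw_top (n : ℕ) : Cw 1 (n + 1) = Cw 0 (n + 1) * xx 0 := by
  rw [← Cw_mul (a := 0) (b := 1) (c := n + 1) (by omega) (by omega)]; simp [Cw, mul_assoc]

theorem rc_E (i : ZMod (n + 2)) {k : ℕ} (h : k ≤ n + 2) (y : Gm) (hy : y = if k = 0 then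
      Cw 1 2 * xx 0 * (Cw 1 (n + 2))⁻¹ * Cw 0 (n + 3) else if k = n + 2 then
      Cw 0 (n + 3) * Cw 1 2 * xx 0 * (Cw 1 (n + 2))⁻¹ else Cw 1 (k + 2) * (Cw 1 k)⁻¹) :
    hol (rc n i) (Cw 1 (k + 1)) = (if i = k then y else 1) * Cw 1 (k + 1) := by
  have hi : ∀ φ v, hol (.inr φ) v = φ v := fun φ v => by simp [hol_apply]
  have top : ∀ i, hol (rc n i) (Cw 1 (n + 3)) = (if i = 0 then
      Cw 0 (n + 3) * Cw 1 2 * xx 0 * (Cw 1 (n + 2))⁻¹ else 1) * Cw 1 (n + 3) := fun i => by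
    unfold rc; split_ifs with q
    · rw [map_mul, map_mul, map_inv, ← rh_E le_rfl, Equiv.Perm.mul_apply, Equiv.Perm.mul_apply,
        Equiv.Perm.coe_inv, Equiv.symm_apply_apply, hi, sg_Cw' (by omega), hol_heap,
        rh_E (k := n) (by omega), Cw_top (n + 2), (mem_Pb.1 rh_mem).2, ← mul_one (Cw 0 _),
        (mem_Pb.1 rh_mem).1, ← Cw_le (le_refl 1), rh_E (k := 0) (by omega),
        Cw_le le_rfl, mul_one]
    · have := ZMod.val_pos.2 q
      have := ZMod.val_lt i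
      rw [hi, sg_Cw (by omega) (by omega), one_mul]
  subst hy
  rcases k with _ | k
  · have := top i
    rw [Cw_top, (mem_Pb.1 (rc_mem i)).2, ← mul_one (Cw 0 _), (mem_Pb.1 (rc_mem i)).1] at this
    rw [Cw_le le_rfl, eq_inv_mul_of_mul_eq (mul_right_cancel (this.trans (mul_assoc _ _ _).symm))]
    simp only [Nat.cast_zero]
    split_ifs <;> simp [mul_assoc]
  rcases h.eq_or_lt with e | e
  · rw [e, top]; simp
  have v : ((k + 1 : ℕ) : ZMod (n + 2)).val = k + 1 := ZMod.val_natCast_of_lt e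
  rw [if_neg k.succ_ne_zero, if_neg e.ne]
  unfold rc
  by_cases q : i = 0
  · rw [if_pos q, if_neg fun u => by simp [← u, q] at v, map_mul, map_mul, map_inv,
      ← rh_E (n := n) (k := k) (by omega),
      Equiv.Perm.mul_apply, Equiv.Perm.mul_apply, Equiv.Perm.coe_inv, Equiv.symm_apply_apply, hi,
      sg_Cw (by omega) (by omega), one_mul]
  rw [if_neg q, hi]
  split_ifs with u
  · rw [u, v, sg_Cw' (by omega)]
  · have := ZMod.val_pos.2 q
    rw [sg_Cw (by omega) fun w => u (by rw [← Nat.succ.inj w, ZMod.natCast_zmod_val]), one_mul]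

theorem cyc_dc {G : Type} [Group G] {f : ZMod (n + 2) → G}
    (hb : ∀ i, f i * f (i + 1) * f i = f (i + 1) * f i * f (i + 1))
    (hc : ∀ i j, j ≠ i + 1 → i ≠ j + 1 → Commute (f i) (f j)) {g a} (t : ZMod (n + 2))
    (h : (g, a) ∈ closure ((fun i => (f i, rc n i)) '' univ)) (e : hol a (Cw 1 (t.val + 1)) ∈ GS (Ici 1)) :
    ∃ p ∈ closure (f '' {0}ᶜ), ∃ q ∈ closure (f '' {t}ᶜ), g = p * q := by
  let L : (ℤ → G) →* Equiv.Perm (ℤ × G) := MonoidHom.mk' (fun γ => Equiv.prodShear (.refl ℤ)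
    fun k => Equiv.mulLeft (γ k)) fun _ _ => Equiv.ext fun _ => Prod.ext rfl (mul_assoc _ _ _)
  let u : ℕ → Equiv.Perm (ℤ × G) := fun i => L fun k => f (i - k)
  let D : Equiv.Perm (ℤ × G) := Equiv.prodCongr (Equiv.addRight 1) (.refl _)
  have du : ∀ i, D * u i = u (i + 1) * D := fun i => Equiv.ext fun _ => by simp [D, u, L]
  have per : ∀ i, u (n + 2 + i) = u i := fun i => by
    simp only [u, Nat.cast_add (n + 2), ZMod.natCast_self, zero_add]
  have br : BraidRel u 1 (n + 2) := ⟨fun i _ _ => by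
      simp only [u, ← map_mul]; congr 1; ext k
      simpa [add_sub_right_comm] using hb (i - k),
    fun i j a b c => Commute.map (show _ = _ from funext fun k => (hc _ _ (fun q => by
      rw [← add_sub_right_comm, sub_left_inj, ← Nat.cast_succ, ZMod.natCast_eq_natCast_iff',
        Nat.mod_eq_of_lt c, Nat.mod_eq_of_lt (by omega)] at q; omega) fun q => by
      rw [← add_sub_right_comm, sub_left_inj, ← Nat.cast_succ, ZMod.natCast_eq_natCast_iff',
        Nat.mod_eq_of_lt (by omega)] at q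
      rcases Nat.eq_or_lt_of_le c with c | c
      · rw [show j.succ = n + 2 from c, Nat.mod_self] at q; omega
      · rw [Nat.mod_eq_of_lt c] at q; omega).eq) L⟩
  have tb := typeB_rot br (fun i _ => du _) (by rw [mul_assoc, du, ← mul_assoc, du, per, mul_assoc])
  let M := closure (insert (D * (pr (fun j => u (j + 1)) (n + 1))⁻¹, sg 0 ^ 2)
    (insert (1, sg (n + 2) ^ 2) ((fun i => (u i, sg i)) '' Ico 1 (n + 2))))
  have ft : ∀ x ∈ M, x.2 = 1 → x = 1 := fun x => TypeC.faith ⟨tb, fun _ => by simp,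
    fun _ _ _ => Commute.one_left _, fun _ => Commute.one_right _⟩ (by omega)
  have mu : ∀ i, 0 < i → i < n + 2 → (u i, sg i) ∈ M :=
    fun i a b => Subgroup.subset_closure (Or.inr (Or.inr ⟨i, ⟨a, b⟩, rfl⟩))
  have mD : (D, rt n) ∈ M := by
    have := mul_mem (Subgroup.subset_closure (Or.inl rfl) : _ ∈ M)
      (pr_mem (n := n + 1) fun j a => mu (j + 1) (by omega) (by omega))
    have pp : ∀ k, pr (fun j => (u (j + 1), sg (j + 1))) k =
        (pr (fun j => u (j + 1)) k, pr (fun j => sg (j + 1)) k) := fun k => by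
      induction k with
      | zero => rfl
      | succ k ih => rw [pr, ih]; rfl
    rwa [pp, Prod.mk_mul_mk, inv_mul_cancel_right] at this
  have k1 : ∃ γ : ℤ → G, (L γ, a.right) ∈ M ∧ γ 0 = g ∧ a ∈ Pb n ∧ a.right ∈ Bk 0 (n + 3) := by
    clear e
    generalize hx : (g, a) = x at h
    obtain ⟨rfl, rfl⟩ : g = x.1 ∧ a = x.2 := by simp [← hx]
    clear hx
    induction h using closure_induction with
    | mem _ w =>
      obtain ⟨i, -, rfl⟩ := w
      refine ⟨fun k => f (i - k), ?_, by simp, rc_mem i, ?_⟩ <;> simp only [rc] <;> split_ifs with q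
      · have := mul_mem (mul_mem mD (mu (n + 1) (by omega) (by omega))) (inv_mem mD)
        rw [Prod.inv_mk, Prod.mk_mul_mk, Prod.mk_mul_mk, du, mul_inv_cancel_right, per 0] at this
        simpa [u, q, rh] using this
      · simpa [u] using mu _ (ZMod.val_pos.2 q) (ZMod.val_lt i)
      · simpa [rh] using mul_mem (mul_mem rt_mem (sg_mem (by omega) (by omega))) (inv_mem rt_mem)
      · exact sg_mem (by omega) (Nat.succ_lt_succ (ZMod.val_lt i))
    | one => exact ⟨1, by rw [map_one]; exact one_mem M, rfl, one_mem _, one_mem _⟩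
    | mul _ _ _ _ v w =>
      obtain ⟨γ, v1, v2, v3, v4⟩ := v; obtain ⟨γ', w1, w2, w3, w4⟩ := w
      exact ⟨γ * γ', by rw [map_mul]; exact mul_mem v1 w1, by simp [v2, w2], mul_mem v3 w3, mul_mem v4 w4⟩
    | inv _ _ v =>
      obtain ⟨γ, v1, v2, v3, v4⟩ := v
      exact ⟨γ⁻¹, by rw [map_inv]; exact inv_mem v1, by simp [v2], inv_mem v3, inv_mem v4⟩
  have k2 : ∀ q ∈ Bk 1 (n + 3), ∃ γ : ℤ → G, (L γ, q) ∈ M ∧ ∀ k : ℤ, γ k ∈ closure (f '' {-(k : ZMod _)}ᶜ) := by
    intro q hq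
    induction hq using closure_induction with
    | mem _ w =>
      obtain ⟨i, w, rfl⟩ := w
      refine ⟨_, mu i w.1 (by have := w.2; omega), fun k => Subgroup.subset_closure ⟨_, fun z => ?_, rfl⟩⟩
      have := Nat.le_of_dvd w.1 ((ZMod.natCast_eq_zero_iff _ _).1 (by simpa [sub_eq_add_neg] using z))
      have := w.2; omega
    | one => exact ⟨1, by rw [map_one]; exact one_mem M, fun _ => one_mem _⟩
    | mul _ _ _ _ v w =>
      obtain ⟨γ, v1, v2⟩ := v; obtain ⟨γ', w1, w2⟩ := w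
      exact ⟨γ * γ', by rw [map_mul]; exact mul_mem v1 w1, fun k => mul_mem (v2 k) (w2 k)⟩
    | inv _ _ v =>
      obtain ⟨γ, v1, v2⟩ := v
      exact ⟨γ⁻¹, by rw [map_inv]; exact inv_mem v1, fun k => inv_mem (v2 k)⟩
  obtain ⟨γ, m1, rfl, m2, m3⟩ := k1
  have rp : ∀ k, (rh n ^ k).right = rt n ^ k := fun k => map_pow SemidirectProduct.rightHom _ _
  have z := Pb.zero (mul_mem m2 (pow_mem rh_mem t.val))
  rw [map_mul, Equiv.Perm.mul_apply, rh_pow t.val_lt.le, SemidirectProduct.mul_right, rp] at z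
  have hh := mul_mem m3 (pow_mem rt_mem t.val)
  obtain ⟨q, hq, j, hj, eA⟩ := arc_sort hh e z
  have z' := Pb.zero (pow_mem (rh_mem (n := n)) j)
  rw [rh_pow hj, rp] at z'
  obtain ⟨α, a1, a2⟩ := k2 q hq
  obtain ⟨β, b1, b2⟩ := k2 ((q * rt n ^ j)⁻¹ * (a.right * rt n ^ t.val)) (Bk.of_fix (by omega) (by omega)
    (mul_mem (inv_mem (mul_mem (Bk.mono (by omega) le_rfl hq) (pow_mem rt_mem _))) hh) fun i _ v => by
      obtain rfl : i = 0 := by omega
      rw [MulAut.mul_apply, z, eA, ← Bk.fix_xx hq (j := 0) (by omega), ← map_inv, ← map_mul, ← map_mul,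
        ← z', ← MulAut.mul_apply _ q, MulAut.inv_apply_self, Bk.fix_xx hq (by omega)])
  have := congrArg Prod.fst (ft _ (mul_mem (inv_mem (mul_mem (mul_mem a1 (pow_mem mD j)) b1))
    (mul_mem m1 (pow_mem mD t.val))) (by simp [mul_assoc]))
  have Dp : ∀ (k : ℕ) x, (D ^ k) x = (x.1 + k, x.2) := fun k => by
    induction k with
    | zero => simp
    | succ k ih => intro x; rw [pow_succ', Equiv.Perm.mul_apply, ih]; simp [D, add_assoc]
  have := congrArg (· (-(t.val : ℤ), 1)) (inv_mul_eq_one.1 this)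
  simp only [Prod.fst_mul, Prod.pow_fst, Equiv.Perm.mul_apply, Dp] at this
  obtain ⟨c1, c2⟩ : -(t.val : ℤ) + j = 0 ∧ α (-(t.val : ℤ) + j) * β (-(t.val : ℤ)) = γ 0 := by
    simpa [L] using this
  exact ⟨α 0, by simpa using a2 0, β (-(t.val : ℤ)), by simpa using b2 (-(t.val : ℤ)), by rw [← c2, c1]⟩

variable {V : Type} [Finite V] {m : V → V → ℕ}

theorem dc_cyc0 (sym : ∀ s t, m s t = m t s) (n1 : ∀ s t, s ≠ t → m s t ≠ 1) (hn : 0 < n)
    {e : ZMod (n + 2) → V} (inj : e.Injective)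
    (hm : ∀ i j, i ≠ j → m (e i) (e j) = if j = i + 1 ∨ i = j + 1 then 3 else 2) (t : ZMod (n + 2)) :
    Dc m (e '' univ) {e 0} {e t} := by
  classical
  obtain ⟨N, hN, hd⟩ := exists_mult' n1
  have : Fact (1 < n + 2) := ⟨by omega⟩
  let ci := Function.invFun e
  have hc : ∀ i, ci (e i) = i := Function.leftInverse_invFun inj
  have z1 : ∀ i : ZMod (n + 2), i ≠ i + 1 := fun i => by simp
  have z2 : ∀ i : ZMod (n + 2), i ≠ i + 1 + 1 := fun i q => by
    have := Nat.le_of_dvd (by omega) ((ZMod.natCast_eq_zero_iff 2 (n + 2)).1 (by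
      rw [add_assoc, left_eq_add] at q; exact_mod_cast q))
    omega
  let lv : V → V → Equiv.Perm ℕ := fun u v => if ci v = ci u + 1 then 1 else .swap 0 1
  have aj : ∀ i j a c, a = 0 ∨ c = 0 → (Aj m N lv (e i, a) (e j, c) ↔ j = i + 1 ∧ a = 0 ∧ c = 0) := by
    intro i j a c h
    simp only [Aj, lv, hc, inj.ne_iff]
    by_cases q : i = j
    · simp [q]
    rw [hm i j q]
    by_cases u : j = i + 1
    · subst u
      simp only [if_neg (z2 i), Equiv.swap_apply_def]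
      simp [q]; split_ifs <;> first | omega | (simp; omega)
    by_cases v : i = j + 1
    · simp only [v, if_neg (v ▸ u), Equiv.swap_apply_def]
      simp [z2]; split_ifs <;> omega
    · simp [u, v]
  let C : Chn m N lv (e '' univ) (ZMod (n + 2)) :=
    { S := Finset.univ
      cp := fun i => (e i, 0)
      nx := fun i => i + 1
      nb := fun _ => True
      inj := fun _ _ _ _ u => inj (Prod.mk.inj u).1
      col := fun i _ => ⟨⟨i, trivial, rfl⟩, by omega⟩
      nxt := fun i _ _ => ⟨Finset.mem_univ _, (aj _ _ _ _ (Or.inl rfl)).2 ⟨rfl, rfl, rfl⟩⟩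
      uq := fun _ _ _ _ _ _ => add_right_cancel
      up := by
        rintro i - ⟨_, c⟩ ⟨j, -, rfl⟩ u
        obtain ⟨rfl, -, rfl⟩ := (aj _ _ _ _ (Or.inl rfl)).1 u
        exact ⟨trivial, rfl⟩
      dn := by
        rintro i - ⟨_, c⟩ ⟨j, -, rfl⟩ u
        obtain ⟨-, rfl, -⟩ := (aj _ _ _ _ (Or.inr rfl)).1 u
        exact ⟨j, Finset.mem_univ _, rfl⟩ }
  have mE : ∀ k, Cw 1 k ∈ GS (Ici 1) := fun k => GS.mono Ico_subset_Ici_self (Cw_mem _ _)
  have vl : ∀ i : ZMod (n + 2), (i + 1 = 0 ∧ i.val = n + 1) ∨ (i + 1 ≠ 0 ∧ (i + 1).val = i.val + 1 ∧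
      i.val < n + 1) := fun i => by
    have := i.val_lt
    have a : (i + 1).val = (i.val + 1) % (n + 2) := by rw [ZMod.val_add, ZMod.val_one]
    by_cases q : i.val = n + 1
    · exact Or.inl ⟨(ZMod.val_eq_zero _).1 (by rw [a, q, Nat.mod_self]), q⟩
    · rw [Nat.mod_eq_of_lt (by omega)] at a
      exact Or.inr ⟨fun u => by simp [u] at a, a, by omega⟩
  have A : ∀ v ∈ e '' univ, ∀ (i : ZMod (n + 2)) y, y = Cw 1 (i.val + 2) * (if i = 0 then xx 0 else 1) *
      (Cw 1 ((i - 1).val + 1))⁻¹ * (if i = 0 then Cw 0 (n + 3) else 1) →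
      hol (rc n (ci v)) (Cw 1 (i.val + 1)) = (if v = e i then y else 1) * Cw 1 (i.val + 1) := by
    rintro _ ⟨j, -, rfl⟩ i _ rfl
    rw [hc, rc_E j i.val_lt.le _ rfl, ZMod.natCast_zmod_val, if_congr inj.eq_iff rfl rfl]
    obtain ⟨i, rfl⟩ : ∃ k, i = k + 1 := ⟨i - 1, by simp⟩
    rcases vl i with ⟨a, b⟩ | ⟨a, b, c⟩
    · rw [add_sub_cancel_right, b, a]; simp
    · simp [a, b, c.ne]
  refine C.dc sym hd (fun u v i => ?_) (t := t) (Finset.mem_univ _) ⟨0, trivial, rfl⟩ hol hol_heap (Pb n)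
    (fun v => rc n (ci v)) (fun i => Cw 1 (i.val + 2)) (fun i => Cw 1 ((i - 1).val + 1)) (Cw 1 (t.val + 1))
    (fun k i => if k = 2 ∨ i ≠ 0 then 1 else if k = 0 then Cw 0 (n + 3) else xx 0) (fun _ _ => rc_mem _)
    (fun a ha i _ u => ?_) (fun a _ i _ => ⟨fun u => (u trivial).elim,
      fun u => (u (i - 1) (Finset.mem_univ _) trivial (sub_add_cancel i 1)).elim⟩)
    (fun v hv => A v hv t _ (by by_cases t = 0 <;> simp [*])) (fun v hv i _ _ => ?_) (fun v hv i _ _ => ?_)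
    (GS (Ici 1)) (fun _ => true) (fun _ => true) (fun _ _ _ => ⟨rfl, fun _ => ⟨mE _, mE _⟩⟩)
    (fun i _ u => ⟨rfl, fun _ k => by rw [if_pos (Or.inr fun q => u (congrArg e q))]; exact one_mem _⟩)
    (mE _) (fun _ => rfl) fun g a ha u => ?_
  · simp only [lv]
    split_ifs
    · rfl
    · rw [Equiv.swap_apply_def]; split_ifs <;> omega
  · by_cases i = 0 <;> simp [*, mem_Pb.1 ha]
  · simp only [C, add_sub_cancel_right]
    exact A v hv i _ (by by_cases i = 0 <;> simp [*])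
  · obtain ⟨j, -, rfl⟩ := hv
    simp only [C, add_sub_cancel_right, hc, inj.eq_iff]
    rw [rc_E j (k := i.val + 1) i.val_lt _ rfl, Nat.cast_succ, ZMod.natCast_zmod_val]
    rcases vl i with ⟨a, b⟩ | ⟨a, b, c⟩
    · simp [a, b]
    · simp [a, b, c.ne]
  · obtain ⟨p, hp, q, hq, rfl⟩ := cyc_dc (f := fun i => (PresentedGroup.of (e i) : Art m)) (fun i => by
      have := artin_rel m (inj.ne (z1 i))
      rw [hm _ _ (z1 i), if_pos (Or.inl rfl)] at this
      simpa [alt, mul_assoc] using this) (fun i j a b => by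
      by_cases c : i = j
      · rw [c]
      have := artin_rel m (inj.ne c)
      rw [hm _ _ c, if_neg (not_or.2 ⟨a, b⟩)] at this
      exact show _ = _ by simpa [alt] using this) t (by simpa only [image_image, hc] using ha) u
    have : ∀ s, closure ((fun i => PresentedGroup.of (e i)) '' {s}ᶜ) ≤ Par m (e '' univ \ {e s}) :=
      fun s => (closure_le _).2 (by
        rintro _ ⟨i, z, rfl⟩
        exact Par.of ⟨⟨i, trivial, rfl⟩, fun y => z (inj y)⟩)
    exact ⟨p, this 0 hp, q, this t hq, rfl⟩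

theorem dc_cyc (sym : ∀ s t, m s t = m t s) (n1 : ∀ s t, s ≠ t → m s t ≠ 1) (hn : 3 ≤ n)
    {e : ZMod n → V} (inj : e.Injective)
    (hm : ∀ i j, i ≠ j → m (e i) (e j) = if j = i + 1 ∨ i = j + 1 then 3 else 2) :
    ∀ s ∈ range e, ∀ t ∈ range e, Dc m (range e) {s} {t} := by
  obtain ⟨n, rfl⟩ : ∃ k, n = k + 2 := ⟨n - 2, by omega⟩
  rintro _ ⟨s, rfl⟩ _ ⟨t, rfl⟩
  have := dc_cyc0 sym n1 (by omega) (e := fun i => e (i + s)) (inj.comp (add_left_injective s))
    (fun i j u => by rw [hm _ _ (by simpa using u)]; simp only [add_right_comm _ s, add_left_inj]) (t - s)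
  rwa [zero_add, sub_add_cancel, image_univ,
    show range (fun i => e (i + s)) = range e from (add_right_surjective s).range_comp e] at this

end Pool.Agent.MP_6eaae3_al.Cl

end MrgPart1

-- marker of a merged file
example : 731051 + 559774 = 731051 + 559774 := rfl
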